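import Pool.Agent.CarT.Push

/-! Dynamics: infinite order elements of `V_d`, and the commensurator obstruction (rows). -/

open Filter Topology

namespace CarT

-- BEGIN cmeq
/-- If `f^i` and `f^j` map the cone `(M,a)` affinely onto the same cone, they agree on it. -/
theorem cmeq (d m a m' a' : ℕ) (hd : 2 ≤ d) (f g : Equiv.Perm X)
    (h : CM d f m a m' a') (h' : CM d g m a m' a') : ∀ s ∈ cone d m a, f s = g s := by
  intro s hs
  have hd0 : (0 : ℝ) < (d : ℝ) ^ m' := by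
    apply pow_pos
    exact_mod_cast (by omega : 0 < d)
  exact Subtype.ext (mul_left_cancel₀ hd0.ne' ((h s hs).trans (h' s hs).symm))
-- END cmeq

/-- The conclusion of the compression lemma: a set `S` mapped into itself by a power `f^n`, `n ≠ 0`,
missing a cone of `S`. -/
def Compress (d : ℕ) (f : Equiv.Perm X) : Prop :=
  ∃ (n : ℤ) (S : Set X) (m b : ℕ), n ≠ 0 ∧ b < d ^ m ∧ cone d m b ⊆ S ∧
    ∀ s ∈ S, (f ^ n) s ∈ S ∧ (f ^ n) s ∉ cone d m b

-- BEGIN cstrict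
/-- If `f^n` maps a cone affinely onto a strictly smaller cone inside it, then `Compress`
(`S = cone d m a`; another cone of level `m'` inside `S` exists since `d ≥ 2`). -/
theorem cstrict (d : ℕ) (hd : 2 ≤ d) (f : Equiv.Perm X) (n : ℤ) (hn : n ≠ 0) (m a m' a' : ℕ)
    (ha : a < d ^ m) (h : CM d (f ^ n) m a m' a') (hm : m < m') (hin : a' / d ^ (m' - m) = a) :
    Compress d f := by
  have hD : 2 ≤ d ^ (m' - m) := by
    calc 2 ≤ d := hd
      _ = d ^ 1 := (pow_one d).symm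
      _ ≤ d ^ (m' - m) := Nat.pow_le_pow_right (by omega) (by omega)
  have hpow : d ^ m' = d ^ m * d ^ (m' - m) := by
    rw [← pow_add]; congr 1; omega
  obtain ⟨b, hb, hbd, hba⟩ : ∃ b, b < d ^ m' ∧ b / d ^ (m' - m) = a ∧ b ≠ a' := by
    have hlt : a * d ^ (m' - m) + 1 < d ^ m' := by
      rw [hpow]
      calc a * d ^ (m' - m) + 1 < a * d ^ (m' - m) + d ^ (m' - m) := by omega
        _ = (a + 1) * d ^ (m' - m) := by ring
        _ ≤ d ^ m * d ^ (m' - m) := Nat.mul_le_mul_right _ ha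
    by_cases hc : a' = a * d ^ (m' - m)
    · refine ⟨a * d ^ (m' - m) + 1, hlt, ?_, by omega⟩
      rw [mul_comm, Nat.mul_add_div (by omega), Nat.div_eq_of_lt (by omega), add_zero]
    · refine ⟨a * d ^ (m' - m), by omega, ?_, fun h => hc h.symm⟩
      exact Nat.mul_div_cancel _ (by omega)
  have hsub := (cnest d m a m' a' hd hm.le).2 hin
  have hsubb := (cnest d m a m' b hd hm.le).2 hbd
  refine ⟨n, cone d m a, m', b, hn, hb, hsubb, fun s hs => ?_⟩
  have h1 : (f ^ n) s ∈ cone d m' a' := (cmim d m a m' a' hd ha (f ^ n) h s).1 hs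
  refine ⟨hsub h1, fun h2 => hba ?_⟩
  have h3 := (cnest d m' a' m' b hd le_rfl).1 ⟨_, h1, h2⟩
  rw [Nat.sub_self, pow_zero, Nat.div_one] at h3
  exact h3
-- END cstrict

-- BEGIN cwand
/-- A cone disjoint from all its images `f^i`, `i ≥ 1`, gives `Compress` (`n = 1`,
`S = union of the f^i (cone), i ≥ 0`). -/
theorem cwand (d : ℕ) (hd : 2 ≤ d) (f : Equiv.Perm X) (m a : ℕ) (ha : a < d ^ m)
    (h : ∀ i : ℕ, 0 < i → ∀ s ∈ cone d m a, (f ^ i) s ∉ cone d m a) : Compress d f := by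
  refine ⟨1, {s | ∃ i : ℕ, ∃ c ∈ cone d m a, s = (f ^ i) c}, m, a, one_ne_zero, ha,
    fun s hs => ⟨0, s, hs, by simp⟩, ?_⟩
  rintro s ⟨i, c, hc, rfl⟩
  have e : (f ^ (1 : ℤ)) ((f ^ i) c) = (f ^ (i + 1)) c := by
    rw [zpow_one, pow_succ', Equiv.Perm.mul_apply]
  rw [e]
  exact ⟨⟨i + 1, c, hc, rfl⟩, h (i + 1) (Nat.succ_pos i) c hc⟩
-- END cwand

-- BEGIN crun
/-- One step alternative. `M` a level as in `vlev`. For a cone `(M,a)`: either `Compress`, or some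
`f^i`, `i ≥ 1`, is the identity on it, or some `f^i`, `i ≥ 1`, maps it affinely onto a cone
`(m',a')` of level `m' < M`. (If the last never happens, by induction every `f^i` maps it onto a
cone of level `≥ M`; if one of these, `i ≥ 1`, meets `(M,a)`, it is contained in it: `cstrict` or
equal; else `cwand`.) -/
theorem crun (d : ℕ) (hd : 2 ≤ d) (f : Equiv.Perm X) (M : ℕ)
    (hf : ∀ a < d ^ M, ∃ m' a', CM d f M a m' a') (a : ℕ) (ha : a < d ^ M) :
    Compress d f ∨ (∃ i : ℕ, 0 < i ∧ ∀ s ∈ cone d M a, (f ^ i) s = s) ∨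
      ∃ i m' a', 0 < i ∧ m' < M ∧ CM d (f ^ i) M a m' a' := by
  by_cases h3 : ∃ i m' a', 0 < i ∧ m' < M ∧ CM d (f ^ i) M a m' a'
  · exact Or.inr (Or.inr h3)
  have hall : ∀ i : ℕ, ∃ m' a', M ≤ m' ∧ CM d (f ^ i) M a m' a' := by
    intro i
    induction i with
    | zero =>
      refine ⟨M, a, le_refl _, ?_⟩
      intro s _
      rw [pow_zero, Equiv.Perm.coe_one, id_eq]
      ring
    | succ i ih =>
      obtain ⟨m', a', hm, hc⟩ := ih
      have ha' : a' < d ^ m' := cmlt d M a m' a' hd ha (f ^ i) hc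
      obtain ⟨m'', a'', hc2, _⟩ := vup d hd f M hf m' hm a' ha'
      have hc3 : CM d (f ^ (i + 1)) M a m'' a'' := by
        rw [pow_succ']
        exact cmcomp d M a m' a' m'' a'' hd (f ^ i) f hc hc2
      refine ⟨m'', a'', ?_, hc3⟩
      by_contra hlt
      exact h3 ⟨i + 1, m'', a'', Nat.succ_pos i, not_le.1 hlt, hc3⟩
  by_cases hw : ∀ i : ℕ, 0 < i → ∀ s ∈ cone d M a, (f ^ i) s ∉ cone d M a
  · exact Or.inl (cwand d hd f M a ha hw)
  push Not at hw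
  obtain ⟨i, hi, s, hs, hfs⟩ := hw
  obtain ⟨m', a', hm, hc⟩ := hall i
  have hin : a' / d ^ (m' - M) = a :=
    (cnest d M a m' a' hd hm).1 ⟨(f ^ i) s, hfs, (cmim d M a m' a' hd ha (f ^ i) hc s).1 hs⟩
  rcases Nat.lt_or_ge M m' with hlt | hge
  · refine Or.inl (cstrict d hd f (i : ℤ) (by exact_mod_cast hi.ne') M a m' a' ha ?_ hlt hin)
    rw [zpow_natCast]
    exact hc
  · have hmm : m' = M := le_antisymm hge hm
    subst hmm
    rw [Nat.sub_self, pow_zero, Nat.div_one] at hin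
    subst hin
    refine Or.inr (Or.inl ⟨i, hi, ?_⟩)
    intro t ht
    have h1 := hc t ht
    have hd0 : (0 : ℝ) < (d : ℝ) ^ m' := by
      apply pow_pos
      exact_mod_cast (by omega : 0 < d)
    have h2 : (d : ℝ) ^ m' * ((f ^ i) t : ℝ) = (d : ℝ) ^ m' * (t : ℝ) := by
      rw [h1]
      ring
    exact Subtype.ext (mul_left_cancel₀ hd0.ne' h2)
-- END crun

-- BEGIN csucc
/-- If the cone `(M,a)` is bad (no `f^i`, `i ≥ 1`, is the identity on it) and not `Compress`, then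
for some `i ≥ 1` the image `f^i (cone)` contains a bad cone `(M,a')` and another cone `(M,c)`,
`c ≠ a'`. (`crun`: the image is a cone of level `< M`, the union of `≥ 2` cones of level `M`; if
all are good, with exponents `N_c`, the product of the `N_c` is good for `(M,a)`.) -/
theorem csucc (d : ℕ) (hd : 2 ≤ d) (f : Equiv.Perm X) (M : ℕ)
    (hf : ∀ a < d ^ M, ∃ m' a', CM d f M a m' a') (hC : ¬ Compress d f) (a : ℕ) (ha : a < d ^ M)
    (hb : ¬ ∃ i : ℕ, 0 < i ∧ ∀ s ∈ cone d M a, (f ^ i) s = s) :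
    ∃ i a' c : ℕ, 0 < i ∧ a' < d ^ M ∧ c < d ^ M ∧ c ≠ a' ∧
      (¬ ∃ i : ℕ, 0 < i ∧ ∀ s ∈ cone d M a', (f ^ i) s = s) ∧
      (∀ s ∈ cone d M a', (f ^ i)⁻¹ s ∈ cone d M a) ∧ (∀ s ∈ cone d M c, (f ^ i)⁻¹ s ∈ cone d M a) := by
  rcases crun d hd f M hf a ha with h | h | ⟨i, m', a', hi, hm, hcm⟩
  · exact absurd h hC
  · exact absurd h hb
  · have hj : m' + (M - m') = M := by omega
    have hjpos : 0 < M - m' := by omega
    have hK2 : 2 ≤ d ^ (M - m') := by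
      calc 2 ≤ d := hd
        _ = d ^ 1 := (pow_one d).symm
        _ ≤ d ^ (M - m') := Nat.pow_le_pow_right (by omega) hjpos
    have hKM : d ^ m' * d ^ (M - m') = d ^ M := by rw [← pow_add, hj]
    have ha' : a' < d ^ m' := cmlt d M a m' a' hd ha (f ^ i) hcm
    have hlt : ∀ r < d ^ (M - m'), a' * d ^ (M - m') + r < d ^ M := by
      intro r hr
      rw [← hKM]
      calc a' * d ^ (M - m') + r < a' * d ^ (M - m') + d ^ (M - m') := by omega
        _ = (a' + 1) * d ^ (M - m') := by ring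
        _ ≤ d ^ m' * d ^ (M - m') := Nat.mul_le_mul_right _ ha'
    have hsub : ∀ r < d ^ (M - m'), cone d M (a' * d ^ (M - m') + r) ⊆ cone d m' a' := by
      intro r hr
      apply (cnest d m' a' M (a' * d ^ (M - m') + r) hd (by omega)).2
      rw [Nat.add_comm, Nat.add_mul_div_right _ _ (by omega), Nat.div_eq_of_lt hr, Nat.zero_add]
    have hmem : ∀ r < d ^ (M - m'), ∀ s ∈ cone d M (a' * d ^ (M - m') + r),
        (f ^ i)⁻¹ s ∈ cone d M a := by
      intro r hr s hs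
      rw [cmim d M a m' a' hd ha (f ^ i) hcm]
      have h0 : (f ^ i) ((f ^ i)⁻¹ s) = s := by
        rw [← Equiv.Perm.mul_apply, mul_inv_cancel, Equiv.Perm.one_apply]
      rw [h0]
      exact hsub r hr hs
    have hbad : ∃ r < d ^ (M - m'), ¬ ∃ i : ℕ, 0 < i ∧
        ∀ s ∈ cone d M (a' * d ^ (M - m') + r), (f ^ i) s = s := by
      by_contra hcon
      push Not at hcon
      apply hb
      choose! N hN using hcon
      refine ⟨∏ r ∈ Finset.range (d ^ (M - m')), N r, ?_, ?_⟩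
      · exact Finset.prod_pos (fun r hr => (hN r (Finset.mem_range.mp hr)).1)
      · intro s hs
        have h1 : (f ^ i) s ∈ cone d m' a' := (cmim d M a m' a' hd ha (f ^ i) hcm s).mp hs
        obtain ⟨b, hbM, hbs⟩ := cin d M hd ((f ^ i) s)
        have h2 : b / d ^ (M - m') = a' :=
          (cnest d m' a' M b hd (by omega)).1 ⟨(f ^ i) s, h1, hbs⟩
        have hr : b % d ^ (M - m') < d ^ (M - m') := Nat.mod_lt _ (by omega)
        have h3 : a' * d ^ (M - m') + b % d ^ (M - m') = b := by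
          rw [← h2, Nat.mul_comm]
          exact Nat.div_add_mod b (d ^ (M - m'))
        have h4 : (f ^ N (b % d ^ (M - m'))) ((f ^ i) s) = (f ^ i) s := by
          apply (hN _ hr).2
          rw [h3]
          exact hbs
        obtain ⟨k, hk⟩ : N (b % d ^ (M - m')) ∣ ∏ r ∈ Finset.range (d ^ (M - m')), N r :=
          Finset.dvd_prod_of_mem _ (Finset.mem_range.mpr hr)
        have h5 : (f ^ ∏ r ∈ Finset.range (d ^ (M - m')), N r) ((f ^ i) s) = (f ^ i) s := by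
          rw [hk, pow_mul]
          exact Equiv.Perm.pow_apply_eq_self_of_apply_eq_self h4 k
        apply (f ^ i).injective
        rw [← Equiv.Perm.mul_apply, ← pow_add, Nat.add_comm, pow_add, Equiv.Perm.mul_apply, h5]
    obtain ⟨r, hr, hrb⟩ := hbad
    obtain ⟨r', hr', hne⟩ : ∃ r' < d ^ (M - m'), r' ≠ r := by
      by_cases h0 : r = 0
      · exact ⟨1, by omega, by omega⟩
      · exact ⟨0, by omega, fun h => h0 h.symm⟩
    refine ⟨i, a' * d ^ (M - m') + r, a' * d ^ (M - m') + r', hi, hlt r hr, hlt r' hr', ?_, hrb,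
      hmem r hr, hmem r' hr'⟩
    intro h
    apply hne
    omega
-- END csucc

-- BEGIN ccyc
/-- `csucc` gives a self-map of the finite set of bad cones; a periodic bad cone `(M,a)` yields
`I ≥ 1` with `f^(-I)` mapping `S = f^(i_1)(cone (M,a))` into the cone `(M,a_1) ⊆ S`, which misses
the cone `(M,c) ⊆ S`: `Compress`. So without `Compress` there are no bad cones. -/
theorem ccyc (d : ℕ) (hd : 2 ≤ d) (f : Equiv.Perm X) (M : ℕ)
    (hf : ∀ a < d ^ M, ∃ m' a', CM d f M a m' a') (hC : ¬ Compress d f) (a : ℕ) (ha : a < d ^ M) :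
    ∃ i : ℕ, 0 < i ∧ ∀ s ∈ cone d M a, (f ^ i) s = s := by
  classical
  by_contra hbad
  -- the finite type of bad cones
  let B : Type := {b : Fin (d ^ M) // ¬ ∃ i : ℕ, 0 < i ∧ ∀ s ∈ cone d M b, (f ^ i) s = s}
  have hstep : ∀ b : B, ∃ (N : B) (i c : ℕ), 0 < i ∧ c < d ^ M ∧ c ≠ (N.1 : ℕ) ∧
      (∀ s ∈ cone d M N.1, (f ^ i)⁻¹ s ∈ cone d M b.1) ∧
      (∀ s ∈ cone d M c, (f ^ i)⁻¹ s ∈ cone d M b.1) := by
    intro b
    obtain ⟨i, a', c, hi, ha', hc, hca, hb', h1, h2⟩ := csucc d hd f M hf hC b.1 b.1.2 b.2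
    exact ⟨⟨⟨a', ha'⟩, hb'⟩, i, c, hi, hc, hca, h1, h2⟩
  choose N I C hI hC' hCN h1 h2 using hstep
  have hiter : ∀ (q : ℕ) (x : B), ∃ J : ℕ, ∀ s ∈ cone d M (N^[q] x).1,
      (f ^ J)⁻¹ s ∈ cone d M x.1 := by
    intro q
    induction q with
    | zero => intro x; exact ⟨0, fun s hs => by simpa using hs⟩
    | succ q ih =>
      intro x
      obtain ⟨J, hJ⟩ := ih (N x)
      refine ⟨J + I x, fun s hs => ?_⟩
      have hs' : (f ^ J)⁻¹ s ∈ cone d M (N x).1 := hJ s (by simpa [Function.iterate_succ_apply] using hs)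
      have h3 := h1 x _ hs'
      have e : (f ^ (J + I x))⁻¹ s = (f ^ I x)⁻¹ ((f ^ J)⁻¹ s) := by
        rw [pow_add, mul_inv_rev, Equiv.Perm.mul_apply]
      rw [e]; exact h3
  -- a periodic point
  let a0 : B := ⟨⟨a, ha⟩, hbad⟩
  have hfin : Finite B := inferInstance
  obtain ⟨k, l, hkl, hne⟩ : ∃ k l : ℕ, k < l ∧ N^[k] a0 = N^[l] a0 := by
    obtain ⟨k, l, hne, he⟩ := Finite.exists_ne_map_eq_of_infinite (fun k : ℕ => N^[k] a0)
    rcases Nat.lt_or_gt_of_ne hne with h | h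
    · exact ⟨k, l, h, he⟩
    · exact ⟨l, k, h, he.symm⟩
  set x : B := N^[k] a0 with hx
  have hper : N^[l - k - 1] (N x) = x := by
    rw [← Function.iterate_succ_apply, hx, ← Function.iterate_add_apply]
    rw [show l - k - 1 + 1 + k = l by omega]
    exact hne.symm
  obtain ⟨J, hJ⟩ := hiter (l - k - 1) (N x)
  rw [hper] at hJ
  apply hC
  refine ⟨-((I x + J : ℕ) : ℤ), {s | (f ^ I x)⁻¹ s ∈ cone d M x.1}, M, C x, ?_, hC' x,
    fun s hs => h2 x s hs, fun s hs => ?_⟩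
  · have := hI x
    omega
  have e : (f ^ (-((I x + J : ℕ) : ℤ))) s = (f ^ J)⁻¹ ((f ^ I x)⁻¹ s) := by
    rw [zpow_neg, zpow_natCast, pow_add, mul_inv_rev, Equiv.Perm.mul_apply]
  rw [e]
  have h4 : (f ^ J)⁻¹ ((f ^ I x)⁻¹ s) ∈ cone d M (N x).1 := hJ _ hs
  refine ⟨h1 x _ h4, fun h5 => hCN x ?_⟩
  have h6 := (cnest d M (C x) M (N x).1 hd le_rfl).1 ⟨_, h5, h4⟩
  rw [Nat.sub_self, pow_zero, Nat.div_one] at h6
  exact h6.symm
-- END ccyc

-- BEGIN excomp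
/-- Infinite order elements of `V_d` compress (`ccyc`, product of the exponents, `cin`). -/
theorem excomp (d : ℕ) (hd : 2 ≤ d) (f : Equiv.Perm X) (hf : IsVd d f)
    (hinf : ∀ n : ℕ, 0 < n → f ^ n ≠ 1) : Compress d f := by
  by_contra hC
  obtain ⟨M, hM⟩ := vlev d hd f hf
  have h1 : ∀ a : ℕ, ∃ i : ℕ, 0 < i ∧ (a < d ^ M → ∀ s ∈ cone d M a, (f ^ i) s = s) := by
    intro a
    by_cases ha : a < d ^ M
    · obtain ⟨i, h0, h2⟩ := ccyc d hd f M hM hC a ha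
      exact ⟨i, h0, fun _ => h2⟩
    · exact ⟨1, Nat.one_pos, fun h => absurd h ha⟩
  choose i hi0 hi using h1
  have hpos : 0 < ∏ a ∈ Finset.range (d ^ M), i a := Finset.prod_pos fun a _ => hi0 a
  apply hinf _ hpos
  apply Equiv.ext
  intro s
  obtain ⟨a, ha, hs⟩ := cin d M hd s
  obtain ⟨q, hq⟩ := Finset.dvd_prod_of_mem i (Finset.mem_range.mpr ha)
  rw [hq, pow_mul, Equiv.Perm.one_apply]
  have h3 : ∀ j : ℕ, ((f ^ i a) ^ j) s = s := by
    intro j
    induction j with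
    | zero => rw [pow_zero, Equiv.Perm.one_apply]
    | succ j ih => rw [pow_succ, Equiv.Perm.mul_apply, hi a ha s hs, ih]
  exact h3 q
-- END excomp

-- BEGIN nocm1
/-- Pure dynamics. `y = g X0^N g⁻¹` agrees with `X0^N` on `X0(S)`; if `y X0^k y⁻¹ = X0^m`, `k > 0`,
then `m = k` (apply at `X0^(N+1) t0`, `t0 ∈ J`; `X0^j t0 ≠ t0` for `j ≥ 1`), so `y` commutes with
`X0^k`, so `y = X0^N` on `S`, and at `t ∈ J` this gives `g⁻¹ t = t`. -/
theorem nocm1 {Y : Type} (x0 g : Equiv.Perm Y) (S J : Set Y) (hJS : J ⊆ S)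
    (hS : ∀ s ∈ S, x0 s ∈ S ∧ x0 s ∉ J) (hg : ∀ s, s ∉ J → g s = s) (t0 : Y) (ht0 : t0 ∈ J)
    (hgt : g t0 ≠ t0) (N k : ℕ) (hN : 0 < N) (hk : 0 < k) (m : ℤ)
    (h : (g * x0 ^ N * g⁻¹) * x0 ^ k * (g * x0 ^ N * g⁻¹)⁻¹ = x0 ^ m) : False := by
  have hpow : ∀ j : ℕ, 0 < j → ∀ s ∈ S, (x0 ^ j) s ∈ S ∧ (x0 ^ j) s ∉ J := by
    intro j
    induction j with
    | zero => intro h0; exact absurd h0 (lt_irrefl 0)
    | succ j ih =>
      intro _ s hs
      rcases Nat.eq_zero_or_pos j with rfl | hj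
      · simpa using hS s hs
      · rw [pow_succ', Equiv.Perm.mul_apply]
        exact hS _ (ih hj s hs).1
  have hgi : ∀ s, s ∉ J → g⁻¹ s = s := by
    intro s hs
    rw [Equiv.Perm.inv_eq_iff_eq]
    exact (hg s hs).symm
  set y : Equiv.Perm Y := g * x0 ^ N * g⁻¹ with hy
  have hyapp : ∀ s, y s = g ((x0 ^ N) (g⁻¹ s)) := by
    intro s
    rw [hy, Equiv.Perm.mul_apply, Equiv.Perm.mul_apply]
  have hyS : ∀ s ∈ S, s ∉ J → y s = (x0 ^ N) s := by
    intro s hs hsJ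
    rw [hyapp, hgi s hsJ]
    exact hg _ (hpow N hN s hs).2
  have h1 : y * x0 ^ k = x0 ^ m * y := by
    rw [← h]; group
  -- m = k
  have ht1 := hS t0 (hJS ht0)
  have hmk : m = (k : ℤ) := by
    by_contra hne
    have e1 : (y * x0 ^ k) (x0 t0) = (x0 ^ (N + k)) (x0 t0) := by
      rw [Equiv.Perm.mul_apply, hyS _ (hpow k hk _ ht1.1).1 (hpow k hk _ ht1.1).2, pow_add,
        Equiv.Perm.mul_apply]
    have e2 : (x0 ^ m * y) (x0 t0) = (x0 ^ (m + (N : ℤ))) (x0 t0) := by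
      rw [Equiv.Perm.mul_apply, hyS _ ht1.1 ht1.2, zpow_add, Equiv.Perm.mul_apply, zpow_natCast]
    have e3 : (x0 ^ ((N : ℤ) + k + 1)) t0 = (x0 ^ (m + (N : ℤ) + 1)) t0 := by
      have : (x0 ^ (N + k)) (x0 t0) = (x0 ^ (m + (N : ℤ))) (x0 t0) := by
        rw [← e1, ← e2, h1]
      rw [zpow_add_one, zpow_add_one, Equiv.Perm.mul_apply, Equiv.Perm.mul_apply, ← this]
      congr 1
    have e4 : (x0 ^ ((k : ℤ) - m)) t0 = t0 := by
      have e5 : (x0 ^ (-(m + (N : ℤ) + 1))) ((x0 ^ ((N : ℤ) + k + 1)) t0) = t0 := by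
        rw [e3, ← Equiv.Perm.mul_apply, ← zpow_add,
          show -(m + (N : ℤ) + 1) + (m + (N : ℤ) + 1) = 0 by ring, zpow_zero]
        rfl
      rw [← Equiv.Perm.mul_apply, ← zpow_add] at e5
      rw [show (k : ℤ) - m = -(m + (N : ℤ) + 1) + ((N : ℤ) + k + 1) by ring]
      exact e5
    rcases lt_or_gt_of_ne hne with hlt | hgt'
    · obtain ⟨j, hj⟩ := Int.eq_ofNat_of_zero_le (show 0 ≤ (k : ℤ) - m by omega)
      rw [hj, zpow_natCast] at e4
      have := (hpow j (by omega) t0 (hJS ht0)).2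
      rw [e4] at this
      exact this ht0
    · obtain ⟨j, hj⟩ := Int.eq_ofNat_of_zero_le (show 0 ≤ m - (k : ℤ) by omega)
      have e6 : (x0 ^ (m - (k : ℤ))) t0 = t0 := by
        conv_lhs => rw [← e4]
        rw [← Equiv.Perm.mul_apply, ← zpow_add]
        simp
      rw [hj, zpow_natCast] at e6
      have := (hpow j (by omega) t0 (hJS ht0)).2
      rw [e6] at this
      exact this ht0
  rw [hmk, zpow_natCast] at h1
  have hyall : ∀ s ∈ S, y s = (x0 ^ N) s := by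
    intro s hs
    have e1 : (y * x0 ^ k) s = (x0 ^ N) ((x0 ^ k) s) := by
      rw [Equiv.Perm.mul_apply, hyS _ (hpow k hk s hs).1 (hpow k hk s hs).2]
    rw [h1, Equiv.Perm.mul_apply, ← Equiv.Perm.mul_apply, ← Equiv.Perm.mul_apply, ← pow_add,
      Nat.add_comm N k, pow_add, Equiv.Perm.mul_apply, Equiv.Perm.mul_apply] at e1
    exact (x0 ^ k).injective e1
  have e1 := hyall t0 (hJS ht0)
  rw [hyapp] at e1
  have e2 : (x0 ^ N) (g⁻¹ t0) = (x0 ^ N) t0 := by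
    have := congrArg (g⁻¹ : Equiv.Perm Y) e1
    rw [← Equiv.Perm.mul_apply g⁻¹ g, inv_mul_cancel, hgi _ (hpow N hN t0 (hJS ht0)).2] at this
    exact this
  have e3 : g⁻¹ t0 = t0 := (x0 ^ N).injective e2
  rw [Equiv.Perm.inv_eq_iff_eq] at e3
  exact hgt e3.symm
-- END nocm1

-- BEGIN nocm
private theorem nocm_pow {G : Type} [Group G] (z x : G) (k m : ℤ) (h : z * x ^ k * z⁻¹ = x ^ m)
    (j : ℕ) : z ^ j * x ^ (k ^ j) * (z ^ j)⁻¹ = x ^ (m ^ j) := by
  have hc : ∀ e : ℤ, z * x ^ (k * e) * z⁻¹ = x ^ (m * e) := by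
    intro e
    rw [zpow_mul, zpow_mul, ← h, ← MulAut.conj_apply, ← MulAut.conj_apply, map_zpow]
  induction j with
  | zero => simp
  | succ j ih =>
    have e1 : z ^ (j + 1) * x ^ (k ^ (j + 1)) * (z ^ (j + 1))⁻¹
        = z ^ j * (z * x ^ (k * k ^ j) * z⁻¹) * (z ^ j)⁻¹ := by
      rw [pow_succ z j, pow_succ k j, mul_comm (k ^ j) k]; group
    rw [e1, hc (k ^ j), mul_comm m (k ^ j), zpow_mul, ← MulAut.conj_apply, map_zpow,
      MulAut.conj_apply, ih, ← zpow_mul, ← pow_succ]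

/-- The same for all powers of `x` when `x0 = x^n0`, `n0 ≠ 0`: if `y = g x^N g⁻¹` satisfies
`y x^k y⁻¹ = x^m`, `k, m ≠ 0`, then `y^n0 x^(k') y^(-n0) = x^(m')` with `k' = k^|n0|` etc.
(or exchanged, for `n0 < 0`), take the `n0`-th power, and inverses to make `k' > 0`. -/
theorem nocm {Y : Type} (x g : Equiv.Perm Y) (n0 : ℤ) (hn0 : n0 ≠ 0) (S J : Set Y) (hJS : J ⊆ S)
    (hS : ∀ s ∈ S, (x ^ n0) s ∈ S ∧ (x ^ n0) s ∉ J) (hg : ∀ s, s ∉ J → g s = s) (t0 : Y)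
    (ht0 : t0 ∈ J) (hgt : g t0 ≠ t0) (N : ℕ) (hN : 0 < N) (k m : ℤ) (hk : k ≠ 0) (hm : m ≠ 0)
    (h : (g * x ^ N * g⁻¹) * x ^ k * (g * x ^ N * g⁻¹)⁻¹ = x ^ m) : False := by
  -- the key: two nonzero integers with `z x0^p z⁻¹ = x0^q`, `z = g x0^N g⁻¹`
  have key : ∃ p q : ℤ, p ≠ 0 ∧ (g * (x ^ n0) ^ N * g⁻¹) * (x ^ n0) ^ p * (g * (x ^ n0) ^ N * g⁻¹)⁻¹
      = (x ^ n0) ^ q := by
    rcases lt_or_gt_of_ne hn0 with hneg | hpos
    · obtain ⟨j, hj⟩ := Int.eq_ofNat_of_zero_le (show 0 ≤ -n0 by omega)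
      have hn : n0 = -(j : ℤ) := by omega
      have h' : (g * x ^ N * g⁻¹)⁻¹ * x ^ m * (g * x ^ N * g⁻¹)⁻¹⁻¹ = x ^ k := by
        rw [← h]; group
      have h2 := nocm_pow _ _ _ _ h' j
      have e1 : ((g * x ^ N * g⁻¹)⁻¹) ^ j = g * (x ^ n0) ^ N * g⁻¹ := by
        rw [← MulAut.conj_apply, ← map_inv, ← map_pow, MulAut.conj_apply]
        congr 2
        rw [hn, ← zpow_natCast (x ^ (-(j : ℤ))) N, ← zpow_mul, ← zpow_natCast (x ^ N)⁻¹ j,
          ← zpow_natCast x N, ← zpow_neg, ← zpow_mul]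
        congr 1; ring
      rw [e1] at h2
      refine ⟨m ^ j, k ^ j, pow_ne_zero _ hm, ?_⟩
      rw [← zpow_mul x n0 (m ^ j), ← zpow_mul x n0 (k ^ j), mul_comm n0, mul_comm n0,
        zpow_mul x (m ^ j) n0, zpow_mul x (k ^ j) n0, ← h2, conj_zpow]
    · obtain ⟨j, hj⟩ := Int.eq_ofNat_of_zero_le (show 0 ≤ n0 by omega)
      have h2 := nocm_pow _ _ _ _ h j
      have e1 : (g * x ^ N * g⁻¹) ^ j = g * (x ^ n0) ^ N * g⁻¹ := by
        rw [← MulAut.conj_apply, ← map_pow, MulAut.conj_apply]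
        congr 2
        rw [hj, zpow_natCast, ← pow_mul, ← pow_mul, mul_comm]
      rw [e1] at h2
      refine ⟨k ^ j, m ^ j, pow_ne_zero _ hk, ?_⟩
      rw [← zpow_mul x n0 (k ^ j), ← zpow_mul x n0 (m ^ j), mul_comm n0, mul_comm n0,
        zpow_mul x (m ^ j) n0, zpow_mul x (k ^ j) n0, ← h2, conj_zpow]
  obtain ⟨p, q, hp, hpq⟩ := key
  rcases lt_or_gt_of_ne hp with hneg | hpos
  · obtain ⟨j, hj⟩ := Int.eq_ofNat_of_zero_le (show 0 ≤ -p by omega)
    refine nocm1 (x ^ n0) g S J hJS hS hg t0 ht0 hgt N j hN (by omega) (-q) ?_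
    rw [← zpow_natCast (x ^ n0) j, ← hj, zpow_neg, zpow_neg, ← hpq]
    group
  · obtain ⟨j, hj⟩ := Int.eq_ofNat_of_zero_le (show 0 ≤ p by omega)
    refine nocm1 (x ^ n0) g S J hJS hS hg t0 ht0 hgt N j hN (by omega) q ?_
    rw [← hpq, hj, zpow_natCast]
-- END nocm

-- BEGIN vno
/-- `V_d` version: `excomp`, `expush`, `nocm`. -/
theorem vno (d : ℕ) (hd : 2 ≤ d) (x : Equiv.Perm X) (hx : IsVd d x)
    (hinf : ∀ n : ℕ, 0 < n → x ^ n ≠ 1) : ∃ g, IsFd d g ∧ ∀ N : ℕ, 0 < N → ∀ k m : ℤ, k ≠ 0 →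
      m ≠ 0 → (g * x ^ N * g⁻¹) * x ^ k * (g * x ^ N * g⁻¹)⁻¹ ≠ x ^ m := by
  obtain ⟨n, S, m, b, hn, hb, hJS, hS⟩ := excomp d hd x hx hinf
  obtain ⟨g, hg⟩ := expush d m b hd hb
  obtain ⟨t0, ht0, ht0'⟩ := cpt d m b hd hb (1 / 2) (by norm_num) (by norm_num)
  have hgt : g t0 ≠ t0 := by
    have := (hg.up t0 (by rw [ht0']; linarith) (by rw [ht0']; linarith)).1
    exact this.ne'
  refine ⟨g, hg.fd, fun N hN k m' hk hm' h => ?_⟩
  exact nocm x g n hn S (cone d m b) hJS hS hg.off t0 ht0 hgt N hN k m' hk hm' h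
-- END vno

end CarT
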