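import Pool.Agent.CarT.Push

/-! Circle homeomorphisms: torsion elements of `T_d` (rows). -/

open Filter Topology

namespace CarT

-- BEGIN tlift
private theorem tlift_int {g : ℝ → ℝ} {a b : ℝ} (hab : a ≤ b) (hg : ContinuousOn g (Set.Icc a b))
    (hi : ∀ x ∈ Set.Icc a b, ∃ n : ℤ, g x = n) : g a = g b := by
  by_contra hne
  obtain ⟨n, hn⟩ := hi a (Set.left_mem_Icc.2 hab)
  obtain ⟨m, hm⟩ := hi b (Set.right_mem_Icc.2 hab)
  have hnm : n ≠ m := by
    rintro rfl
    exact hne (hn.trans hm.symm)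
  have hsub := intermediate_value_uIcc (f := g) (a := a) (b := b) (by rwa [Set.uIcc_of_le hab])
  have main : ∀ k : ℤ, (k : ℝ) + 1 / 2 ∈ Set.uIcc (g a) (g b) → False := by
    intro k hk
    obtain ⟨x, hx, hx2⟩ := hsub hk
    rw [Set.uIcc_of_le hab] at hx
    obtain ⟨j, hj⟩ := hi x hx
    have h3 : (2 * j : ℤ) = 2 * k + 1 := by
      have : (2 * j : ℝ) = 2 * k + 1 := by rw [← hj, hx2]; ring
      exact_mod_cast this
    omega
  rcases lt_or_gt_of_ne hnm with h | h
  · have h1 : (n : ℝ) + 1 ≤ m := by exact_mod_cast h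
    refine main n ?_
    rw [hn, hm, Set.uIcc_of_le (by linarith)]
    exact ⟨by linarith, by linarith⟩
  · have h1 : (m : ℝ) + 1 ≤ n := by exact_mod_cast h
    refine main m ?_
    rw [hn, hm, Set.uIcc_of_ge (by linarith)]
    exact ⟨by linarith, by linarith⟩

/-- the first piece of an element of `V_d` -/
private theorem tlift_first {d : ℕ} {f : Equiv.Perm X} (hf : IsVd d f) :
    ∃ (e : ℝ) (k : ℤ) (b : ℝ), 0 < e ∧ e ≤ 1 ∧
      ∀ s : X, (s : ℝ) < e → (f s : ℝ) = (d : ℝ) ^ k * s + b := by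
  obtain ⟨n, t, h0, h1, hmono, -, hpc⟩ := hf
  have hn : 0 < n := by
    rcases Nat.eq_zero_or_pos n with h | h
    · subst h
      rw [h0] at h1
      norm_num at h1
    · exact h
  obtain ⟨k, b, -, hkb⟩ := hpc 0 hn
  have hle : ∀ j, 1 ≤ j → j ≤ n → t 1 ≤ t j := by
    intro j hj
    induction j, hj using Nat.le_induction with
    | base => intro _; exact le_rfl
    | succ i hi ih =>
      intro hin
      exact (ih (by omega)).trans (hmono i (by omega)).le
  refine ⟨t 1, k, b, by rw [← h0]; exact hmono 0 hn, by rw [← h1]; exact hle n hn le_rfl, ?_⟩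
  intro s hs
  exact hkb s (by rw [h0]; exact s.2.1) hs

/-- Lifts. `f ∈ T_d`, `a = f⁻¹(0)`: on `[0,1)` put `C(s) = f(s)` for `s < a` or `a = 0`, and
`C(s) = f(s) + 1` for `s ≥ a > 0`; extend by `C(x+1) = C(x) + 1`. Continuity at `s ≠ a` from the
continuity on the circle; at `a`: `f` is affine increasing on some `[a, a+ε)` and on some
`[a-ε, a)`, so the left limit of `f` at `a` is `1`; at `0`: the left limit of `f` at `1` is `f(0)`.
Strictly increasing: continuous and locally increasing. -/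
theorem tlift (d : ℕ) (hd : 2 ≤ d) (f : Equiv.Perm X) (hf : IsTd d f) : ∃ C : ℝ → ℝ,
    Continuous C ∧ StrictMono C ∧ (∀ x, C (x + 1) = C x + 1) ∧
      (∀ s : X, C s = f s ∨ C s = f s + 1) ∧ ∀ s : X, (s : ℝ) = 0 → C s = f s := by
  obtain ⟨hV, h, hh⟩ := hf
  obtain ⟨e, k, b, he0, he1, hkb⟩ := tlift_first hV
  have hd0 : (0 : ℝ) < d := by
    have : 0 < d := by omega
    exact_mod_cast this
  obtain ⟨c0, hc0⟩ : ∃ c0 : X, (c0 : ℝ) = 0 := ⟨⟨0, le_rfl, one_pos⟩, rfl⟩
  obtain ⟨F, ⟨hF0, hFp⟩, -⟩ := (AddCircle.isCoveringMap_coe (1 : ℝ)).existsUnique_continuousMap_lifts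
    (⟨fun x : ℝ => h (x : AddCircle (1 : ℝ)),
      h.continuous.comp (AddCircle.continuous_mk' (1 : ℝ))⟩ : C(ℝ, AddCircle (1 : ℝ)))
    0 (f c0 : ℝ) (by
      show ((f c0 : ℝ) : AddCircle (1 : ℝ)) = h ((0 : ℝ) : AddCircle (1 : ℝ))
      rw [← hh c0, hc0])
  have hF : ∀ x, ((F x : ℝ) : AddCircle (1 : ℝ)) = h (x : AddCircle (1 : ℝ)) :=
    fun x => congrFun hFp x
  have hFc : Continuous F := F.continuous
  have key : ∀ x y : ℝ, ((x : AddCircle (1 : ℝ)) = (y : AddCircle (1 : ℝ))) ↔
      ∃ n : ℤ, x = y + n := by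
    intro x y
    rw [← sub_eq_zero, ← AddCircle.coe_sub, AddCircle.coe_eq_zero_iff]
    constructor
    · rintro ⟨n, hn⟩
      rw [zsmul_eq_mul, mul_one] at hn
      exact ⟨n, by linarith⟩
    · rintro ⟨n, hn⟩
      exact ⟨n, by rw [zsmul_eq_mul, mul_one]; linarith⟩
  have inj : ∀ x y, (∃ n : ℤ, F x = F y + n) → ∃ n : ℤ, x = y + n := by
    intro x y hxy
    rw [← key] at hxy ⊢
    rw [hF, hF] at hxy
    exact h.injective hxy
  have per : ∀ x, ∃ n : ℤ, F (x + 1) = F x + n := by
    intro x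
    rw [← key, hF, hF]
    congr 1
    rw [key]
    exact ⟨1, by push_cast; ring⟩
  have hfs : ∀ s : X, ∃ n : ℤ, F s = f s + n := by
    intro s
    rw [← key, hF, hh]
  have hInj : Set.InjOn F (Set.Ico 0 1) := by
    intro x hx y hy hxy
    obtain ⟨n, hn⟩ := inj x y ⟨0, by rw [hxy]; push_cast; ring⟩
    have h1 : (n : ℝ) < 1 := by linarith [hx.2, hy.1]
    have h2 : (-1 : ℝ) < n := by linarith [hx.1, hy.2]
    have h3 : n < 1 := by exact_mod_cast h1
    have h4 : -1 < n := by exact_mod_cast h2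
    have h5 : n = 0 := by omega
    rw [hn, h5]
    push_cast
    ring
  -- increasing at the beginning
  have hs1 : F 0 < F (e / 2) := by
    have hcst := tlift_int (g := fun x => F x - ((d : ℝ) ^ k * x + b)) (a := 0) (b := e / 2)
      (by linarith) (by
        apply Continuous.continuousOn
        exact hFc.sub ((continuous_const.mul continuous_id).add continuous_const)) (by
        intro x hx
        obtain ⟨n, hn⟩ := hfs ⟨x, hx.1, by linarith [hx.2]⟩
        refine ⟨n, ?_⟩
        have h2 := hkb ⟨x, hx.1, by linarith [hx.2]⟩ (by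
          show x < e
          linarith [hx.2])
        show F x - ((d : ℝ) ^ k * x + b) = n
        have hn' : F x = (f ⟨x, hx.1, by linarith [hx.2]⟩ : ℝ) + n := hn
        have h2' : (f ⟨x, hx.1, by linarith [hx.2]⟩ : ℝ) = (d : ℝ) ^ k * x + b := h2
        rw [hn', h2']
        ring)
    have hcst' : F 0 - ((d : ℝ) ^ k * 0 + b) = F (e / 2) - ((d : ℝ) ^ k * (e / 2) + b) := hcst
    have : 0 < (d : ℝ) ^ k * (e / 2) := mul_pos (zpow_pos hd0 k) (by linarith)
    linarith
  have hmonoIco : StrictMonoOn F (Set.Ico 0 1) := by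
    intro x hx y hy hxy
    have hr : max y (e / 2) < 1 := max_lt hy.2 (by linarith)
    have hr0 : 0 ≤ max y (e / 2) := le_max_of_le_right (by linarith)
    have hI : Set.InjOn F (Set.Icc 0 (max y (e / 2))) :=
      hInj.mono (Set.Icc_subset_Ico_right hr)
    rcases ContinuousOn.strictMonoOn_of_injOn_Icc' hr0 hFc.continuousOn hI with hm | hm
    · exact hm ⟨hx.1, hxy.le.trans (le_max_left _ _)⟩ ⟨hy.1, le_max_left _ _⟩ hxy
    · exfalso
      have := hm (show (0 : ℝ) ∈ Set.Icc 0 (max y (e / 2)) from ⟨le_rfl, hr0⟩)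
        (show e / 2 ∈ Set.Icc 0 (max y (e / 2)) from ⟨by linarith, le_max_right _ _⟩)
        (by linarith : (0 : ℝ) < e / 2)
      linarith
  have hlt1 : ∀ x ∈ Set.Ico (0 : ℝ) 1, F x < F 1 := by
    intro x hx
    have hx1 := hx.2
    have hx0 := hx.1
    have hmid : (x + 1) / 2 ∈ Set.Ico (0 : ℝ) 1 := ⟨by linarith, by linarith⟩
    refine lt_of_lt_of_le (hmonoIco hx hmid (by linarith)) ?_
    have hlim : Filter.Tendsto F (nhdsWithin (1 : ℝ) (Set.Iio 1)) (nhds (F 1)) :=
      (hFc.continuousWithinAt (s := Set.Iio 1) (x := 1)).tendsto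
    refine ge_of_tendsto hlim ?_
    filter_upwards [Ioo_mem_nhdsLT (show (x + 1) / 2 < 1 by linarith)] with z hz
    exact (hmonoIco hmid ⟨by linarith [hz.1, hmid.1], hz.2⟩ hz.1).le
  -- the degree is one
  have hper0 : F 1 = F 0 + 1 := by
    obtain ⟨n, hn⟩ := per 0
    rw [zero_add] at hn
    have h1 := hlt1 0 ⟨le_rfl, one_pos⟩
    have h2 : (0 : ℝ) < n := by linarith
    have h3 : 0 < n := by exact_mod_cast h2
    have h4 : n ≤ 1 := by
      by_contra hcon
      have h5 : 2 ≤ n := by omega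
      have h6 : (2 : ℝ) ≤ n := by exact_mod_cast h5
      obtain ⟨x, hx, hx2⟩ := intermediate_value_Ioo (zero_le_one' ℝ) hFc.continuousOn
        (show F 0 + 1 ∈ Set.Ioo (F 0) (F 1) from ⟨by linarith, by linarith⟩)
      obtain ⟨m, hm⟩ := inj x 0 ⟨1, by rw [hx2]; push_cast; ring⟩
      have h7 : (0 : ℝ) < m := by linarith [hx.1]
      have h8 : (m : ℝ) < 1 := by linarith [hx.2]
      have h9 : 0 < m := by exact_mod_cast h7
      have h10 : m < 1 := by exact_mod_cast h8
      omega
    have h5 : n = 1 := by omega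
    rw [hn, h5]
    push_cast
    ring
  have hper : ∀ x, F (x + 1) = F x + 1 := by
    have hc : ∀ x y, x ≤ y → F (x + 1) - F x = F (y + 1) - F y := by
      intro x y hxy
      refine tlift_int (g := fun z => F (z + 1) - F z) hxy ?_ ?_
      · apply Continuous.continuousOn
        exact (hFc.comp (continuous_id.add continuous_const)).sub hFc
      · intro z _
        obtain ⟨n, hn⟩ := per z
        exact ⟨n, by show F (z + 1) - F z = n; rw [hn]; ring⟩
    intro x
    rcases le_total x 0 with hx | hx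
    · have := hc x 0 hx
      rw [zero_add] at this
      linarith
    · have := hc 0 x hx
      rw [zero_add] at this
      linarith
  have hperZ : ∀ (n : ℕ) x, F (x + n) = F x + n := by
    intro n
    induction n with
    | zero => intro x; push_cast; rw [add_zero, add_zero]
    | succ n ih =>
      intro x
      have h1 : x + ((n + 1 : ℕ) : ℝ) = (x + n) + 1 := by push_cast; ring
      rw [h1, hper, ih]
      push_cast
      ring
  have hperI : ∀ (n : ℤ) x, F (x + n) = F x + n := by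
    intro n x
    rcases le_total 0 n with hn | hn
    · obtain ⟨m, rfl⟩ := Int.eq_ofNat_of_zero_le hn
      have := hperZ m x
      exact_mod_cast this
    · obtain ⟨m, hm⟩ := Int.eq_ofNat_of_zero_le (neg_nonneg.2 hn)
      have hm' : (n : ℝ) = -(m : ℝ) := by
        have : n = -(m : ℤ) := by omega
        rw [this]
        push_cast
        rfl
      have := hperZ m (x + n)
      rw [hm'] at this ⊢
      rw [show x + -(m : ℝ) + m = x by ring] at this
      linarith
  have hfl : ∀ x, F x = F (Int.fract x) + ⌊x⌋ := by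
    intro x
    rw [← hperI, Int.fract_add_floor]
  have hfr : ∀ x : ℝ, Int.fract x ∈ Set.Ico (0 : ℝ) 1 := fun x =>
    ⟨Int.fract_nonneg x, Int.fract_lt_one x⟩
  have hge0 : ∀ x ∈ Set.Ico (0 : ℝ) 1, F 0 ≤ F x := by
    intro x hx
    exact hmonoIco.monotoneOn ⟨le_rfl, one_pos⟩ hx hx.1
  have hmono : StrictMono F := by
    intro x y hxy
    have hle : ⌊x⌋ ≤ ⌊y⌋ := Int.floor_mono hxy.le
    rw [hfl x, hfl y]
    rcases hle.lt_or_eq with hlt | heq
    · have h1 : ((⌊x⌋ : ℤ) : ℝ) + 1 ≤ ⌊y⌋ := by exact_mod_cast hlt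
      have h2 := hlt1 _ (hfr x)
      have h3 := hge0 _ (hfr y)
      linarith
    · rw [heq]
      have h1 : Int.fract x < Int.fract y := by
        have h2 := Int.fract_add_floor x
        have h3 := Int.fract_add_floor y
        rw [heq] at h2
        linarith
      have := hmonoIco (hfr x) (hfr y) h1
      linarith
  refine ⟨F, hFc, hmono, hper, ?_, ?_⟩
  · intro s
    obtain ⟨n, hn⟩ := hfs s
    have h1 := hge0 s s.2
    have h2 := hlt1 s s.2
    have h3 := (f s).2.1
    have h4 := (f s).2.2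
    have h5 := (f c0).2.1
    have h6 := (f c0).2.2
    have h7 : (-1 : ℝ) < n := by linarith
    have h8 : (n : ℝ) < 2 := by linarith
    have h9 : -1 < n := by exact_mod_cast h7
    have h10 : n < 2 := by exact_mod_cast h8
    have h11 : n = 0 ∨ n = 1 := by omega
    rcases h11 with h | h
    · left
      rw [hn, h]
      push_cast
      ring
    · right
      rw [hn, h]
      push_cast
      ring
  · intro s hs
    have : s = c0 := Subtype.ext (hs.trans hc0.symm)
    rw [this, hc0]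
    exact hF0
-- END tlift

-- BEGIN tfree
/-- A torsion element `≠ 1` of `T_d` has no fixed point: if `f s0 = s0`, a lift `D = C - j` fixes
`s0`, maps `[s0, s0+1)` increasingly into itself, and `D^N = id` there, so `D = id`. -/
theorem tfree (d : ℕ) (hd : 2 ≤ d) (f : Equiv.Perm X) (hf : IsTd d f) (N : ℕ) (hN : 0 < N)
    (hfN : f ^ N = 1) (h1 : f ≠ 1) (s : X) : f s ≠ s := by
  intro hs
  apply h1
  obtain ⟨C, -, hmono, hC1, hC, -⟩ := tlift d hd f hf
  obtain ⟨j, hj⟩ : ∃ j : ℤ, C s = s + j := by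
    rcases hC s with h | h
    · exact ⟨0, by rw [h, hs]; simp⟩
    · exact ⟨1, by rw [h, hs]; simp⟩
  let L : CircleDeg1Lift := ⟨⟨C, hmono.monotone⟩, hC1⟩
  have hint : ∀ (x : ℝ) (k : ℤ), C (x + k) = C x + k := fun x k => L.map_add_int x k
  have hDmono : StrictMono (fun x : ℝ => C x - j) := by
    intro x y hxy
    have := hmono hxy
    simp only
    linarith
  have hDint : ∀ (x : ℝ) (k : ℤ), (fun x : ℝ => C x - j) (x + k) = (fun x : ℝ => C x - j) x + k := by
    intro x k
    simp only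
    rw [hint]
    ring
  have hDf : ∀ t : X, ∃ k : ℤ, (fun x : ℝ => C x - j) (t : ℝ) = f t + k := by
    intro t
    rcases hC t with h | h
    · refine ⟨-j, ?_⟩
      simp only
      rw [h]; push_cast; ring
    · refine ⟨1 - j, ?_⟩
      simp only
      rw [h]; push_cast; ring
  have hDs : (fun x : ℝ => C x - j) (s : ℝ) = s := by
    simp only
    rw [hj]; ring
  clear_value L
  generalize (fun x : ℝ => C x - j) = D at hDmono hDint hDf hDs
  have hit : ∀ n : ℕ, ∀ t : X, ∀ k : ℤ, ∃ l : ℤ, D^[n] ((t : ℝ) + k) = ((f ^ n) t : ℝ) + l := by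
    intro n
    induction n with
    | zero => intro t k; exact ⟨k, by simp⟩
    | succ n ih =>
      intro t k
      obtain ⟨k', hk'⟩ := hDf t
      obtain ⟨l, hl⟩ := ih (f t) (k' + k)
      refine ⟨l, ?_⟩
      rw [Function.iterate_succ_apply, hDint, hk', pow_succ]
      rw [show ((f ^ n * f) t) = (f ^ n) (f t) from rfl, ← hl]
      congr 1
      push_cast
      ring
  have hDs1 : ∀ n : ℕ, D^[n] (s : ℝ) = s := by
    intro n
    exact Function.iterate_fixed hDs n
  have hDs2 : ∀ n : ℕ, D^[n] ((s : ℝ) + 1) = s + 1 := by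
    intro n
    have : D ((s : ℝ) + 1) = s + 1 := by
      have h2 := hDint s 1
      rw [hDs] at h2
      simpa using h2
    exact Function.iterate_fixed this n
  have hmonoit : StrictMono (D^[N]) := hDmono.iterate N
  -- integer difference forces a fixed point on the fundamental interval
  have hfixD : ∀ (t : X) (k : ℤ), (s : ℝ) ≤ t + k → (t : ℝ) + k < s + 1 →
      D ((t : ℝ) + k) = t + k := by
    intro t k h2 h3
    obtain ⟨l, hl⟩ := hit N t k
    rw [hfN] at hl
    have h4 : (s : ℝ) ≤ D^[N] ((t : ℝ) + k) := by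
      have := hmonoit.monotone h2
      rwa [hDs1] at this
    have h5 : D^[N] ((t : ℝ) + k) < s + 1 := by
      have := hmonoit h3
      rwa [hDs2] at this
    have h6 : D^[N] ((t : ℝ) + k) = t + k := by
      rw [hl] at h4 h5 ⊢
      have e : (((1 : Equiv.Perm X) t : X) : ℝ) = t := rfl
      rw [e] at h4 h5 ⊢
      have hlk : l = k := by
        have i1 : (l : ℝ) < k + 1 := by linarith
        have i2 : (k : ℝ) < l + 1 := by linarith
        have j1 : l < k + 1 := by exact_mod_cast i1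
        have j2 : k < l + 1 := by exact_mod_cast i2
        omega
      rw [hlk]
    rcases lt_trichotomy ((t : ℝ) + k) (D ((t : ℝ) + k)) with h7 | h7 | h7
    · exfalso
      have h8 := hDmono.strictMono_iterate_of_lt_map h7 hN
      simp only [Function.iterate_zero, id] at h8
      rw [h6] at h8
      exact lt_irrefl _ h8
    · exact h7.symm
    · exfalso
      have h8 := hDmono.strictAnti_iterate_of_map_lt h7 hN
      simp only [Function.iterate_zero, id] at h8
      rw [h6] at h8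
      exact lt_irrefl _ h8
  have hDt : ∀ t : X, D (t : ℝ) = t := by
    intro t
    have t0 : (0 : ℝ) ≤ t := t.2.1
    have t1 : (t : ℝ) < 1 := t.2.2
    have s0 : (0 : ℝ) ≤ s := s.2.1
    have s1 : (s : ℝ) < 1 := s.2.2
    by_cases hts : (s : ℝ) ≤ t
    · have := hfixD t 0 (by simpa using hts) (by push_cast; linarith)
      simpa using this
    · push Not at hts
      have h2 := hfixD t 1 (by push_cast; linarith) (by push_cast; linarith)
      have h3 := hDint t 1
      rw [h2] at h3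
      linarith
  ext t
  obtain ⟨k, hk⟩ := hDf t
  rw [hDt] at hk
  have t0 : (0 : ℝ) ≤ t := t.2.1
  have t1 : (t : ℝ) < 1 := t.2.2
  have u0 : (0 : ℝ) ≤ f t := (f t).2.1
  have u1 : (f t : ℝ) < 1 := (f t).2.2
  have hk0 : k = 0 := by
    have i1 : (k : ℝ) < 1 := by linarith
    have i2 : (-1 : ℝ) < k := by linarith
    have j1 : k < 1 := by exact_mod_cast i1
    have j2 : -1 < k := by exact_mod_cast i2
    omega
  rw [hk0] at hk
  simp at hk
  rw [← hk]
  rfl
-- END tfree

-- BEGIN tcan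
/-- For `f ∈ T_d` without fixed points the lift of `tlift` moves all points by an amount in
`(0,1)` (`C(y) - y` is continuous, periodic, never an integer, and `C(0) = f(0) ∈ (0,1)`). -/
theorem tcan (d : ℕ) (hd : 2 ≤ d) (f : Equiv.Perm X) (hf : IsTd d f) (hfix : ∀ s, f s ≠ s) :
    ∃ C : ℝ → ℝ, StrictMono C ∧ (∀ x, C (x + 1) = C x + 1) ∧ (∀ y, y < C y ∧ C y < y + 1) ∧
      (∀ s : X, C s = f s ∨ C s = f s + 1) ∧ ∀ s : X, (s : ℝ) = 0 → C s = f s := by
  obtain ⟨C, hC, hmono, hper, hlift, h0⟩ := tlift d hd f hf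
  refine ⟨C, hmono, hper, ?_, hlift, h0⟩
  have hDper : Function.Periodic (fun y => C y - y) 1 := by
    intro x
    show C (x + 1) - (x + 1) = C x - x
    rw [hper]
    ring
  have hDcont : Continuous (fun y => C y - y) := hC.sub continuous_id
  have hne : ∀ s t : X, s ≠ t → (s : ℝ) ≠ (t : ℝ) := fun s t h h' => h (Subtype.ext h')
  have hX : ∀ s : X, C s - s ≠ 0 ∧ C s - s ≠ 1 := by
    intro s
    have h1 := (f s).2.1
    have h2 := (f s).2.2
    have h3 := s.2.1
    have h4 := s.2.2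
    have h5 := hne _ _ (hfix s)
    rcases hlift s with h | h
    · rw [h]
      refine ⟨sub_ne_zero.2 h5, ?_⟩
      intro h6
      linarith
    · rw [h]
      refine ⟨?_, ?_⟩
      · intro h6
        linarith
      · intro h6
        apply h5
        linarith
  have hall : ∀ y : ℝ, C y - y ≠ 0 ∧ C y - y ≠ 1 := by
    intro y
    have h1 : (fun y => C y - y) (y - ⌊y⌋ • (1 : ℝ)) = (fun y => C y - y) y := hDper.sub_zsmul_eq _
    have h2 : y - ⌊y⌋ • (1 : ℝ) = Int.fract y := by
      rw [zsmul_one]; rfl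
    rw [h2] at h1
    have h3 := hX ⟨Int.fract y, Int.fract_nonneg y, Int.fract_lt_one y⟩
    have h4 : C (Int.fract y) - Int.fract y = C y - y := h1
    rw [← h4]
    exact h3
  have hz : 0 < C 0 - 0 ∧ C 0 - 0 < 1 := by
    let z : X := ⟨0, le_rfl, one_pos⟩
    have h1 : C 0 = f z := h0 z rfl
    have h2 := (f z).2.1
    have h3 := (f z).2.2
    have h4 : (f z : ℝ) ≠ 0 := hne _ z (hfix z)
    rw [h1, sub_zero]
    exact ⟨lt_of_le_of_ne h2 (Ne.symm h4), h3⟩
  intro y
  constructor
  · by_contra hcon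
    have h1 : (0 : ℝ) ∈ Set.range (fun y => C y - y) :=
      mem_range_of_exists_le_of_exists_ge hDcont ⟨y, by show C y - y ≤ 0; linarith⟩ ⟨0, hz.1.le⟩
    obtain ⟨x, hx⟩ := h1
    exact (hall x).1 hx
  · by_contra hcon
    have h1 : (1 : ℝ) ∈ Set.range (fun y => C y - y) :=
      mem_range_of_exists_le_of_exists_ge hDcont ⟨0, hz.2.le⟩ ⟨y, by show 1 ≤ C y - y; linarith⟩
    obtain ⟨x, hx⟩ := h1
    exact (hall x).2 hx
-- END tcan

/-- `c` moves some point of each of the first three cones of level `2` forward inside the cone. -/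
def Fw (d : ℕ) (c : Equiv.Perm X) : Prop :=
  ∀ k < 3, ∃ s ∈ cone d 2 k, c s ∈ cone d 2 k ∧ s < c s

-- BEGIN tdir
private theorem tdir_lt {d k l : ℕ} (hd : 2 ≤ d) (hkl : k < l) {s t : X} (hs : s ∈ cone d 2 k) (ht : t ∈ cone d 2 l) :
    (s : ℝ) < t := by
  have h1 := hs.2
  have h2 := ht.1
  have h3 : (k : ℝ) + 1 ≤ l := by exact_mod_cast hkl
  have h4 : (0 : ℝ) < (d : ℝ) ^ 2 := by positivity
  exact lt_of_mul_lt_mul_left (lt_of_lt_of_le h1 (h3.trans h2)) h4.le

private theorem tdir_mix {d : ℕ} (hd : 2 ≤ d) {c : Equiv.Perm X} {C : ℝ → ℝ} (hmono : StrictMono C)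
    (hper : ∀ x, C (x + 1) = C x + 1) (hb : ∀ y, y < C y ∧ C y < y + 1) (hlift : ∀ s : X, C s = c s ∨ C s = c s + 1)
    {k l : ℕ} (hkl : k < l) {s t : X} (hs : s ∈ cone d 2 k) (hcs : c s ∈ cone d 2 k) (ht : t ∈ cone d 2 l)
    (hct : c t ∈ cone d 2 l) : s < c s ↔ t < c t := by
  have hfw : ∀ u : X, u < c u → C u = c u := by
    intro u hu
    have hu' : (u : ℝ) < c u := hu
    rcases hlift u with h | h
    · exact h
    · have := (hb u).2
      linarith
  have hbw : ∀ u : X, ¬ u < c u → C u = c u + 1 := by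
    intro u hu
    have hu' : (c u : ℝ) ≤ u := not_lt.1 hu
    rcases hlift u with h | h
    · have := (hb u).1
      linarith
    · exact h
  have hst : (s : ℝ) < t := tdir_lt hd hkl hs ht
  have hcst : (c s : ℝ) < c t := tdir_lt hd hkl hcs hct
  have h1 : C s < C t := hmono hst
  have h2 : C t < C s + 1 := by
    rw [← hper]
    apply hmono
    have := s.2.1
    have := t.2.2
    linarith
  constructor
  · intro h
    by_contra h'
    rw [hfw s h, hbw t h'] at h2
    linarith
  · intro h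
    by_contra h'
    rw [hbw s h', hfw t h] at h1
    have := (c t).2.2
    have := (c s).2.1
    linarith

/-- Uniform direction. `C` from `tcan`, `s_k, c s_k ∈ J_k = cone d 2 k`. If `c s_k > s_k` then
`C s_k = c s_k`, if `c s_k < s_k` then `C s_k = c s_k + 1`. Mixed directions for `k < l` contradict
`C s_k < C s_l < C s_k + 1` (points of `J_k` are `<` points of `J_l`). -/
theorem tdir (d : ℕ) (hd : 2 ≤ d) (c : Equiv.Perm X) (hc : IsTd d c) (hfix : ∀ s, c s ≠ s)
    (h : ∀ k < 3, ∃ s ∈ cone d 2 k, c s ∈ cone d 2 k) : Fw d c ∨ Fw d c⁻¹ := by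
  obtain ⟨C, hmono, hper, hb, hlift, -⟩ := tcan d hd c hc hfix
  obtain ⟨s0, hs0, hc0⟩ := h 0 (by norm_num)
  obtain ⟨s1, hs1, hc1⟩ := h 1 (by norm_num)
  obtain ⟨s2, hs2, hc2⟩ := h 2 (by norm_num)
  have h01 := tdir_mix hd hmono hper hb hlift (k := 0) (l := 1) (by norm_num) hs0 hc0 hs1 hc1
  have h02 := tdir_mix hd hmono hper hb hlift (k := 0) (l := 2) (by norm_num) hs0 hc0 hs2 hc2
  by_cases h0 : s0 < c s0
  · left
    intro k hk
    interval_cases k
    · exact ⟨s0, hs0, hc0, h0⟩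
    · exact ⟨s1, hs1, hc1, h01.1 h0⟩
    · exact ⟨s2, hs2, hc2, h02.1 h0⟩
  · right
    have hback : ∀ s : X, ¬ s < c s → c s < s := fun s hs => lt_of_le_of_ne (not_lt.1 hs) (hfix s)
    have h1 : ¬ s1 < c s1 := fun h' => h0 (h01.2 h')
    have h2 : ¬ s2 < c s2 := fun h' => h0 (h02.2 h')
    have hinv : ∀ s : X, c⁻¹ (c s) = s := fun s => Equiv.symm_apply_apply c s
    intro k hk
    interval_cases k
    · exact ⟨c s0, hc0, by rw [hinv]; exact hs0, by rw [hinv]; exact hback _ h0⟩
    · exact ⟨c s1, hc1, by rw [hinv]; exact hs1, by rw [hinv]; exact hback _ h1⟩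
    · exact ⟨c s2, hc2, by rw [hinv]; exact hs2, by rw [hinv]; exact hback _ h2⟩
-- END tdir

-- BEGIN tstep
/-- `C` from `tcan` for `c`, `s_0, s_1, s_2` from `Fw`: for `r ∈ J_0`: `C(r) < C(s_1) = c s_1 < s_2`
so `C(C r) < C(s_2) = c s_2 < 1`. So `C(C r) ∈ (r, 1)`, hence it is `c² r` (congruent mod `1`), so
`c² r > r`. For `r` the point `0`: `c² 0 = C(C 0) > C(0) = c 0`. -/
theorem tstep (d : ℕ) (hd : 2 ≤ d) (c : Equiv.Perm X) (hc : IsTd d c) (hfix : ∀ s, c s ≠ s)
    (h : Fw d c) : (∀ r ∈ cone d 2 0, r < (c ^ 2) r) ∧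
      ∀ r : X, (r : ℝ) = 0 → c r < (c ^ 2) r := by
  obtain ⟨C, hmono, -, hmove, hC, -⟩ := tcan d hd c hc hfix
  have hd2 : (0 : ℝ) < (d : ℝ) ^ 2 := by positivity
  obtain ⟨s1, hs1, hcs1, hlt1⟩ := h 1 (by norm_num)
  obtain ⟨s2, hs2, hcs2, hlt2⟩ := h 2 (by norm_num)
  have key : ∀ s : X, s < c s → C s = c s := by
    intro s hs
    rcases hC s with h1 | h1
    · exact h1
    · exfalso
      have h2 := (hmove s).2
      have h3 : (s : ℝ) < (c s : ℝ) := hs
      linarith
  have e1 := key s1 hlt1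
  have e2 := key s2 hlt2
  have main : ∀ r ∈ cone d 2 0, C r = c r ∧ C (c r) = (c ^ 2) r := by
    intro r hr
    have a1 : (r : ℝ) < s1 := by
      have h1 : (d : ℝ) ^ 2 * r < 0 + 1 := by
        have := hr.2
        push_cast at this
        exact this
      have h2 : (1 : ℝ) ≤ (d : ℝ) ^ 2 * s1 := by
        have := hs1.1
        push_cast at this
        exact this
      have h3 : (d : ℝ) ^ 2 * r < (d : ℝ) ^ 2 * s1 := by linarith
      exact lt_of_mul_lt_mul_left h3 hd2.le
    have a2 : (c s1 : ℝ) < s2 := by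
      have h1 : (d : ℝ) ^ 2 * c s1 < 1 + 1 := by
        have := hcs1.2
        push_cast at this
        exact this
      have h2 : (2 : ℝ) ≤ (d : ℝ) ^ 2 * s2 := by
        have := hs2.1
        push_cast at this
        exact this
      have h3 : (d : ℝ) ^ 2 * c s1 < (d : ℝ) ^ 2 * s2 := by linarith
      exact lt_of_mul_lt_mul_left h3 hd2.le
    have b1 : C r < s2 := by
      have := hmono a1
      rw [e1] at this
      linarith
    have b2 : C (C r) < 1 := by
      have := hmono b1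
      rw [e2] at this
      have h4 : (c s2 : ℝ) < 1 := (c s2).2.2
      linarith
    have b3 := (hmove (C r)).1
    have f1 : C r = c r := by
      rcases hC r with h1 | h1
      · exact h1
      · exfalso
        have h4 : (0 : ℝ) ≤ (c r : ℝ) := (c r).2.1
        linarith
    refine ⟨f1, ?_⟩
    rw [f1] at b2
    rcases hC (c r) with h1 | h1
    · rw [h1, pow_two]
      rfl
    · exfalso
      have h4 : (0 : ℝ) ≤ (c (c r) : ℝ) := (c (c r)).2.1
      linarith
  refine ⟨?_, ?_⟩
  · intro r hr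
    obtain ⟨f1, f2⟩ := main r hr
    have h1 := (hmove r).1
    have h2 := (hmove (c r)).1
    rw [f2] at h2
    rw [f1] at h1
    exact lt_trans (show r < c r from h1) (show c r < (c ^ 2) r from h2)
  · intro r hr
    have hr0 : r ∈ cone d 2 0 := by
      refine ⟨?_, ?_⟩
      · rw [hr]; simp
      · rw [hr]; simp
    obtain ⟨f1, f2⟩ := main r hr0
    have h2 := (hmove (c r)).1
    rw [f2] at h2
    exact h2
-- END tstep

-- BEGIN tthree
/-- Three cones. `b ∈ T_d` of finite order, `b ≠ 1`: some power `b^i` moves one of the first three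
cones of level `2` off itself. Otherwise every nontrivial power (free by `tfree`) satisfies the
hypothesis of `tdir`; take a forward power `c` (`c` or `c⁻¹`) with `c(0)` maximal (finitely many
powers); by `tstep` `c² ≠ 1` and `c⁻²` is not forward (`Fw c⁻²` at `k = 0` gives `s < c⁻² s ∈ J_0`,
put `r = c⁻² s`), so `c²` is forward with `c²(0) > c(0)`, contradiction. -/
theorem tthree (d : ℕ) (hd : 2 ≤ d) (b : Equiv.Perm X) (hb : IsTd d b) (N : ℕ) (hN : 0 < N)
    (hbN : b ^ N = 1) (h1 : b ≠ 1) :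
    ∃ i : ℕ, ∃ k < 3, ∀ s ∈ cone d 2 k, (b ^ i) s ∉ cone d 2 k := by
  classical
  by_contra hcon
  push Not at hcon
  have hT : ∀ i : ℕ, IsTd d (b ^ i) := by
    intro i
    induction i with
    | zero => rw [pow_zero]; exact (tdgrp d hd).1
    | succ i ih => rw [pow_succ']; exact (tdgrp d hd).2.2 _ _ ih hb
  have hN1 : ∀ i : ℕ, (b ^ i) ^ N = 1 := by
    intro i
    rw [← pow_mul, mul_comm, pow_mul, hbN, one_pow]
  have hfree : ∀ i : ℕ, b ^ i ≠ 1 → ∀ s, (b ^ i) s ≠ s := fun i hi s =>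
    tfree d hd (b ^ i) (hT i) N hN (hN1 i) hi s
  have hdir : ∀ i : ℕ, b ^ i ≠ 1 → Fw d (b ^ i) ∨ Fw d (b ^ i)⁻¹ := by
    intro i hi
    refine tdir d hd (b ^ i) (hT i) (hfree i hi) (fun k hk => ?_)
    exact hcon i k hk
  have hinv : b⁻¹ = b ^ (N - 1) := by
    symm
    apply eq_inv_of_mul_eq_one_left
    rw [← pow_succ, Nat.sub_add_cancel hN, hbN]
  set z : X := ⟨0, by norm_num, by norm_num⟩ with hz
  have hz0 : (z : ℝ) = 0 := rfl
  set S : Finset ℕ := (Finset.range N).filter (fun i => b ^ i ≠ 1 ∧ Fw d (b ^ i)) with hS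
  have hmem : ∀ i : ℕ, b ^ i ≠ 1 → Fw d (b ^ i) → i % N ∈ S ∧ b ^ (i % N) = b ^ i := by
    intro i h2 h3
    have e := pow_eq_pow_mod i hbN
    refine ⟨?_, e.symm⟩
    rw [hS, Finset.mem_filter, Finset.mem_range]
    refine ⟨Nat.mod_lt _ hN, ?_⟩
    rw [← e]
    exact ⟨h2, h3⟩
  have hne : S.Nonempty := by
    have hb1 : b ^ 1 ≠ 1 := by rw [pow_one]; exact h1
    rcases hdir 1 hb1 with h2 | h2
    · exact ⟨_, (hmem 1 hb1 h2).1⟩
    · rw [pow_one, hinv] at h2
      have h3 : b ^ (N - 1) ≠ 1 := by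
        rw [← hinv]
        exact inv_ne_one.mpr h1
      exact ⟨_, (hmem (N - 1) h3 h2).1⟩
  obtain ⟨i, hi, hmax⟩ := S.exists_max_image (fun i => (b ^ i) z) hne
  rw [hS, Finset.mem_filter] at hi
  obtain ⟨-, hi1, hiF⟩ := hi
  obtain ⟨hst, hst0⟩ := tstep d hd (b ^ i) (hT i) (hfree i hi1) hiF
  have hzc : z ∈ cone d 2 0 := by
    refine ⟨?_, ?_⟩
    · rw [hz0]; norm_num
    · rw [hz0]; norm_num
  have h2i : (b ^ i) ^ 2 = b ^ (i * 2) := (pow_mul b i 2).symm
  have h2ne : b ^ (i * 2) ≠ 1 := by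
    intro h
    have h4 := hst z hzc
    rw [h2i, h] at h4
    exact lt_irrefl _ h4
  rcases hdir (i * 2) h2ne with h2 | h2
  · obtain ⟨h5, h6⟩ := hmem (i * 2) h2ne h2
    have h7 := hmax _ h5
    have h8 := hst0 z hz0
    rw [h2i, ← h6] at h8
    exact absurd h8 (not_lt.mpr h7)
  · obtain ⟨s, hs, hs1, hs2⟩ := h2 0 (by norm_num)
    have h9 := hst _ hs1
    rw [h2i] at h9
    have h10 : (b ^ (i * 2)) ((b ^ (i * 2))⁻¹ s) = s := (b ^ (i * 2)).apply_symm_apply s
    rw [h10] at h9
    exact absurd h9 (not_lt.mpr hs2.le)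
-- END tthree

end CarT
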