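import Pool.Agent.CarT.Defs

/-! Cones (standard `d`-adic intervals) and elements of `V_d` (rows). -/

open Filter Topology

namespace CarT

/-- The cone `[a / d^m, (a+1) / d^m)`. -/
def cone (d m a : ℕ) : Set X := {s | (a : ℝ) ≤ (d : ℝ) ^ m * s ∧ (d : ℝ) ^ m * s < a + 1}

/-- `f` maps the cone `(m, a)` affinely onto the cone `(m', a')`. -/
def CM (d : ℕ) (f : Equiv.Perm X) (m a m' a' : ℕ) : Prop :=
  ∀ s ∈ cone d m a, (d : ℝ) ^ m' * (f s : ℝ) = a' + ((d : ℝ) ^ m * s - a)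

-- BEGIN cpt
/-- Points of a cone: every real `u ∈ [0,1)` gives the point `(a + u) / d^m`. -/
theorem cpt (d m a : ℕ) (hd : 2 ≤ d) (ha : a < d ^ m) (u : ℝ) (h0 : 0 ≤ u) (h1 : u < 1) :
    ∃ s : X, s ∈ cone d m a ∧ (d : ℝ) ^ m * s = a + u := by
  have hd0 : (0 : ℝ) < d := by exact_mod_cast (by omega : 0 < d)
  have hD : (0 : ℝ) < (d : ℝ) ^ m := by positivity
  have ha' : (a : ℝ) + 1 ≤ (d : ℝ) ^ m := by exact_mod_cast ha
  have hlt : ((a : ℝ) + u) / (d : ℝ) ^ m < 1 := by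
    rw [div_lt_one hD]; linarith
  have hge : 0 ≤ ((a : ℝ) + u) / (d : ℝ) ^ m := by positivity
  have heq : (d : ℝ) ^ m * (((a : ℝ) + u) / (d : ℝ) ^ m) = a + u := by
    field_simp
  refine ⟨⟨((a : ℝ) + u) / (d : ℝ) ^ m, hge, hlt⟩, ⟨?_, ?_⟩, heq⟩
  · show (a : ℝ) ≤ (d : ℝ) ^ m * (((a : ℝ) + u) / (d : ℝ) ^ m)
    rw [heq]; linarith
  · show (d : ℝ) ^ m * (((a : ℝ) + u) / (d : ℝ) ^ m) < a + 1
    rw [heq]; linarith
-- END cpt

-- BEGIN cin
/-- Every point lies in a cone of level `m` with index `< d^m`. -/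
theorem cin (d m : ℕ) (hd : 2 ≤ d) (s : X) : ∃ a, a < d ^ m ∧ s ∈ cone d m a := by
  have hd0 : (0 : ℝ) < d := by exact_mod_cast (by omega : 0 < d)
  have hD : (0 : ℝ) < (d : ℝ) ^ m := by positivity
  have h0 : 0 ≤ (d : ℝ) ^ m * (s : ℝ) := mul_nonneg hD.le s.2.1
  refine ⟨⌊(d : ℝ) ^ m * (s : ℝ)⌋₊, ?_, Nat.floor_le h0, Nat.lt_floor_add_one _⟩
  rw [Nat.floor_lt h0]
  push_cast
  have := s.2.2
  nlinarith
-- END cin

-- BEGIN cnest
/-- Two cones are nested or disjoint: if `m ≤ m'` and they meet, the deeper one is contained in the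
other; and `a' / d^(m'-m) = a` characterises containment. -/
theorem cnest (d m a m' a' : ℕ) (hd : 2 ≤ d) (hm : m ≤ m') :
    ((∃ s, s ∈ cone d m a ∧ s ∈ cone d m' a') → a' / d ^ (m' - m) = a) ∧
    (a' / d ^ (m' - m) = a → cone d m' a' ⊆ cone d m a) := by
  have hd0 : (0 : ℝ) < d := by exact_mod_cast (by omega : 0 < d)
  have hdn : 0 < d ^ (m' - m) := pow_pos (by omega) _
  have hj : (0 : ℝ) < (d : ℝ) ^ (m' - m) := by positivity
  have hpow : (d : ℝ) ^ m' = (d : ℝ) ^ (m' - m) * (d : ℝ) ^ m := by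
    rw [← pow_add]; congr 1; omega
  constructor
  · rintro ⟨s, ⟨h1, h2⟩, h3, h4⟩
    rw [hpow, mul_assoc] at h3 h4
    have h5 : (a' : ℝ) < (d : ℝ) ^ (m' - m) * (a + 1) :=
      lt_of_le_of_lt h3 (mul_lt_mul_of_pos_left h2 hj)
    have h6 : (d : ℝ) ^ (m' - m) * a < a' + 1 :=
      lt_of_le_of_lt (mul_le_mul_of_nonneg_left h1 hj.le) h4
    have h5' : a' < d ^ (m' - m) * (a + 1) := by exact_mod_cast h5
    have h6' : d ^ (m' - m) * a < a' + 1 := by exact_mod_cast h6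
    rw [Nat.div_eq_iff hdn]
    constructor
    · rw [mul_comm]; omega
    · rw [mul_add, mul_one] at h5'
      rw [mul_comm a]; omega
  · intro h s hs
    obtain ⟨h3, h4⟩ := hs
    rw [hpow, mul_assoc] at h3 h4
    have h5 : d ^ (m' - m) * a ≤ a' := by
      rw [← h]; exact Nat.mul_div_le _ _
    have h6 : a' + 1 ≤ d ^ (m' - m) * (a + 1) := by
      rw [← h]; exact Nat.lt_mul_div_succ _ hdn
    have h5' : (d : ℝ) ^ (m' - m) * a ≤ a' := by exact_mod_cast h5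
    have h6' : (a' : ℝ) + 1 ≤ (d : ℝ) ^ (m' - m) * (a + 1) := by exact_mod_cast h6
    constructor
    · exact le_of_mul_le_mul_left (h5'.trans h3) hj
    · exact lt_of_mul_lt_mul_left (h4.trans_le h6') hj.le
-- END cnest

-- BEGIN cmlt
/-- The target index is in range. -/
theorem cmlt (d m a m' a' : ℕ) (hd : 2 ≤ d) (ha : a < d ^ m) (f : Equiv.Perm X)
    (h : CM d f m a m' a') : a' < d ^ m' := by
  obtain ⟨s, hs, hs'⟩ := cpt d m a hd ha 0 le_rfl one_pos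
  have h1 := h s hs
  rw [hs'] at h1
  have hd0 : (0 : ℝ) < d := by exact_mod_cast (by omega : 0 < d)
  have hD : (0 : ℝ) < (d : ℝ) ^ m' := by positivity
  have h2 : (d : ℝ) ^ m' * (f s : ℝ) < (d : ℝ) ^ m' := by
    have := (f s).2.2
    nlinarith
  have h3 : (a' : ℝ) < (d : ℝ) ^ m' := by
    rw [h1] at h2; linarith
  exact_mod_cast h3
-- END cmlt

-- BEGIN cmim
/-- `f` maps the cone bijectively on the target cone. -/
theorem cmim (d m a m' a' : ℕ) (hd : 2 ≤ d) (ha : a < d ^ m) (f : Equiv.Perm X)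
    (h : CM d f m a m' a') (s : X) : s ∈ cone d m a ↔ f s ∈ cone d m' a' := by
  constructor
  · intro hs
    have h1 := h s hs
    have h2 : (a : ℝ) ≤ (d : ℝ) ^ m * s ∧ (d : ℝ) ^ m * s < a + 1 := hs
    show (a' : ℝ) ≤ (d : ℝ) ^ m' * (f s : ℝ) ∧ (d : ℝ) ^ m' * (f s : ℝ) < a' + 1
    rw [h1]
    constructor <;> linarith [h2.1, h2.2]
  · intro hs
    have h2 : (a' : ℝ) ≤ (d : ℝ) ^ m' * (f s : ℝ) ∧ (d : ℝ) ^ m' * (f s : ℝ) < a' + 1 := hs
    obtain ⟨t, ht, htu⟩ := cpt d m a hd ha ((d : ℝ) ^ m' * (f s : ℝ) - a') (by linarith [h2.1])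
      (by linarith [h2.2])
    have h3 := h t ht
    have h4 : (d : ℝ) ^ m' * (f t : ℝ) = (d : ℝ) ^ m' * (f s : ℝ) := by
      rw [h3, htu]; ring
    have hdp : (0 : ℝ) < (d : ℝ) ^ m' := by
      have : (0 : ℝ) < d := by exact_mod_cast (by omega : 0 < d)
      positivity
    have h5 : (f t : ℝ) = (f s : ℝ) := mul_left_cancel₀ hdp.ne' h4
    have h6 : t = s := f.injective (Subtype.ext h5)
    rw [← h6]; exact ht
-- END cmim

-- BEGIN cmref
/-- Refinement to the sub-cone with index `r`. -/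
theorem cmref (d m a m' a' j r : ℕ) (hd : 2 ≤ d) (hr : r < d ^ j) (f : Equiv.Perm X)
    (h : CM d f m a m' a') : CM d f (m + j) (a * d ^ j + r) (m' + j) (a' * d ^ j + r) := by
  have hdj : (0 : ℝ) < (d : ℝ) ^ j := by positivity
  have hr' : (r : ℝ) + 1 ≤ (d : ℝ) ^ j := by exact_mod_cast hr
  intro s hs
  have h1 : ((a * d ^ j + r : ℕ) : ℝ) ≤ (d : ℝ) ^ (m + j) * s := hs.1
  have h2 : (d : ℝ) ^ (m + j) * s < ((a * d ^ j + r : ℕ) : ℝ) + 1 := hs.2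
  rw [pow_add] at h1 h2
  push_cast at h1 h2
  have hmem : s ∈ cone d m a := by
    constructor
    · by_contra hc
      have hc' := not_le.mp hc
      nlinarith [mul_lt_mul_of_pos_right hc' hdj]
    · by_contra hc
      have hc' := not_lt.mp hc
      nlinarith [mul_le_mul_of_nonneg_right hc' hdj.le]
  have h3 := h s hmem
  rw [pow_add, pow_add]
  push_cast
  have h4 : (d : ℝ) ^ m' * (d : ℝ) ^ j * (f s : ℝ) = (d : ℝ) ^ j * ((d : ℝ) ^ m' * (f s : ℝ)) := by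
    ring
  rw [h4, h3]
  ring
-- END cmref

-- BEGIN cmcomp
theorem cmcomp (d m a m' a' m'' a'' : ℕ) (hd : 2 ≤ d) (f g : Equiv.Perm X)
    (h : CM d f m a m' a') (h' : CM d g m' a' m'' a'') : CM d (g * f) m a m'' a'' := by
  intro s hs
  have h1 := h s hs
  have h2 : (a : ℝ) ≤ (d : ℝ) ^ m * s := hs.1
  have h3 : (d : ℝ) ^ m * s < a + 1 := hs.2
  have hmem : f s ∈ cone d m' a' := by
    constructor
    · rw [h1]; linarith
    · rw [h1]; linarith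
  have h4 := h' (f s) hmem
  rw [Equiv.Perm.mul_apply, h4, h1]
  ring
-- END cmcomp

-- BEGIN cminv
theorem cminv (d m a m' a' : ℕ) (hd : 2 ≤ d) (ha : a < d ^ m) (f : Equiv.Perm X)
    (h : CM d f m a m' a') : CM d f⁻¹ m' a' m a := by
  intro s hs
  have hff : f (f⁻¹ s) = s := by simp
  have hmem : f⁻¹ s ∈ cone d m a := by
    rw [cmim d m a m' a' hd ha f h (f⁻¹ s), hff]
    exact hs
  have h1 := h (f⁻¹ s) hmem
  rw [hff] at h1
  rw [h1]
  ring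
-- END cminv

-- BEGIN vlev
private theorem vlev_int (d : ℕ) (hd : 2 ≤ d) (r : ℝ) (hr : r ∈ Zd d) :
    ∃ e : ℕ, ∀ N, e ≤ N → ∃ z : ℤ, r * (d : ℝ) ^ N = z := by
  obtain ⟨a, m, rfl⟩ := hr
  have hd0 : (d : ℝ) ≠ 0 := by
    have : d ≠ 0 := by omega
    exact_mod_cast this
  refine ⟨m, fun N hN => ⟨a * (d : ℤ) ^ (N - m), ?_⟩⟩
  have : (d : ℝ) ^ N = (d : ℝ) ^ m * (d : ℝ) ^ (N - m) := by
    rw [← pow_add]; congr 1; omega
  rw [this]
  push_cast
  field_simp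

private theorem vlev_max (n : ℕ) (P : ℕ → ℕ → Prop)
    (h : ∀ i < n, ∃ e : ℕ, ∀ N, e ≤ N → P i N) : ∃ e : ℕ, ∀ i < n, ∀ N, e ≤ N → P i N := by
  induction n with
  | zero => exact ⟨0, fun i hi => absurd hi (by omega)⟩
  | succ n ih =>
    obtain ⟨e1, h1⟩ := ih fun i hi => h i (by omega)
    obtain ⟨e2, h2⟩ := h n (by omega)
    refine ⟨max e1 e2, fun i hi N hN => ?_⟩
    rcases Nat.lt_succ_iff_lt_or_eq.1 hi with hi | rfl
    · exact h1 i hi N (le_trans (le_max_left _ _) hN)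
    · exact h2 N (le_trans (le_max_right _ _) hN)

private theorem vlev_find (n : ℕ) (t : ℕ → ℝ) (x : ℝ) (h0 : t 0 ≤ x) (h1 : x < t n) :
    ∃ i < n, t i ≤ x ∧ x < t (i + 1) := by
  induction n with
  | zero => exact absurd h1 (not_lt.2 h0)
  | succ n ih =>
    by_cases h : x < t n
    · obtain ⟨i, hi, h2⟩ := ih h
      exact ⟨i, by omega, h2⟩
    · exact ⟨n, by omega, not_lt.1 h, h1⟩

/-- An element of `V_d` maps all cones of some level affinely onto cones. (Take `M` so large that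
`t_i d^M`, `b_i d^(M-|k_i|)` are integers and `|k_i| ≤ M`; then a cone of level `M` lies in one
`[t_i, t_(i+1))`; `m' = M - k_i`, `a' = a + b_i d^m'`, which is `≥ 0` as `f ≥ 0`.) -/
theorem vlev (d : ℕ) (hd : 2 ≤ d) (f : Equiv.Perm X) (hf : IsVd d f) :
    ∃ M, ∀ a < d ^ M, ∃ m' a', CM d f M a m' a' := by
  obtain ⟨n, t, ht0, htn, -, htZ, hpc⟩ := hf
  have hd0 : (0 : ℝ) < d := by exact_mod_cast (by omega : 0 < d)
  obtain ⟨M1, hM1⟩ := vlev_max (n + 1) (fun i N => ∃ z : ℤ, t i * (d : ℝ) ^ N = z)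
    fun i hi => vlev_int d hd (t i) (htZ i (by omega))
  obtain ⟨M2, hM2⟩ := vlev_max n (fun i N => ∃ (k : ℤ) (b : ℝ), k ≤ N ∧
      (∃ z : ℤ, b * (d : ℝ) ^ ((N - k).toNat) = z) ∧
      ∀ s : X, t i ≤ s → (s : ℝ) < t (i + 1) → (f s : ℝ) = (d : ℝ) ^ k * s + b)
    (fun i hi => by
      obtain ⟨k, b, hb, hs⟩ := hpc i hi
      obtain ⟨e, he⟩ := vlev_int d hd b hb
      refine ⟨e + k.natAbs, fun N hN => ⟨k, b, by omega, he _ (by omega), hs⟩⟩)
  refine ⟨max M1 M2, fun a ha => ?_⟩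
  set M := max M1 M2 with hM
  have hD : (0 : ℝ) < (d : ℝ) ^ M := by positivity
  obtain ⟨s0, hs0, hs0'⟩ := cpt d M a hd ha 0 le_rfl one_pos
  rw [add_zero] at hs0'
  have hs0v : (s0 : ℝ) = a / (d : ℝ) ^ M := by
    rw [eq_div_iff hD.ne', mul_comm]; exact hs0'
  obtain ⟨i, hi, hi1, hi2⟩ := vlev_find n t s0 (by rw [ht0]; exact s0.2.1)
    (by rw [htn]; exact s0.2.2)
  obtain ⟨z1, hz1⟩ := hM1 i (by omega) M (le_max_left _ _)
  obtain ⟨z2, hz2⟩ := hM1 (i + 1) (by omega) M (le_max_left _ _)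
  obtain ⟨k, b, hk, ⟨z, hz⟩, hs⟩ := hM2 i hi M (le_max_right _ _)
  have hin : ∀ s ∈ cone d M a, t i ≤ (s : ℝ) ∧ (s : ℝ) < t (i + 1) := by
    intro s hsc
    obtain ⟨h1, h2⟩ := hsc
    have h3 : z1 ≤ (a : ℤ) := by
      have : (z1 : ℝ) ≤ (a : ℝ) := by
        rw [← hz1, ← hs0', mul_comm]
        exact mul_le_mul_of_nonneg_left hi1 hD.le
      exact_mod_cast this
    have h4 : (a : ℤ) + 1 ≤ z2 := by
      have : (a : ℝ) < (z2 : ℝ) := by
        rw [← hz2, ← hs0', mul_comm (t (i + 1))]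
        exact mul_lt_mul_of_pos_left hi2 hD
      have h5 : (a : ℤ) < z2 := by exact_mod_cast this
      omega
    have h3' : (z1 : ℝ) ≤ (a : ℝ) := by exact_mod_cast h3
    have h4' : (a : ℝ) + 1 ≤ (z2 : ℝ) := by exact_mod_cast h4
    constructor
    · have : (d : ℝ) ^ M * t i ≤ (d : ℝ) ^ M * s := by
        rw [mul_comm _ (t i), hz1]; linarith
      exact le_of_mul_le_mul_left this hD
    · have : (d : ℝ) ^ M * s < (d : ℝ) ^ M * t (i + 1) := by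
        rw [mul_comm _ (t (i + 1)), hz2]; linarith
      exact lt_of_mul_lt_mul_left this hD.le
  have hpow : (d : ℝ) ^ ((M - k).toNat) * (d : ℝ) ^ k = (d : ℝ) ^ M := by
    rw [← zpow_natCast, ← zpow_add₀ hd0.ne', ← zpow_natCast]
    congr 1
    rw [Int.toNat_of_nonneg (by omega)]
    ring
  have hval : ∀ s ∈ cone d M a, (d : ℝ) ^ ((M - k).toNat) * (f s : ℝ) = (d : ℝ) ^ M * s + z := by
    intro s hsc
    obtain ⟨h1, h2⟩ := hin s hsc
    rw [hs s h1 h2, mul_add, ← mul_assoc, hpow, mul_comm _ b, hz]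
  have hnn : 0 ≤ (a : ℤ) + z := by
    have h1 := hval s0 hs0
    rw [hs0'] at h1
    have h2 : 0 ≤ (d : ℝ) ^ ((M - k).toNat) * (f s0 : ℝ) :=
      mul_nonneg (by positivity) (f s0).2.1
    rw [h1] at h2
    exact_mod_cast h2
  refine ⟨(M - k).toNat, ((a : ℤ) + z).toNat, fun s hsc => ?_⟩
  rw [hval s hsc]
  have : ((((a : ℤ) + z).toNat : ℕ) : ℝ) = (a : ℝ) + z := by
    have h1 : ((((a : ℤ) + z).toNat : ℕ) : ℤ) = (a : ℤ) + z := Int.toNat_of_nonneg hnn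
    have h2 : (((((a : ℤ) + z).toNat : ℕ) : ℤ) : ℝ) = (((a : ℤ) + z : ℤ) : ℝ) := by rw [h1]
    push_cast at h2
    exact h2
  rw [this]
  ring
-- END vlev

-- BEGIN vlev2
/-- Converse: a permutation that maps all cones of some level affinely onto cones is in `V_d`
(`t i = i / d^M`, `n = d^M`). -/
theorem vlev2 (d : ℕ) (hd : 2 ≤ d) (f : Equiv.Perm X) (M : ℕ)
    (hf : ∀ a < d ^ M, ∃ m' a', CM d f M a m' a') : IsVd d f := by
  have hd0 : (0 : ℝ) < d := by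
    have : 0 < d := by omega
    exact_mod_cast this
  have hM : (0 : ℝ) < (d : ℝ) ^ M := pow_pos hd0 M
  refine ⟨d ^ M, fun i => (i : ℝ) / (d : ℝ) ^ M, ?_, ?_, ?_, ?_, ?_⟩
  · simp
  · show ((d ^ M : ℕ) : ℝ) / (d : ℝ) ^ M = 1
    rw [Nat.cast_pow]
    exact div_self hM.ne'
  · intro i _
    show (i : ℝ) / (d : ℝ) ^ M < ((i + 1 : ℕ) : ℝ) / (d : ℝ) ^ M
    rw [div_lt_div_iff_of_pos_right hM]
    push_cast
    linarith
  · intro i _
    exact ⟨(i : ℤ), M, by push_cast; rfl⟩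
  · intro i hi
    obtain ⟨m', a', h⟩ := hf i hi
    have hm : (0 : ℝ) < (d : ℝ) ^ m' := pow_pos hd0 m'
    refine ⟨(M : ℤ) - (m' : ℤ), ((a' : ℝ) - (i : ℝ)) / (d : ℝ) ^ m', ⟨(a' : ℤ) - (i : ℤ), m', by push_cast; rfl⟩, ?_⟩
    intro s h1 h2
    have h1' : (i : ℝ) ≤ (d : ℝ) ^ M * s := by
      have := (div_le_iff₀ hM).mp h1
      linarith
    have h2' : (d : ℝ) ^ M * s < (i : ℝ) + 1 := by
      have h3 : (s : ℝ) < ((i + 1 : ℕ) : ℝ) / (d : ℝ) ^ M := h2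
      have := (lt_div_iff₀ hM).mp h3
      push_cast at this
      linarith
    have h4 := h s ⟨h1', h2'⟩
    rw [zpow_sub₀ hd0.ne', zpow_natCast, zpow_natCast]
    field_simp
    linarith
-- END vlev2

-- BEGIN vup
/-- Deeper cones are also mapped affinely onto cones, with level at least the added depth. -/
theorem vup (d : ℕ) (hd : 2 ≤ d) (f : Equiv.Perm X) (M : ℕ)
    (hf : ∀ a < d ^ M, ∃ m' a', CM d f M a m' a') (N : ℕ) (hN : M ≤ N) (a : ℕ) (ha : a < d ^ N) :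
    ∃ m' a', CM d f N a m' a' ∧ N ≤ m' + M := by
  obtain ⟨j, rfl⟩ : ∃ j, N = M + j := ⟨N - M, by omega⟩
  have hpos : 0 < d ^ j := Nat.pow_pos (by omega)
  have hb : a / d ^ j < d ^ M := by
    rw [Nat.div_lt_iff_lt_mul hpos, ← pow_add]
    exact ha
  obtain ⟨m', a', hm⟩ := hf (a / d ^ j) hb
  have h := cmref d M (a / d ^ j) m' a' j (a % d ^ j) hd (Nat.mod_lt _ hpos) f hm
  rw [Nat.div_add_mod'] at h
  exact ⟨m' + j, a' * d ^ j + a % d ^ j, h, by omega⟩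
-- END vup

-- BEGIN vmul
/-- `V_d` is closed under products (`vlev`, `vup`, `cmcomp`, `vlev2`). -/
theorem vmul (d : ℕ) (hd : 2 ≤ d) (f g : Equiv.Perm X) (hf : IsVd d f) (hg : IsVd d g) :
    IsVd d (g * f) := by
  obtain ⟨M, hM⟩ := vlev d hd f hf
  obtain ⟨L, hL⟩ := vlev d hd g hg
  refine vlev2 d hd (g * f) (M + L) fun a ha => ?_
  obtain ⟨m', a', h1, h2⟩ := vup d hd f M hM (M + L) (Nat.le_add_right M L) a ha
  have h3 : a' < d ^ m' := cmlt d (M + L) a m' a' hd ha f h1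
  obtain ⟨m'', a'', h4, -⟩ := vup d hd g L hL m' (by omega) a' h3
  exact ⟨m'', a'', cmcomp d (M + L) a m' a' m'' a'' hd f g h1 h4⟩
-- END vmul

-- BEGIN vinv
/-- `V_d` is closed under inverses: with `L` above all image levels, each cone of level `L` is
contained in one of the image cones (the image cone of the point `f⁻¹ s`), use `cminv`, `cmref`. -/
theorem vinv (d : ℕ) (hd : 2 ≤ d) (f : Equiv.Perm X) (hf : IsVd d f) : IsVd d f⁻¹ := by
  classical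
  obtain ⟨M, hM⟩ := vlev d hd f hf
  choose! m' a' hma using hM
  refine vlev2 d hd f⁻¹ ((Finset.range (d ^ M)).sup m') fun c hc => ?_
  obtain ⟨s, hs, -⟩ := cpt d ((Finset.range (d ^ M)).sup m') c hd hc 0 le_rfl one_pos
  obtain ⟨a, ha, hxa⟩ := cin d M hd (f⁻¹ s)
  have hcm := hma a ha
  have hle : m' a ≤ (Finset.range (d ^ M)).sup m' := Finset.le_sup (f := m') (Finset.mem_range.mpr ha)
  have hs' : s ∈ cone d (m' a) (a' a) := by
    have h := (cmim d M a (m' a) (a' a) hd ha f hcm (f⁻¹ s)).mp hxa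
    have e : f (f⁻¹ s) = s := f.apply_symm_apply s
    rwa [e] at h
  have hdiv := (cnest d (m' a) (a' a) ((Finset.range (d ^ M)).sup m') c hd hle).1 ⟨s, hs', hs⟩
  have hpos : 0 < d ^ ((Finset.range (d ^ M)).sup m' - m' a) := Nat.pow_pos (by omega)
  have hinv := cminv d M a (m' a) (a' a) hd ha f hcm
  have href := cmref d (m' a) (a' a) M a ((Finset.range (d ^ M)).sup m' - m' a)
    (c % d ^ ((Finset.range (d ^ M)).sup m' - m' a)) hd (Nat.mod_lt _ hpos) f⁻¹ hinv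
  rw [Nat.add_sub_cancel' hle, ← hdiv, Nat.div_add_mod' c] at href
  exact ⟨_, _, href⟩
-- END vinv

-- BEGIN vone
theorem vone (d : ℕ) (hd : 2 ≤ d) : IsVd d 1 := by
  refine vlev2 d hd 1 0 fun a ha => ⟨0, a, fun s _ => ?_⟩
  show (d : ℝ) ^ 0 * (s : ℝ) = a + ((d : ℝ) ^ 0 * s - a)
  ring
-- END vone

-- BEGIN vmoved
/-- A nontrivial `a ∈ V_d` moves some cone off itself, affinely onto a cone. -/
theorem vmoved (d : ℕ) (hd : 2 ≤ d) (a : Equiv.Perm X) (ha : IsVd d a) (h1 : a ≠ 1) :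
    ∃ m b m' b', b < d ^ m ∧ CM d a m b m' b' ∧ ∀ s ∈ cone d m b, a s ∉ cone d m b := by
  obtain ⟨M, hM⟩ := vlev d hd a ha
  have hex : ∃ s, a s ≠ s := by
    by_contra hc
    push Not at hc
    exact h1 (Equiv.ext hc)
  obtain ⟨s, hs⟩ := hex
  have hne : (a s : ℝ) ≠ (s : ℝ) := fun h => hs (Subtype.ext h)
  have hpos : 0 < |(a s : ℝ) - s| := abs_pos.mpr (sub_ne_zero.mpr hne)
  have hd1 : (1 : ℝ) < d := by exact_mod_cast (by omega : 1 < d)
  obtain ⟨j, hj⟩ := pow_unbounded_of_one_lt (2 / |(a s : ℝ) - s|) hd1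
  have hj2 : 2 < (d : ℝ) ^ j * |(a s : ℝ) - s| := by
    rwa [div_lt_iff₀ hpos] at hj
  obtain ⟨b, hb, hsb⟩ := cin d (M + j) hd s
  obtain ⟨m', b', hcm, hm'⟩ := vup d hd a M hM (M + j) (by omega) b hb
  refine ⟨M + j, b, m', b', hb, hcm, ?_⟩
  intro t ht hat
  have hK1 : (d : ℝ) ^ j ≤ (d : ℝ) ^ (M + j) := pow_le_pow_right₀ hd1.le (by omega)
  have hK2 : (d : ℝ) ^ j ≤ (d : ℝ) ^ m' := pow_le_pow_right₀ hd1.le (by omega)
  have hK0 : (0 : ℝ) < (d : ℝ) ^ j := by positivity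
  have e1 : (d : ℝ) ^ (M + j) * |(a t : ℝ) - s| < 1 := by
    rw [← abs_of_pos (by positivity : (0 : ℝ) < (d : ℝ) ^ (M + j)), ← abs_mul, abs_lt, mul_sub]
    obtain ⟨h3, h4⟩ := hat
    obtain ⟨h5, h6⟩ := hsb
    constructor <;> linarith
  have e2 : (d : ℝ) ^ m' * |(a t : ℝ) - a s| < 1 := by
    rw [← abs_of_pos (by positivity : (0 : ℝ) < (d : ℝ) ^ m'), ← abs_mul, abs_lt, mul_sub,
      hcm t ht, hcm s hsb]
    obtain ⟨h3, h4⟩ := ht
    obtain ⟨h5, h6⟩ := hsb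
    constructor <;> linarith
  have e3 : |(a s : ℝ) - s| ≤ |(a t : ℝ) - a s| + |(a t : ℝ) - s| := by
    have := abs_sub_le (a s : ℝ) (a t : ℝ) (s : ℝ)
    rw [abs_sub_comm (a s : ℝ) (a t : ℝ)] at this
    exact this
  have e4 : (d : ℝ) ^ j * |(a t : ℝ) - s| ≤ (d : ℝ) ^ (M + j) * |(a t : ℝ) - s| :=
    mul_le_mul_of_nonneg_right hK1 (abs_nonneg _)
  have e5 : (d : ℝ) ^ j * |(a t : ℝ) - a s| ≤ (d : ℝ) ^ m' * |(a t : ℝ) - a s| :=
    mul_le_mul_of_nonneg_right hK2 (abs_nonneg _)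
  have e6 : (d : ℝ) ^ j * |(a s : ℝ) - s| ≤ (d : ℝ) ^ j * (|(a t : ℝ) - a s| + |(a t : ℝ) - s|) :=
    mul_le_mul_of_nonneg_left e3 hK0.le
  nlinarith [e1, e2, e4, e5, e6, hj2]
-- END vmoved

end CarT
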