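import Mathlib

/-!
# Cartan subalgebras in group factors: definitions

`L2 G` is the Hilbert space `ℓ²(G)`, `Op G` its bounded operators, `lam g` the left regular
unitary of `g`, `vN S` the double commutant of `S` (for a self-adjoint set `S` this is the von
Neumann algebra generated by `S`), `groupVN G = L(G)`, `subVN H = L(H) ⊆ L(G)`.
-/

open Filter Topology

namespace CarT

noncomputable section

/-- The Hilbert space `ℓ²(G)`. -/
abbrev L2 (G : Type) : Type := lp (fun _ : G => ℂ) 2

/-- Bounded operators on `ℓ²(G)`. -/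
abbrev Op (G : Type) : Type := L2 G →L[ℂ] L2 G

theorem memlp_comp {G : Type} (e : Equiv.Perm G) (f : L2 G) :
    Memℓp (fun h => f (e h)) 2 := by
  have h := lp.memℓp f
  rw [memℓp_gen_iff (by norm_num)] at h ⊢
  exact (e.summable_iff (f := fun i => ‖f i‖ ^ (2 : ENNReal).toReal)).mpr h

/-- The operator `ξ ↦ ξ ∘ e` on `ℓ²(G)`, for a permutation `e` of `G`. -/
def permOp {G : Type} (e : Equiv.Perm G) : Op G :=
  LinearIsometry.toContinuousLinearMap
    { toFun := fun f => ⟨fun h => f (e h), memlp_comp e f⟩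
      map_add' := fun f g => by ext h; rfl
      map_smul' := fun c f => by ext h; rfl
      norm_map' := fun f => by
        have h2 : (0 : ℝ) < (2 : ENNReal).toReal := by norm_num
        have key : ∀ u v : L2 G, ‖u‖ ^ (2 : ENNReal).toReal = ‖v‖ ^ (2 : ENNReal).toReal →
            ‖u‖ = ‖v‖ := by
          intro u v huv
          exact (Real.rpow_left_inj (norm_nonneg _) (norm_nonneg _) h2.ne').mp huv
        apply key
        rw [lp.norm_rpow_eq_tsum h2, lp.norm_rpow_eq_tsum h2]
        exact e.tsum_eq (fun i => ‖f i‖ ^ (2 : ENNReal).toReal) }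

@[simp] theorem permOp_apply {G : Type} (e : Equiv.Perm G) (f : L2 G) (h : G) :
    permOp e f h = f (e h) := rfl

variable {G : Type} [Group G]

/-- The left regular unitary `λ_g`, `(λ_g ξ)(h) = ξ(g⁻¹ h)`. -/
def lam (g : G) : Op G := permOp (Equiv.mulLeft g⁻¹)

@[simp] theorem lam_apply (g : G) (f : L2 G) (h : G) : lam g f h = f (g⁻¹ * h) := rfl

/-- The double commutant of a set of operators; if the set is self-adjoint, this is the von
Neumann algebra generated by it. -/
def vN (S : Set (Op G)) : Set (Op G) := Set.centralizer (Set.centralizer S)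

/-- The group von Neumann algebra `L(G)`: generated by the `λ_g`, `g ∈ G`. -/
def groupVN (G : Type) [Group G] : Set (Op G) := vN (Set.range (lam : G → Op G))

/-- The subalgebra `L(H)` of `L(G)`: generated by the `λ_h`, `h ∈ H`. -/
def subVN (H : Subgroup G) : Set (Op G) := vN ((lam : G → Op G) '' (H : Set G))

/-- The unitaries `u ∈ M` with `u A u* = A`. -/
def normalizer (M A : Set (Op G)) : Set (Op G) :=
  {u | u ∈ M ∧ u ∈ unitary (Op G) ∧ (fun x => u * x * star u) '' A = A}

/-- `A` is a Cartan subalgebra of the von Neumann algebra `M`: a self-adjoint subset of `M` with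
`A' ∩ M = A` (so `A` is an abelian von Neumann algebra, maximal abelian in `M`), such that the
unitaries of `M` normalizing `A` generate `M` as a von Neumann algebra. -/
structure IsCartan (M A : Set (Op G)) : Prop where
  sub : A ⊆ M
  star_mem : ∀ a ∈ A, star a ∈ A
  comm : ∀ a ∈ A, ∀ b ∈ A, a * b = b * a
  maximal : ∀ b ∈ M, (∀ a ∈ A, a * b = b * a) → b ∈ A
  regular : vN (normalizer M A) = M

/-- `B` contains a sequence of unitaries which tends to `0` in the weak operator topology (for a
von Neumann algebra `B` of the kind considered here: `B` is diffuse). -/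
def HasNullUnitaries (B : Set (Op G)) : Prop :=
  ∃ v : ℕ → Op G, (∀ n, v n ∈ B ∧ v n ∈ unitary (Op G)) ∧
    ∀ ξ η : L2 G, Tendsto (fun n => inner ℂ ξ (v n η)) atTop (𝓝 0)

/-! ## The groups `F_d`, `T_d`, `V_d` as groups of permutations of `[0,1)` -/

/-- The half-open interval `[0,1)`. -/
abbrev X : Type := Set.Ico (0 : ℝ) 1

/-- `Z[1/d]`. -/
def Zd (d : ℕ) : Set ℝ := {r | ∃ (a : ℤ) (m : ℕ), r = a / (d : ℝ) ^ m}

/-- `f` belongs to `V_d`: there is a partition of `[0,1)` into finitely many half-open intervals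
with endpoints in `Z[1/d]` such that on each of them `f(s) = d^k s + b`, `k ∈ ℤ`, `b ∈ Z[1/d]`. -/
def IsVd (d : ℕ) (f : Equiv.Perm X) : Prop :=
  ∃ (n : ℕ) (t : ℕ → ℝ), t 0 = 0 ∧ t n = 1 ∧ (∀ i < n, t i < t (i + 1)) ∧
    (∀ i ≤ n, t i ∈ Zd d) ∧
    ∀ i < n, ∃ (k : ℤ) (b : ℝ), b ∈ Zd d ∧
      ∀ s : X, t i ≤ s → (s : ℝ) < t (i + 1) → (f s : ℝ) = (d : ℝ) ^ k * s + b

/-- `f` belongs to `T_d`: it is in `V_d` and induces a homeomorphism of the circle `ℝ/ℤ`. -/
def IsTd (d : ℕ) (f : Equiv.Perm X) : Prop :=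
  IsVd d f ∧ ∃ h : AddCircle (1 : ℝ) ≃ₜ AddCircle (1 : ℝ),
    ∀ s : X, h ((s : ℝ) : AddCircle (1 : ℝ)) = ((f s : ℝ) : AddCircle (1 : ℝ))

/-- `f` belongs to `F_d`: it is in `V_d` and increasing (so it extends to a homeomorphism of
`[0,1]` by `f(1) = 1`). -/
def IsFd (d : ℕ) (f : Equiv.Perm X) : Prop := IsVd d f ∧ StrictMono f

end

end CarT
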