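import Pool.Agent.CarT.Cone

/-! Explicit elements of `F_d` and `T_d` (rows). -/

open Filter Topology

namespace CarT

-- BEGIN gfun
private noncomputable def gfun_g (D u : ℝ) : ℝ :=
  min (D * u) (min (u + (D - 1) ^ 2 / D ^ 2) ((u + D - 1) / D))

private noncomputable def gfun_i (D v : ℝ) : ℝ :=
  max (v / D) (max (v - (D - 1) ^ 2 / D ^ 2) (D * v - D + 1))

private theorem gfun_gmono (D : ℝ) (hD : 0 < D) (u v : ℝ) (h : u < v) :
    gfun_g D u < gfun_g D v := by
  unfold gfun_g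
  have h1 : D * u < D * v := mul_lt_mul_of_pos_left h hD
  have h2 : (u + D - 1) / D < (v + D - 1) / D := by
    apply div_lt_div_of_pos_right _ hD; linarith
  refine lt_min ((min_le_left _ _).trans_lt h1) (lt_min ?_ ?_)
  · exact ((min_le_right _ _).trans (min_le_left _ _)).trans_lt (by linarith)
  · exact ((min_le_right _ _).trans (min_le_right _ _)).trans_lt h2

private theorem gfun_gi (D : ℝ) (hD : 0 < D) (v : ℝ) : gfun_g D (gfun_i D v) = v := by
  have e1 : D * (v / D) = v := by field_simp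
  have e3 : (D * v - D + 1 + D - 1) / D = v := by field_simp; ring
  have l1 : v / D ≤ gfun_i D v := le_max_left _ _
  have l2 : v - (D - 1) ^ 2 / D ^ 2 ≤ gfun_i D v := (le_max_left _ _).trans (le_max_right _ _)
  have l3 : D * v - D + 1 ≤ gfun_i D v := (le_max_right _ _).trans (le_max_right _ _)
  have m1 : v ≤ D * gfun_i D v := by
    calc v = D * (v / D) := e1.symm
      _ ≤ _ := mul_le_mul_of_nonneg_left l1 hD.le
  have m3 : v ≤ (gfun_i D v + D - 1) / D := by
    rw [le_div_iff₀ hD]; linarith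
  apply le_antisymm
  · unfold gfun_g
    rcases max_choice (v / D) (max (v - (D - 1) ^ 2 / D ^ 2) (D * v - D + 1)) with h | h
    · have h' : gfun_i D v = v / D := h
      exact (min_le_left _ _).trans (by rw [h', e1])
    · rcases max_choice (v - (D - 1) ^ 2 / D ^ 2) (D * v - D + 1) with k | k
      · have h' : gfun_i D v = v - (D - 1) ^ 2 / D ^ 2 := h.trans k
        exact ((min_le_right _ _).trans (min_le_left _ _)).trans (by rw [h']; linarith)
      · have h' : gfun_i D v = D * v - D + 1 := h.trans k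
        exact ((min_le_right _ _).trans (min_le_right _ _)).trans (by rw [h', e3])
  · unfold gfun_g
    exact le_min m1 (le_min (by linarith) m3)

private theorem gfun_ig (D : ℝ) (hD : 0 < D) (u : ℝ) : gfun_i D (gfun_g D u) = u := by
  have h := gfun_gi D hD (gfun_g D u)
  rcases lt_trichotomy (gfun_i D (gfun_g D u)) u with k | k | k
  · have := gfun_gmono D hD _ _ k
    linarith
  · exact k
  · have := gfun_gmono D hD _ _ k
    linarith

private theorem gfun_g0 (D : ℝ) (hD : 2 ≤ D) : gfun_g D 0 = 0 := by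
  unfold gfun_g
  rw [mul_zero]
  apply min_eq_left
  refine le_min (by positivity) ?_
  apply div_nonneg <;> linarith

private theorem gfun_g1 (D : ℝ) (hD : 2 ≤ D) : gfun_g D 1 = 1 := by
  unfold gfun_g
  have hD0 : 0 < D := by linarith
  have e : (1 + D - 1) / D = 1 := by
    rw [div_eq_one_iff_eq hD0.ne']; ring
  rw [e]
  have h2 : (0 : ℝ) ≤ (D - 1) ^ 2 / D ^ 2 := by positivity
  rw [min_eq_right (by linarith : (1 : ℝ) ≤ 1 + (D - 1) ^ 2 / D ^ 2), min_eq_right (by linarith)]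

private theorem gfun_range (D : ℝ) (hD : 2 ≤ D) (u : ℝ) (h0 : 0 ≤ u) (h1 : u < 1) :
    0 ≤ gfun_g D u ∧ gfun_g D u < 1 := by
  have hD0 : 0 < D := by linarith
  constructor
  · rcases h0.eq_or_lt with h | h
    · rw [← h, gfun_g0 D hD]
    · have := gfun_gmono D hD0 _ _ h
      rw [gfun_g0 D hD] at this; exact this.le
  · have := gfun_gmono D hD0 _ _ h1
    rw [gfun_g1 D hD] at this; exact this

private theorem gfun_irange (D : ℝ) (hD : 2 ≤ D) (v : ℝ) (h0 : 0 ≤ v) (h1 : v < 1) :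
    0 ≤ gfun_i D v ∧ gfun_i D v < 1 := by
  have hD0 : 0 < D := by linarith
  constructor
  · by_contra hc
    have := gfun_gmono D hD0 _ _ (not_le.mp hc)
    rw [gfun_g0 D hD, gfun_gi D hD0] at this; linarith
  · by_contra hc
    rcases (not_lt.mp hc).eq_or_lt with h | h
    · have := gfun_gi D hD0 v
      rw [← h, gfun_g1 D hD] at this; linarith
    · have := gfun_gmono D hD0 _ _ h
      rw [gfun_g1 D hD, gfun_gi D hD0] at this; linarith

/-- maps of `[0,1)` acting on the cone by a map of `[0,1)` -/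
private theorem gfun_lift (d m b : ℕ) (hd : 2 ≤ d) (hb : b < d ^ m) (φ : ℝ → ℝ)
    (hφ : ∀ u, 0 ≤ u → u < 1 → 0 ≤ φ u ∧ φ u < 1) : ∃ F : X → X,
    (∀ s, s ∉ cone d m b → F s = s) ∧
    (∀ s ∈ cone d m b, F s ∈ cone d m b ∧ (d : ℝ) ^ m * (F s : ℝ) = b + φ ((d : ℝ) ^ m * s - b)) := by
  classical
  have key : ∀ s : X, ∃ t : X, (s ∉ cone d m b → t = s) ∧ (s ∈ cone d m b → t ∈ cone d m b ∧
      (d : ℝ) ^ m * (t : ℝ) = b + φ ((d : ℝ) ^ m * s - b)) := by
    intro s
    by_cases hs : s ∈ cone d m b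
    · have h2 : (b : ℝ) ≤ (d : ℝ) ^ m * s ∧ (d : ℝ) ^ m * s < b + 1 := hs
      obtain ⟨h0, h1⟩ := hφ ((d : ℝ) ^ m * s - b) (by linarith [h2.1]) (by linarith [h2.2])
      obtain ⟨t, ht, e⟩ := cpt d m b hd hb _ h0 h1
      exact ⟨t, fun h => absurd hs h, fun _ => ⟨ht, e⟩⟩
    · exact ⟨s, fun _ => rfl, fun h => absurd h hs⟩
  choose F h1 h2 using key
  exact ⟨F, h1, h2⟩

private theorem gfun_cm (d m b : ℕ) (hd : 2 ≤ d) (g : Equiv.Perm X)
    (hoff : ∀ s, s ∉ cone d m b → g s = s)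
    (hon : ∀ s ∈ cone d m b, (d : ℝ) ^ m * (g s : ℝ) = b + gfun_g d ((d : ℝ) ^ m * s - b)) :
    IsVd d g := by
  have hD : (2 : ℝ) ≤ d := by exact_mod_cast hd
  have hD0 : (0 : ℝ) < d := by linarith
  apply vlev2 d hd g (m + 2)
  intro a ha
  by_cases hab : a / d ^ 2 = b
  · -- inside the cone
    obtain ⟨r, hr⟩ : ∃ r, r = a % d ^ 2 := ⟨_, rfl⟩
    have har : a = b * d ^ 2 + r := by
      rw [hr, ← hab, mul_comm]; exact (Nat.div_add_mod a (d ^ 2)).symm
    have hrd : r < d ^ 2 := by rw [hr]; exact Nat.mod_lt _ (by positivity)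
    have harR : (a : ℝ) = b * (d : ℝ) ^ 2 + r := by rw [har]; push_cast; ring
    have hsub := (cnest d m b (m + 2) a hd (by omega)).2 (by simpa using hab)
    have hval : ∀ s ∈ cone d (m + 2) a, (d : ℝ) ^ m * (g s : ℝ) = b +
        gfun_g d ((r + ((d : ℝ) ^ (m + 2) * s - a)) / d ^ 2) ∧
        (a : ℝ) ≤ (d : ℝ) ^ (m + 2) * s ∧ (d : ℝ) ^ (m + 2) * s < a + 1 := by
      intro s hs
      refine ⟨?_, hs.1, hs.2⟩
      rw [hon s (hsub hs)]
      congr 2
      rw [eq_div_iff (by positivity), harR, pow_add]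
      ring
    rcases Nat.lt_or_ge r (d - 1) with h1 | h1
    · refine ⟨m + 1, b * d + r, ?_⟩
      intro s hs
      obtain ⟨e, w0, w1⟩ := hval s hs
      obtain ⟨w, hw⟩ : ∃ w, w = (d : ℝ) ^ (m + 2) * s - a := ⟨_, rfl⟩
      rw [← hw] at e ⊢
      have w0' : 0 ≤ w := by rw [hw]; linarith
      have w1' : w < 1 := by rw [hw]; linarith
      have hrR : (r : ℝ) + 1 ≤ d - 1 := by
        have : r + 1 + 1 ≤ d := by omega
        have : ((r + 1 + 1 : ℕ) : ℝ) ≤ d := by exact_mod_cast this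
        push_cast at this; linarith
      have hg : gfun_g d ((r + w) / d ^ 2) = (r + w) / d := by
        unfold gfun_g
        have e1 : (d : ℝ) * ((r + w) / d ^ 2) = (r + w) / d := by field_simp
        rw [e1]
        apply min_eq_left
        refine le_min ?_ ?_
        · rw [← sub_nonneg]
          have : (r + w) / (d : ℝ) ^ 2 + ((d : ℝ) - 1) ^ 2 / d ^ 2 - (r + w) / d =
            ((d : ℝ) - 1) * ((d - 1) - (r + w)) / d ^ 2 := by field_simp; ring
          rw [this]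
          apply div_nonneg (mul_nonneg (by linarith) (by linarith)) (by positivity)
        · rw [← sub_nonneg]
          have : ((r + w) / (d : ℝ) ^ 2 + (d : ℝ) - 1) / d - (r + w) / d =
            ((d : ℝ) ^ 2 * (d - 1) - (d ^ 2 - 1) * (r + w)) / d ^ 3 := by field_simp; ring
          rw [this]
          apply div_nonneg _ (by positivity)
          have : ((d : ℝ) ^ 2 - 1) * (r + w) ≤ (d ^ 2 - 1) * (d - 1) :=
            mul_le_mul_of_nonneg_left (by linarith) (by nlinarith)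
          nlinarith
      rw [hg] at e
      rw [pow_succ, mul_comm ((d : ℝ) ^ m) d, mul_assoc, e]
      push_cast
      field_simp
      ring
    · rcases Nat.lt_or_ge r d with h2 | h2
      · have hrR : (d : ℝ) - 1 = r := by
          have : d = r + 1 := by omega
          rw [this]; push_cast; ring
        refine ⟨m + 2, b * d ^ 2 + r + (d - 1) ^ 2, ?_⟩
        intro s hs
        obtain ⟨e, w0, w1⟩ := hval s hs
        obtain ⟨w, hw⟩ : ∃ w, w = (d : ℝ) ^ (m + 2) * s - a := ⟨_, rfl⟩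
        rw [← hw] at e ⊢
        have w0' : 0 ≤ w := by rw [hw]; linarith
        have w1' : w < 1 := by rw [hw]; linarith
        have hg : gfun_g d ((r + w) / d ^ 2) = (r + w) / d ^ 2 + ((d : ℝ) - 1) ^ 2 / d ^ 2 := by
          unfold gfun_g
          have e1 : (d : ℝ) * ((r + w) / d ^ 2) = (r + w) / d := by field_simp
          have l2 : (r + w) / (d : ℝ) ^ 2 + ((d : ℝ) - 1) ^ 2 / d ^ 2 ≤
              ((r + w) / (d : ℝ) ^ 2 + (d : ℝ) - 1) / d := by
            rw [← sub_nonneg]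
            have : ((r + w) / (d : ℝ) ^ 2 + (d : ℝ) - 1) / d - ((r + w) / (d : ℝ) ^ 2 +
              ((d : ℝ) - 1) ^ 2 / d ^ 2) = ((d : ℝ) - 1) * (d - (r + w)) / d ^ 3 := by
              field_simp; ring
            rw [this]
            apply div_nonneg (mul_nonneg (by linarith) (by linarith)) (by positivity)
          rw [min_eq_left l2, e1]
          apply min_eq_right
          rw [← sub_nonneg]
          have : (r + w) / (d : ℝ) - ((r + w) / (d : ℝ) ^ 2 + ((d : ℝ) - 1) ^ 2 / d ^ 2) =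
            ((d : ℝ) - 1) * ((r + w) - (d - 1)) / d ^ 2 := by field_simp; ring
          rw [this]
          apply div_nonneg (mul_nonneg (by linarith) (by linarith)) (by positivity)
        rw [hg] at e
        rw [pow_add, mul_comm ((d : ℝ) ^ m), mul_assoc, e]
        have hc : (((d - 1) ^ 2 : ℕ) : ℝ) = ((d : ℝ) - 1) ^ 2 := by
          push_cast [Nat.cast_sub (by omega : 1 ≤ d)]; ring
        rw [Nat.cast_add, hc]
        push_cast
        field_simp
        ring
      · have hrR : (d : ℝ) ≤ r := by exact_mod_cast h2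
        refine ⟨m + 3, b * d ^ 3 + r + d ^ 2 * (d - 1), ?_⟩
        intro s hs
        obtain ⟨e, w0, w1⟩ := hval s hs
        obtain ⟨w, hw⟩ : ∃ w, w = (d : ℝ) ^ (m + 2) * s - a := ⟨_, rfl⟩
        rw [← hw] at e ⊢
        have w0' : 0 ≤ w := by rw [hw]; linarith
        have w1' : w < 1 := by rw [hw]; linarith
        have hrR2 : (r : ℝ) + w ≤ (d : ℝ) ^ 2 := by
          have : ((r + 1 : ℕ) : ℝ) ≤ ((d ^ 2 : ℕ) : ℝ) := by exact_mod_cast hrd
          push_cast at this; linarith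
        have hg : gfun_g d ((r + w) / d ^ 2) = ((r + w) / (d : ℝ) ^ 2 + (d : ℝ) - 1) / d := by
          unfold gfun_g
          have e1 : (d : ℝ) * ((r + w) / d ^ 2) = (r + w) / d := by field_simp
          have l2 : ((r + w) / (d : ℝ) ^ 2 + (d : ℝ) - 1) / d ≤
              (r + w) / (d : ℝ) ^ 2 + ((d : ℝ) - 1) ^ 2 / d ^ 2 := by
            rw [← sub_nonneg]
            have : (r + w) / (d : ℝ) ^ 2 +
              ((d : ℝ) - 1) ^ 2 / d ^ 2 - ((r + w) / (d : ℝ) ^ 2 + (d : ℝ) - 1) / d =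
                ((d : ℝ) - 1) * ((r + w) - d) / d ^ 3 := by
              field_simp; ring
            rw [this]
            apply div_nonneg (mul_nonneg (by linarith) (by linarith)) (by positivity)
          rw [min_eq_right l2, e1]
          apply min_eq_right
          rw [← sub_nonneg]
          have : (r + w) / (d : ℝ) - ((r + w) / (d : ℝ) ^ 2 + (d : ℝ) - 1) / d =
            ((d : ℝ) - 1) * ((d + 1) * (r + w) - d ^ 2) / d ^ 3 := by field_simp; ring
          rw [this]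
          have h3 : ((d : ℝ) + 1) * d ≤ (d + 1) * (r + w) :=
            mul_le_mul_of_nonneg_left (by linarith) (by linarith)
          apply div_nonneg (mul_nonneg (by linarith) (by nlinarith)) (by positivity)
        rw [hg] at e
        rw [pow_add, mul_comm ((d : ℝ) ^ m), mul_assoc, e]
        have hc : ((d ^ 2 * (d - 1) : ℕ) : ℝ) = (d : ℝ) ^ 2 * ((d : ℝ) - 1) := by
          push_cast [Nat.cast_sub (by omega : 1 ≤ d)]; ring
        rw [Nat.cast_add, hc]
        push_cast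
        field_simp
        ring
  · refine ⟨m + 2, a, ?_⟩
    intro s hs
    have hsn : s ∉ cone d m b := by
      intro hc
      exact hab (by simpa using (cnest d m b (m + 2) a hd (by omega)).1 ⟨s, hc, hs⟩)
    rw [hoff s hsn]; ring

/-- The piecewise linear function `g(u) = min (d u) (min (u + (d-1)²/d²) ((u + d - 1)/d))` of `[0,1]`:
breakpoints `(d-1)/d²` and `1/d`, slopes `d, 1, 1/d`. It is a strictly increasing bijection of
`[0,1)`, and `g(u) > u` on `(0,1)`; here as the permutation `g` of `X` supported on the cone `(m,b)`: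
`d^m g(s) = b + gf(d^m s - b)`, `gf` the function above. In `F_d`. -/
theorem gfun (d m b : ℕ) (hd : 2 ≤ d) (hb : b < d ^ m) : ∃ g : Equiv.Perm X, IsFd d g ∧
    (∀ s, s ∉ cone d m b → g s = s) ∧
    (∀ s ∈ cone d m b, (d : ℝ) ^ m * (g s : ℝ) = b +
      min ((d : ℝ) * ((d : ℝ) ^ m * s - b)) (min (((d : ℝ) ^ m * s - b) + ((d : ℝ) - 1) ^ 2 / d ^ 2)
        ((((d : ℝ) ^ m * s - b) + d - 1) / d))) := by
  have hD : (2 : ℝ) ≤ d := by exact_mod_cast hd
  have hD0 : (0 : ℝ) < d := by linarith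
  have hDm : (0 : ℝ) < (d : ℝ) ^ m := by positivity
  obtain ⟨F, F1, F2⟩ := gfun_lift d m b hd hb (gfun_g d) (gfun_range d hD)
  obtain ⟨H, H1, H2⟩ := gfun_lift d m b hd hb (gfun_i d) (gfun_irange d hD)
  have hHF : ∀ s, H (F s) = s := by
    intro s
    by_cases hs : s ∈ cone d m b
    · have h3 := (H2 (F s) (F2 s hs).1).2
      rw [(F2 s hs).2, add_sub_cancel_left, gfun_ig d hD0] at h3
      apply Subtype.ext
      apply mul_left_cancel₀ hDm.ne'
      rw [h3]; ring
    · rw [F1 s hs, H1 s hs]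
  have hFH : ∀ s, F (H s) = s := by
    intro s
    by_cases hs : s ∈ cone d m b
    · have h3 := (F2 (H s) (H2 s hs).1).2
      rw [(H2 s hs).2, add_sub_cancel_left, gfun_gi d hD0] at h3
      apply Subtype.ext
      apply mul_left_cancel₀ hDm.ne'
      rw [h3]; ring
    · rw [H1 s hs, F1 s hs]
  refine ⟨⟨F, H, hHF, hFH⟩, ⟨?_, ?_⟩, F1, fun s hs => (F2 s hs).2⟩
  · exact gfun_cm d m b hd ⟨F, H, hHF, hFH⟩ F1 (fun s hs => (F2 s hs).2)
  · intro s t hst
    have hst' : (s : ℝ) < t := hst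
    show (F s : ℝ) < F t
    apply lt_of_mul_lt_mul_left _ hDm.le
    have hmul : (d : ℝ) ^ m * (s : ℝ) < (d : ℝ) ^ m * t := mul_lt_mul_of_pos_left hst' hDm
    by_cases hs : s ∈ cone d m b
    · have ks : (b : ℝ) ≤ (d : ℝ) ^ m * (F s : ℝ) ∧ (d : ℝ) ^ m * (F s : ℝ) < b + 1 := (F2 s hs).1
      have ls : (b : ℝ) ≤ (d : ℝ) ^ m * s ∧ (d : ℝ) ^ m * s < b + 1 := hs
      by_cases ht : t ∈ cone d m b
      · rw [(F2 s hs).2, (F2 t ht).2]
        have := gfun_gmono d hD0 ((d : ℝ) ^ m * s - b) ((d : ℝ) ^ m * t - b) (by linarith)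
        linarith
      · rw [F1 t ht]
        have : (b : ℝ) + 1 ≤ (d : ℝ) ^ m * t := by
          by_contra hc
          exact ht ⟨by linarith [ls.1], not_le.mp hc⟩
        linarith [ks.2]
    · rw [F1 s hs]
      by_cases ht : t ∈ cone d m b
      · have kt : (b : ℝ) ≤ (d : ℝ) ^ m * (F t : ℝ) ∧ (d : ℝ) ^ m * (F t : ℝ) < b + 1 := (F2 t ht).1
        have lt' : (b : ℝ) ≤ (d : ℝ) ^ m * t ∧ (d : ℝ) ^ m * t < b + 1 := ht
        have : (d : ℝ) ^ m * s < b := by
          by_contra hc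
          exact hs ⟨not_lt.mp hc, by linarith [lt'.2]⟩
        linarith [kt.1]
      · rw [F1 t ht]; exact hmul
-- END gfun

/-- `g` is a push on the cone `(m,b)`: the identity off it, increasing all points of its interior
inside it, with orbits converging to the right end. -/
structure IsPush (d m b : ℕ) (g : Equiv.Perm X) : Prop where
  fd : IsFd d g
  off : ∀ s, s ∉ cone d m b → g s = s
  left : ∀ s : X, (d : ℝ) ^ m * s = b → g s = s
  up : ∀ s : X, (b : ℝ) < (d : ℝ) ^ m * s → (d : ℝ) ^ m * s < b + 1 → s < g s ∧ g s ∈ cone d m b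
  lim : ∀ s : X, (b : ℝ) < (d : ℝ) ^ m * s → (d : ℝ) ^ m * s < b + 1 → ∀ ε : ℝ, 0 < ε →
    ∃ N : ℕ, ∀ n ≥ N, (b : ℝ) + 1 - ε < (d : ℝ) ^ m * ((g ^ n) s : ℝ)

-- BEGIN expush
/-- Pushes exist (`gfun`; the limit `L ≤ 1` of `gf^n(u)` is a fixed point of the continuous
function `gf`, so `L = 1`). -/
theorem expush (d m b : ℕ) (hd : 2 ≤ d) (hb : b < d ^ m) : ∃ g, IsPush d m b g := by
  obtain ⟨g, hfd, hoff, hg⟩ := gfun d m b hd hb
  have hd' : (2 : ℝ) ≤ d := by exact_mod_cast hd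
  have hd0 : (0 : ℝ) < d := by linarith
  have hD : (0 : ℝ) < (d : ℝ) ^ m := by positivity
  let gf : ℝ → ℝ := fun u => min ((d : ℝ) * u) (min (u + ((d : ℝ) - 1) ^ 2 / d ^ 2) ((u + d - 1) / d))
  have hg' : ∀ s ∈ cone d m b, (d : ℝ) ^ m * (g s : ℝ) = b + gf ((d : ℝ) ^ m * s - b) := hg
  have h14 : (1 / 4 : ℝ) ≤ ((d : ℝ) - 1) ^ 2 / d ^ 2 := by
    rw [div_le_div_iff₀ (by norm_num) (by positivity)]
    nlinarith
  have inc : ∀ u ε : ℝ, 0 ≤ u → u ≤ 1 - ε → 0 ≤ ε → u + min u (min (1 / 4) (ε / 2)) ≤ gf u := by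
    intro u ε hu hu1 hε
    refine le_min ?_ (le_min ?_ ?_)
    · have h1 : min u (min (1 / 4) (ε / 2)) ≤ u := min_le_left _ _
      nlinarith
    · have h1 : min u (min (1 / 4) (ε / 2)) ≤ 1 / 4 := (min_le_right _ _).trans (min_le_left _ _)
      linarith
    · have h1 : min u (min (1 / 4) (ε / 2)) ≤ ε / 2 := (min_le_right _ _).trans (min_le_right _ _)
      rw [le_div_iff₀ hd0]
      have h2 : (u + min u (min (1 / 4) (ε / 2))) * d ≤ (u + ε / 2) * d :=
        mul_le_mul_of_nonneg_right (by linarith) hd0.le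
      nlinarith
  have upb : ∀ u : ℝ, u < 1 → gf u < 1 := by
    intro u hu
    refine lt_of_le_of_lt ((min_le_right _ _).trans (min_le_right _ _)) ?_
    rw [div_lt_one hd0]
    linarith
  have zero : gf 0 = 0 := by
    refine le_antisymm ((min_le_left _ _).trans (by rw [mul_zero])) ?_
    have h1 := inc 0 0 le_rfl (by norm_num) le_rfl
    have h2 : min (0 : ℝ) (min (1 / 4) (0 / 2)) = 0 := by norm_num
    rw [h2] at h1
    linarith
  have up1 : ∀ s : X, (b : ℝ) < (d : ℝ) ^ m * s → (d : ℝ) ^ m * s < b + 1 →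
      s < g s ∧ (b : ℝ) < (d : ℝ) ^ m * (g s : ℝ) ∧ (d : ℝ) ^ m * (g s : ℝ) < b + 1 := by
    intro s h0 h1
    have hs : s ∈ cone d m b := ⟨h0.le, h1⟩
    have h2 := hg' s hs
    have h3 := inc ((d : ℝ) ^ m * s - b) (1 - ((d : ℝ) ^ m * s - b)) (by linarith) (by linarith)
      (by linarith)
    have h4 := upb ((d : ℝ) ^ m * s - b) (by linarith)
    have h5 : 0 < min ((d : ℝ) ^ m * s - b) (min (1 / 4) ((1 - ((d : ℝ) ^ m * s - b)) / 2)) :=
      lt_min (by linarith) (lt_min (by norm_num) (by linarith))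
    refine ⟨?_, by linarith, by linarith⟩
    have h6 : (d : ℝ) ^ m * (s : ℝ) < (d : ℝ) ^ m * (g s : ℝ) := by linarith
    show (s : ℝ) < (g s : ℝ)
    exact lt_of_mul_lt_mul_left h6 hD.le
  refine ⟨g, hfd, hoff, ?_, ?_, ?_⟩
  · intro s hs
    have h1 := hg' s ⟨hs.ge, by linarith⟩
    rw [hs, sub_self, zero, add_zero, ← hs] at h1
    apply Subtype.ext
    exact mul_left_cancel₀ hD.ne' h1
  · intro s h0 h1
    obtain ⟨h2, h3, h4⟩ := up1 s h0 h1
    exact ⟨h2, h3.le, h4⟩
  · intro s h0 h1 ε hε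
    have step : ∀ n : ℕ, (g ^ (n + 1)) s = g ((g ^ n) s) := fun n => by
      rw [pow_succ', Equiv.Perm.mul_apply]
    have h2 : ∀ n : ℕ, (b : ℝ) < (d : ℝ) ^ m * ((g ^ n) s : ℝ) ∧
        (d : ℝ) ^ m * ((g ^ n) s : ℝ) < b + 1 := by
      intro n
      induction n with
      | zero => exact ⟨h0, h1⟩
      | succ n ih =>
        rw [step]
        obtain ⟨-, h3, h4⟩ := up1 _ ih.1 ih.2
        exact ⟨h3, h4⟩
    have hmono : Monotone fun n : ℕ => (d : ℝ) ^ m * ((g ^ n) s : ℝ) := by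
      refine monotone_nat_of_le_succ fun n => ?_
      rw [step]
      exact mul_le_mul_of_nonneg_left (up1 _ (h2 n).1 (h2 n).2).1.le hD.le
    have h3 : ∃ N : ℕ, (b : ℝ) + 1 - ε < (d : ℝ) ^ m * ((g ^ N) s : ℝ) := by
      by_contra hno
      push Not at hno
      set c : ℝ := min ((d : ℝ) ^ m * s - b) (min (1 / 4) (ε / 2)) with hc
      have hc0 : 0 < c := lt_min (by linarith) (lt_min (by norm_num) (by linarith))
      have h4 : ∀ n : ℕ, (d : ℝ) ^ m * s + n * c ≤ (d : ℝ) ^ m * ((g ^ n) s : ℝ) := by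
        intro n
        induction n with
        | zero => simp
        | succ n ih =>
          rw [step, hg' _ ⟨(h2 n).1.le, (h2 n).2⟩]
          have h5 := inc ((d : ℝ) ^ m * ((g ^ n) s : ℝ) - b) ε (by linarith [(h2 n).1])
            (by linarith [hno n]) hε.le
          have h6 : (d : ℝ) ^ m * (s : ℝ) ≤ (d : ℝ) ^ m * ((g ^ n) s : ℝ) := by
            have h7 := hmono (Nat.zero_le n)
            simpa using h7
          have h7 : c ≤ min ((d : ℝ) ^ m * ((g ^ n) s : ℝ) - b) (min (1 / 4) (ε / 2)) :=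
            min_le_min (by linarith) le_rfl
          rw [Nat.cast_succ]
          linarith
      obtain ⟨n, hn⟩ := exists_nat_gt (1 / c)
      have h5 := h4 n
      have h6 := (h2 n).2
      have h7 : 1 < n * c := by
        rwa [div_lt_iff₀ hc0] at hn
      linarith
    obtain ⟨N, hN⟩ := h3
    exact ⟨N, fun n hn => lt_of_lt_of_le hN (hmono hn)⟩
-- END expush

-- BEGIN exrot
/-- Rotations by `j / d^m` are in `T_d` (two intervals; `Homeomorph.addRight`). -/
theorem exrot (d m j : ℕ) (hd : 2 ≤ d) (hj : j < d ^ m) : ∃ r : Equiv.Perm X, IsTd d r ∧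
    ∀ s : X, (r s : ℝ) = if (s : ℝ) + j / d ^ m < 1 then (s : ℝ) + j / d ^ m
      else (s : ℝ) + j / d ^ m - 1 := by
  have hd0 : (0 : ℝ) < d := by exact_mod_cast (by omega : 0 < d)
  have hp : (0 : ℝ) < (d : ℝ) ^ m := pow_pos hd0 m
  have hjr : (j : ℝ) < (d : ℝ) ^ m := by exact_mod_cast hj
  obtain ⟨c, hc⟩ : ∃ c : ℝ, c = (j : ℝ) / (d : ℝ) ^ m := ⟨_, rfl⟩
  have hcm : (d : ℝ) ^ m * c = j := by rw [hc]; field_simp
  have hc0 : 0 ≤ c := by rw [hc]; positivity
  have hc1 : c < 1 := by rw [hc, div_lt_one hp]; exact hjr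
  have m1 : ∀ x : X, (if (x : ℝ) + c < 1 then (x : ℝ) + c else (x : ℝ) + c - 1) ∈ Set.Ico (0 : ℝ) 1 := by
    intro x
    have h0 := x.2.1
    have h1 := x.2.2
    split_ifs with h
    · exact ⟨by linarith, h⟩
    · exact ⟨by linarith [not_lt.1 h], by linarith⟩
  have m2 : ∀ x : X, (if 0 ≤ (x : ℝ) - c then (x : ℝ) - c else (x : ℝ) - c + 1) ∈ Set.Ico (0 : ℝ) 1 := by
    intro x
    have h0 := x.2.1
    have h1 := x.2.2
    split_ifs with h
    · exact ⟨h, by linarith⟩
    · exact ⟨by linarith, by linarith [not_le.1 h]⟩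
  let r : Equiv.Perm X :=
    { toFun := fun s => ⟨_, m1 s⟩
      invFun := fun s => ⟨_, m2 s⟩
      left_inv := by
        intro s
        apply Subtype.ext
        show (if 0 ≤ (if (s : ℝ) + c < 1 then (s : ℝ) + c else (s : ℝ) + c - 1) - c
          then (if (s : ℝ) + c < 1 then (s : ℝ) + c else (s : ℝ) + c - 1) - c
          else (if (s : ℝ) + c < 1 then (s : ℝ) + c else (s : ℝ) + c - 1) - c + 1) = (s : ℝ)
        have h0 := s.2.1
        have h1 := s.2.2
        by_cases h : (s : ℝ) + c < 1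
        · rw [if_pos h, if_pos (by linarith)]
          ring
        · rw [if_neg h, if_neg (by linarith)]
          ring
      right_inv := by
        intro s
        apply Subtype.ext
        show (if (if 0 ≤ (s : ℝ) - c then (s : ℝ) - c else (s : ℝ) - c + 1) + c < 1
          then (if 0 ≤ (s : ℝ) - c then (s : ℝ) - c else (s : ℝ) - c + 1) + c
          else (if 0 ≤ (s : ℝ) - c then (s : ℝ) - c else (s : ℝ) - c + 1) + c - 1) = (s : ℝ)
        have h0 := s.2.1
        have h1 := s.2.2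
        by_cases h : 0 ≤ (s : ℝ) - c
        · rw [if_pos h, if_pos (by linarith)]
          ring
        · rw [if_neg h, if_neg (by linarith)]
          ring }
  have hr : ∀ s : X, (r s : ℝ) = if (s : ℝ) + c < 1 then (s : ℝ) + c else (s : ℝ) + c - 1 := fun s => rfl
  refine ⟨r, ⟨?_, ?_⟩, fun s => ?_⟩
  · refine vlev2 d hd r m fun a ha => ⟨m, if a + j < d ^ m then a + j else a + j - d ^ m, ?_⟩
    intro s hs
    have hs1 := hs.1
    have hs2 := hs.2
    rw [hr]
    by_cases h : a + j < d ^ m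
    · have h' : (a : ℝ) + j + 1 ≤ (d : ℝ) ^ m := by exact_mod_cast h
      have h2 : (s : ℝ) + c < 1 := by
        have h3 : (d : ℝ) ^ m * ((s : ℝ) + c) < (d : ℝ) ^ m * 1 := by
          rw [mul_add, hcm]
          linarith
        exact lt_of_mul_lt_mul_left h3 hp.le
      rw [if_pos h2, if_pos h, mul_add, hcm]
      push_cast
      ring
    · have h' : (d : ℝ) ^ m ≤ (a : ℝ) + j := by exact_mod_cast not_lt.1 h
      have h2 : ¬ (s : ℝ) + c < 1 := by
        intro h3
        have h4 : (d : ℝ) ^ m * ((s : ℝ) + c) < (d : ℝ) ^ m * 1 := mul_lt_mul_of_pos_left h3 hp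
        rw [mul_add, hcm] at h4
        linarith
      rw [if_neg h2, if_neg h, mul_sub, mul_add, hcm, Nat.cast_sub (not_lt.1 h)]
      push_cast
      ring
  · refine ⟨Homeomorph.addRight ((c : ℝ) : AddCircle (1 : ℝ)), fun s => ?_⟩
    rw [hr]
    show ((s : ℝ) : AddCircle (1 : ℝ)) + ((c : ℝ) : AddCircle (1 : ℝ)) = _
    split_ifs
    · rfl
    · rw [AddCircle.coe_sub, AddCircle.coe_period, sub_zero]
      rfl
  · rw [hr, hc]
-- END exrot

-- BEGIN fdtd
/-- Lift to the line of a permutation of `[0,1)`. -/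
private noncomputable def fdtd_L (g : Equiv.Perm X) (x : ℝ) : ℝ :=
  (⌊x⌋ : ℝ) + ((g ⟨Int.fract x, Int.fract_nonneg x, Int.fract_lt_one x⟩ : X) : ℝ)

private theorem fdtd_floor (g : Equiv.Perm X) (x : ℝ) : ⌊fdtd_L g x⌋ = ⌊x⌋ := by
  unfold fdtd_L
  have h := (g ⟨Int.fract x, Int.fract_nonneg x, Int.fract_lt_one x⟩).2
  rw [Int.floor_eq_iff]
  exact ⟨by linarith [h.1], by linarith [h.2]⟩

private theorem fdtd_fract (g : Equiv.Perm X) (x : ℝ) : Int.fract (fdtd_L g x) =
    ((g ⟨Int.fract x, Int.fract_nonneg x, Int.fract_lt_one x⟩ : X) : ℝ) := by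
  unfold Int.fract
  rw [fdtd_floor]
  unfold fdtd_L
  simp only [Int.fract]
  ring

private theorem fdtd_inv (g k : Equiv.Perm X) (h : ∀ s, g (k s) = s) (x : ℝ) :
    fdtd_L g (fdtd_L k x) = x := by
  have e : (⟨Int.fract (fdtd_L k x), Int.fract_nonneg _, Int.fract_lt_one _⟩ : X) =
      k ⟨Int.fract x, Int.fract_nonneg x, Int.fract_lt_one x⟩ := Subtype.ext (fdtd_fract k x)
  have e2 : fdtd_L g (fdtd_L k x) = (⌊fdtd_L k x⌋ : ℝ) +
      ((g ⟨Int.fract (fdtd_L k x), Int.fract_nonneg _, Int.fract_lt_one _⟩ : X) : ℝ) := rfl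
  rw [e2, e, h, fdtd_floor]
  exact Int.floor_add_fract x

private theorem fdtd_mono (g : Equiv.Perm X) (hg : StrictMono g) : StrictMono (fdtd_L g) := by
  intro x y hxy
  unfold fdtd_L
  have h1 := (g ⟨Int.fract x, Int.fract_nonneg x, Int.fract_lt_one x⟩).2
  have h2 := (g ⟨Int.fract y, Int.fract_nonneg y, Int.fract_lt_one y⟩).2
  rcases lt_or_eq_of_le (Int.floor_mono hxy.le) with h | h
  · have h3 : (⌊x⌋ : ℝ) + 1 ≤ ⌊y⌋ := by exact_mod_cast h
    linarith [h1.2, h2.1]
  · have h3 : (⟨Int.fract x, Int.fract_nonneg x, Int.fract_lt_one x⟩ : X) <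
        ⟨Int.fract y, Int.fract_nonneg y, Int.fract_lt_one y⟩ := by
      show Int.fract x < Int.fract y
      unfold Int.fract
      rw [h]
      linarith
    have h4 := hg h3
    have h5 : ((g ⟨Int.fract x, Int.fract_nonneg x, Int.fract_lt_one x⟩ : X) : ℝ) <
      ((g ⟨Int.fract y, Int.fract_nonneg y, Int.fract_lt_one y⟩ : X) : ℝ) := h4
    rw [h]
    linarith

private theorem fdtd_per (g : Equiv.Perm X) (x : ℝ) : fdtd_L g (x + 1) = fdtd_L g x + 1 := by
  have e : (⟨Int.fract (x + 1), Int.fract_nonneg _, Int.fract_lt_one _⟩ : X) =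
      ⟨Int.fract x, Int.fract_nonneg x, Int.fract_lt_one x⟩ :=
    Subtype.ext (Int.fract_add_one x)
  have e2 : fdtd_L g (x + 1) = (⌊x + 1⌋ : ℝ) +
      ((g ⟨Int.fract (x + 1), Int.fract_nonneg _, Int.fract_lt_one _⟩ : X) : ℝ) := rfl
  rw [e2, e, Int.floor_add_one]
  unfold fdtd_L
  push_cast
  ring

private theorem fdtd_cont (g k : Equiv.Perm X) (hg : StrictMono g) (h : ∀ s, g (k s) = s) :
    Continuous (fdtd_L g) := by
  let e : ℝ ≃o ℝ := StrictMono.orderIsoOfRightInverse (fdtd_L g) (fdtd_mono g hg) (fdtd_L k)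
    (fun x => fdtd_inv g k h x)
  exact e.continuous

private theorem fdtd_perc (g : Equiv.Perm X) :
    Function.Periodic (fun x : ℝ => ((fdtd_L g x : ℝ) : AddCircle (1 : ℝ))) 1 := by
  intro x
  show ((fdtd_L g (x + 1) : ℝ) : AddCircle (1 : ℝ)) = ((fdtd_L g x : ℝ) : AddCircle (1 : ℝ))
  rw [fdtd_per]
  exact AddCircle.coe_add_period 1 _

private theorem fdtd_lc (g k : Equiv.Perm X) (hg : StrictMono g) (h : ∀ s, g (k s) = s) :
    Continuous (fdtd_perc g).lift := by
  unfold Function.Periodic.lift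
  refine Continuous.quotient_liftOn' ?_ _
  exact (AddCircle.continuous_mk' 1).comp (fdtd_cont g k hg h)

private theorem fdtd_li (g k : Equiv.Perm X) (h : ∀ s, g (k s) = s) (x : AddCircle (1 : ℝ)) :
    (fdtd_perc g).lift ((fdtd_perc k).lift x) = x := by
  induction x using QuotientAddGroup.induction_on with
  | H x =>
    rw [Function.Periodic.lift_coe, Function.Periodic.lift_coe, fdtd_inv g k h]

/-- `F_d ⊆ T_d`: an increasing permutation of `[0,1)` induces a homeomorphism of the circle. -/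
theorem fdtd (d : ℕ) (hd : 2 ≤ d) (f : Equiv.Perm X) (hf : IsFd d f) : IsTd d f := by
  obtain ⟨hv, hm⟩ := hf
  have hm' : StrictMono (f⁻¹ : Equiv.Perm X) := by
    intro a b hab
    by_contra hc
    have h1 := hm.monotone (not_lt.mp hc)
    have q1 : ∀ s, f (f⁻¹ s) = s := fun s => Equiv.apply_symm_apply f s
    rw [q1, q1] at h1
    exact absurd hab (not_lt.mpr h1)
  have h1 : ∀ s, f (f⁻¹ s) = s := fun s => Equiv.apply_symm_apply f s
  have h2 : ∀ s, f⁻¹ (f s) = s := fun s => Equiv.symm_apply_apply f s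
  refine ⟨hv, { toFun := (fdtd_perc f).lift
                invFun := (fdtd_perc f⁻¹).lift
                left_inv := fun x => fdtd_li f⁻¹ f h2 x
                right_inv := fun x => fdtd_li f f⁻¹ h1 x
                continuous_toFun := fdtd_lc f f⁻¹ hm h1
                continuous_invFun := fdtd_lc f⁻¹ f hm' h2 }, ?_⟩
  intro s
  show (fdtd_perc f).lift ((s : ℝ) : AddCircle (1 : ℝ)) = ((f s : ℝ) : AddCircle (1 : ℝ))
  rw [Function.Periodic.lift_coe]
  have e : fdtd_L f (s : ℝ) = (f s : ℝ) := by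
    unfold fdtd_L
    have hs := s.2
    have hfl : ⌊(s : ℝ)⌋ = 0 := Int.floor_eq_zero_iff.mpr hs
    have e1 : (⟨Int.fract (s : ℝ), Int.fract_nonneg _, Int.fract_lt_one _⟩ : X) = s := by
      apply Subtype.ext
      show Int.fract (s : ℝ) = s
      unfold Int.fract
      rw [hfl]
      simp
    rw [e1, hfl]
    simp
  show ((fdtd_L f (s : ℝ) : ℝ) : AddCircle (1 : ℝ)) = _
  rw [e]
-- END fdtd

-- BEGIN fdgrp
theorem fdgrp (d : ℕ) (hd : 2 ≤ d) : IsFd d 1 ∧ (∀ f, IsFd d f → IsFd d f⁻¹) ∧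
    ∀ f g, IsFd d f → IsFd d g → IsFd d (g * f) := by
  refine ⟨⟨vone d hd, fun a b h => h⟩, ?_, ?_⟩
  · rintro f ⟨hf, hm⟩
    refine ⟨vinv d hd f hf, ?_⟩
    intro a b h
    rw [← hm.lt_iff_lt]
    change f (f.symm a) < f (f.symm b)
    rw [f.apply_symm_apply, f.apply_symm_apply]
    exact h
  · rintro f g ⟨hf, hm⟩ ⟨hg, hm'⟩
    exact ⟨vmul d hd f g hf hg, fun a b h => hm' (hm h)⟩
-- END fdgrp

-- BEGIN tdgrp
theorem tdgrp (d : ℕ) (hd : 2 ≤ d) : IsTd d 1 ∧ (∀ f, IsTd d f → IsTd d f⁻¹) ∧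
    ∀ f g, IsTd d f → IsTd d g → IsTd d (g * f) := by
  refine ⟨⟨vone d hd, Homeomorph.refl _, fun s => rfl⟩, ?_, ?_⟩
  · rintro f ⟨hf, h, hh⟩
    refine ⟨vinv d hd f hf, h.symm, ?_⟩
    intro s
    rw [Homeomorph.symm_apply_eq, hh]
    change _ = (((f (f.symm s) : X) : ℝ) : AddCircle (1 : ℝ))
    rw [f.apply_symm_apply]
  · rintro f g ⟨hf, h, hh⟩ ⟨hg, h', hh'⟩
    refine ⟨vmul d hd f g hf hg, h.trans h', ?_⟩
    intro s
    rw [Homeomorph.trans_apply, hh, hh', Equiv.Perm.mul_apply]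
-- END tdgrp

end CarT
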