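import Pool.Agent.CarT.Defs
import Pool.Agent.CarT.Push

/-! The groups `F_d ≤ T_d ≤ V_d`. -/

namespace CarT

/-- The Higman–Thompson group `V_d` (`d ≥ 2`). -/
def Vd (d : ℕ) (hd : 2 ≤ d) : Subgroup (Equiv.Perm X) where
  carrier := {f | IsVd d f}
  one_mem' := vone d hd
  mul_mem' := fun {f g} hf hg => vmul d hd g f hg hf
  inv_mem' := fun {f} hf => vinv d hd f hf

/-- The Higman–Thompson group `T_d` (`d ≥ 2`). -/
def Td (d : ℕ) (hd : 2 ≤ d) : Subgroup (Equiv.Perm X) where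
  carrier := {f | IsTd d f}
  one_mem' := (tdgrp d hd).1
  mul_mem' := fun {f g} hf hg => (tdgrp d hd).2.2 g f hg hf
  inv_mem' := fun {f} hf => (tdgrp d hd).2.1 f hf

/-- The Higman–Thompson group `F_d` (`d ≥ 2`). -/
def Fd (d : ℕ) (hd : 2 ≤ d) : Subgroup (Equiv.Perm X) where
  carrier := {f | IsFd d f}
  one_mem' := (fdgrp d hd).1
  mul_mem' := fun {f g} hf hg => (fdgrp d hd).2.2 g f hg hf
  inv_mem' := fun {f} hf => (fdgrp d hd).2.1 f hf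

theorem mem_Vd (d : ℕ) (hd : 2 ≤ d) (f : Equiv.Perm X) : f ∈ Vd d hd ↔ IsVd d f := Iff.rfl
theorem mem_Td (d : ℕ) (hd : 2 ≤ d) (f : Equiv.Perm X) : f ∈ Td d hd ↔ IsTd d f := Iff.rfl
theorem mem_Fd (d : ℕ) (hd : 2 ≤ d) (f : Equiv.Perm X) : f ∈ Fd d hd ↔ IsFd d f := Iff.rfl

end CarT
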