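import Pool.Agent.CarT.Ops

/-! Operators: restrictions, translations, coefficients of elements of `L(G)` (rows). -/

open Filter Topology

namespace CarT

noncomputable section

-- BEGIN rnorm
/-- `‖f 1_S‖² = sum of |f(h)|² over h ∈ S` (lp.norm_rpow_eq_tsum, exponent `(2 : ENNReal).toReal = 2`). -/
theorem rnorm {G : Type} (S : Set G) (f : L2 G) :
    HasSum (fun h => S.indicator (fun h => ‖f h‖ ^ 2) h) (‖restr S f‖ ^ 2) := by
  have h2 : (2 : ENNReal).toReal = ((2 : ℕ) : ℝ) := by norm_num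
  have h := lp.hasSum_norm (p := 2) (by norm_num) (restr S f)
  rw [h2] at h
  simp only [Real.rpow_natCast] at h
  have hf : (fun h => S.indicator (fun h => ‖f h‖ ^ 2) h) = fun h => ‖restr S f h‖ ^ 2 := by
    funext x
    rw [restr_apply]
    by_cases hx : x ∈ S
    · rw [Set.indicator_of_mem hx, if_pos hx]
    · rw [Set.indicator_of_notMem hx, if_neg hx, norm_zero]
      norm_num
  rw [hf]
  exact h
-- END rnorm

-- BEGIN rsum
/-- Bessel: restrictions to pairwise disjoint sets. From `rnorm` (and `rnorm` with `S = univ`). -/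
theorem rsum {G ι : Type} (s : Finset ι) (S : ι → Set G)
    (hd : ∀ i ∈ s, ∀ j ∈ s, i ≠ j → Disjoint (S i) (S j)) (f : L2 G) :
    ∑ i ∈ s, ‖restr (S i) f‖ ^ 2 ≤ ‖f‖ ^ 2 := by
  classical
  have h1 : HasSum (fun h => ∑ i ∈ s, (S i).indicator (fun h => ‖f h‖ ^ 2) h)
      (∑ i ∈ s, ‖restr (S i) f‖ ^ 2) := hasSum_sum fun i _ => rnorm (S i) f
  have h2 : HasSum (fun h => (Set.univ : Set G).indicator (fun h => ‖f h‖ ^ 2) h)
      (‖restr (Set.univ : Set G) f‖ ^ 2) := rnorm _ f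
  have h3 : restr (Set.univ : Set G) f = f := by
    ext h
    simp
  rw [h3] at h2
  refine hasSum_le (fun h => ?_) h1 h2
  have hF : (0 : ℝ) ≤ ‖f h‖ ^ 2 := by positivity
  rw [Set.indicator_of_mem (Set.mem_univ h)]
  by_cases hex : ∃ i ∈ s, h ∈ S i
  · obtain ⟨i, hi, hhi⟩ := hex
    rw [Finset.sum_eq_single_of_mem i hi]
    · rw [Set.indicator_of_mem hhi]
    · intro j hj hji
      refine Set.indicator_of_notMem (fun hhj => ?_) _
      exact Set.disjoint_left.mp (hd j hj i hi hji) hhj hhi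
  · rw [Finset.sum_eq_zero]
    · exact hF
    · intro i hi
      exact Set.indicator_of_notMem (fun hhi => hex ⟨i, hi, hhi⟩) _
-- END rsum

-- BEGIN rinner
/-- `⟨1_S f, g⟩ = ⟨f, 1_S g⟩`. -/
theorem rinner {G : Type} (S : Set G) (f g : L2 G) :
    inner ℂ (restr S f) g = inner ℂ f (restr S g) := by
  classical
  rw [lp.inner_eq_tsum, lp.inner_eq_tsum]
  refine tsum_congr fun h => ?_
  rw [restr_apply, restr_apply]
  split_ifs with hh
  · rfl
  · rw [inner_zero_left, inner_zero_right]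
-- END rinner

-- BEGIN dlsum
/-- `f = sum of f(h) δ_h` (lp.hasSum_single) and `‖δ_g‖ = 1` and `⟨δ_g, f⟩ = f(g)`. -/
theorem dlsum {G : Type} (f : L2 G) :
    HasSum (fun h => f h • dl h) f ∧ (∀ g : G, ‖dl g‖ = 1) ∧
      ∀ g : G, inner ℂ (dl g) f = f g := by
  classical
  refine ⟨?_, fun g => ?_, fun g => ?_⟩
  · have h := lp.hasSum_single (p := 2) (by norm_num) f
    have hE : (fun h => f h • dl h) = fun i : G => lp.single 2 i (f i : ℂ) := by
      funext i
      ext j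
      show f i • dl i j = (lp.single 2 i (f i : ℂ) : L2 G) j
      rw [dl_apply, lp.single_apply]
      by_cases hj : j = i
      · subst hj; simp
      · rw [Pi.single_eq_of_ne hj, if_neg hj, smul_zero]
    rw [hE]
    exact h
  · unfold dl
    rw [lp.norm_single (by norm_num)]
    simp
  · unfold dl
    rw [lp.inner_single_left]
    simp
-- END dlsum

variable {G : Type} [Group G]

-- BEGIN lamb
/-- Basic facts on `λ`: `λ_g δ_h = δ_{gh}`, multiplicativity, `λ_g* = λ_{g⁻¹}`, unitarity,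
`λ_g ∈ L(G)`, `coef (λ_g) h = 1` iff `h = g` (else `0`). -/
theorem lamb : (∀ g h : G, lam g (dl h) = dl (g * h)) ∧ (∀ g h : G, lam g * lam h = lam (g * h)) ∧
    (∀ g : G, star (lam g) = lam g⁻¹) ∧ (∀ g : G, lam g ∈ unitary (Op G)) ∧
    (∀ g : G, lam g ∈ groupVN G) ∧ (∀ g : G, coef (lam g) g = 1) ∧
    (∀ g h : G, h ≠ g → coef (lam g) h = 0) ∧ (lam (1 : G) = 1) := by
  have a1 : ∀ g h : G, lam g (dl h) = dl (g * h) := by
    intro g h
    ext x
    rw [lam_apply, dl_apply, dl_apply]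
    by_cases hx : x = g * h
    · rw [if_pos hx, if_pos (by rw [hx, inv_mul_cancel_left])]
    · rw [if_neg hx, if_neg]
      intro h1
      exact hx (by rw [← h1, mul_inv_cancel_left])
  have a2 : ∀ g h : G, lam g * lam h = lam (g * h) := by
    intro g h
    ext f x
    show lam g (lam h f) x = lam (g * h) f x
    rw [lam_apply, lam_apply, lam_apply, mul_inv_rev, mul_assoc]
  have a8 : lam (1 : G) = 1 := by
    ext f x
    show lam (1 : G) f x = f x
    rw [lam_apply, inv_one, one_mul]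
  have a3 : ∀ g : G, star (lam g) = lam g⁻¹ := by
    intro g
    rw [ContinuousLinearMap.star_eq_adjoint]
    refine ((ContinuousLinearMap.eq_adjoint_iff _ _).2 fun f k => ?_).symm
    rw [lp.inner_eq_tsum, lp.inner_eq_tsum,
      ← (Equiv.mulLeft g).tsum_eq (fun i => inner ℂ (f i) (lam g k i))]
    refine tsum_congr fun i => ?_
    rw [lam_apply, lam_apply, inv_inv, Equiv.coe_mulLeft, inv_mul_cancel_left]
  have a4 : ∀ g : G, lam g ∈ unitary (Op G) := by
    intro g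
    rw [Unitary.mem_iff, a3, a2, a2, inv_mul_cancel, mul_inv_cancel, a8]
    exact ⟨rfl, rfl⟩
  refine ⟨a1, a2, a3, a4, fun g => ?_, fun g => ?_, fun g h hgh => ?_, a8⟩
  · exact Set.subset_centralizer_centralizer ⟨g, rfl⟩
  · show lam g (dl 1) g = 1
    rw [a1, mul_one, dl_apply, if_pos rfl]
  · show lam g (dl 1) h = 0
    rw [a1, mul_one, dl_apply, if_neg hgh]
-- END lamb

-- BEGIN vnalg
/-- The double commutant of a self-adjoint set is closed under sums, products, adjoints. For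
`star`: if `T ∈ S''` and `A ∈ S'` then `star A ∈ S'` as `S` is star closed. -/
theorem vnalg (S : Set (Op G)) (hS : ∀ a ∈ S, star a ∈ S) :
    S ⊆ vN S ∧ (∀ a ∈ vN S, ∀ b ∈ vN S, a * b ∈ vN S) ∧ (∀ a ∈ vN S, ∀ b ∈ vN S, a + b ∈ vN S) ∧
      (∀ a ∈ vN S, star a ∈ vN S) ∧ (1 : Op G) ∈ vN S ∧ (0 : Op G) ∈ vN S := by
  refine ⟨Set.subset_centralizer_centralizer, fun a ha b hb => Set.mul_mem_centralizer ha hb,
    fun a ha b hb => Set.add_mem_centralizer ha hb, fun a ha c hc => ?_, Set.one_mem_centralizer,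
    Set.zero_mem_centralizer⟩
  have h1 : star c ∈ Set.centralizer S := by
    intro s hs
    have h2 := hc (star s) (hS s hs)
    have h3 := congrArg star h2
    rw [star_mul, star_mul, star_star] at h3
    exact h3.symm
  have h4 := congrArg star (ha (star c) h1)
  rw [star_mul, star_mul, star_star] at h4
  exact h4.symm
-- END vnalg

-- BEGIN galg
/-- `L(G)` and `L(H)` are closed under products, sums, adjoints; `L(H) ⊆ L(G)`. From `vnalg`,
`lamb`; monotonicity of the double commutant. -/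
theorem galg : (∀ a ∈ groupVN G, ∀ b ∈ groupVN G, a * b ∈ groupVN G) ∧
    (∀ a ∈ groupVN G, ∀ b ∈ groupVN G, a + b ∈ groupVN G) ∧
    (∀ a ∈ groupVN G, star a ∈ groupVN G) ∧ (1 : Op G) ∈ groupVN G ∧ (0 : Op G) ∈ groupVN G ∧
    (∀ H : Subgroup G, subVN H ⊆ groupVN G) ∧ (∀ H : Subgroup G, ∀ h ∈ H, lam h ∈ subVN H) := by
  have hS : ∀ a ∈ Set.range (lam : G → Op G), star a ∈ Set.range (lam : G → Op G) := by
    rintro a ⟨g, rfl⟩
    exact ⟨g⁻¹, ((lamb (G := G)).2.2.1 g).symm⟩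
  obtain ⟨_, h2, h3, h4, h5, h6⟩ := vnalg (Set.range (lam : G → Op G)) hS
  refine ⟨h2, h3, h4, h5, h6, fun H => ?_, fun H h hh => ?_⟩
  · unfold subVN groupVN vN
    exact Set.centralizer_subset (Set.centralizer_subset (Set.image_subset_range _ _))
  · unfold subVN vN
    exact Set.subset_centralizer_centralizer ⟨h, hh, rfl⟩
-- END galg

-- BEGIN rtr
private theorem rtr_mem (h : G) :
    permOp (Equiv.mulRight h) ∈ Set.centralizer (Set.range (lam : G → Op G)) := by
  rw [Set.mem_centralizer_iff]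
  rintro _ ⟨g, rfl⟩
  refine ContinuousLinearMap.ext fun ξ => ?_
  ext x
  show ξ (g⁻¹ * x * h) = ξ (g⁻¹ * (x * h))
  rw [mul_assoc]

private theorem rtr_dl (h : G) : permOp (Equiv.mulRight h) (dl h) = dl (1 : G) := by
  ext x
  show dl h (x * h) = dl (1 : G) x
  rw [dl_apply, dl_apply]
  by_cases hx : x = 1
  · rw [if_pos hx, if_pos (by rw [hx, one_mul])]
  · rw [if_neg hx, if_neg (fun h' => hx (mul_eq_right.1 h'))]

/-- `(T δ_h)(g) = coef T (g h⁻¹)` for `T ∈ L(G)`: the right translation `permOp (Equiv.mulRight h)`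
(`ξ ↦ ξ(· h)`) commutes with all `λ_g`, so with `T`; it maps `δ_h` to `δ_1`. -/
theorem rtr (T : Op G) (hT : T ∈ groupVN G) (g h : G) : T (dl h) g = coef T (g * h⁻¹) := by
  have h1 : permOp (Equiv.mulRight h) * T = T * permOp (Equiv.mulRight h) :=
    Set.mem_centralizer_iff.1 hT _ (rtr_mem h)
  have h2 : permOp (Equiv.mulRight h) (T (dl h)) = T (permOp (Equiv.mulRight h) (dl h)) :=
    congrArg (fun S : Op G => S (dl h)) h1
  rw [rtr_dl] at h2
  have h3 : coef T (g * h⁻¹) = T (dl h) (g * h⁻¹ * h) := by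
    unfold coef
    rw [← h2]
    rfl
  rw [h3, inv_mul_cancel_right]
-- END rtr

-- BEGIN subc
/-- Elements of `L(H)` have coefficients supported on `H`: `restr H` commutes with `λ_h`,
`h ∈ H`, so with `T`, and `restr H δ_1 = δ_1`. -/
theorem subc (H : Subgroup G) (T : Op G) (hT : T ∈ subVN H) (g : G) (hg : g ∉ H) :
    coef T g = 0 := by
  have hc : restr (H : Set G) ∈ Set.centralizer ((lam : G → Op G) '' (H : Set G)) := by
    rw [Set.mem_centralizer_iff]
    rintro _ ⟨a, ha, rfl⟩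
    ext f h
    show lam a (restr (H : Set G) f) h = restr (H : Set G) (lam a f) h
    rw [lam_apply, restr_apply, restr_apply, lam_apply]
    have hiff : a⁻¹ * h ∈ (H : Set G) ↔ h ∈ (H : Set G) :=
      H.mul_mem_cancel_left (H.inv_mem ha)
    by_cases hh : h ∈ (H : Set G)
    · rw [if_pos hh, if_pos (hiff.mpr hh)]
    · rw [if_neg hh, if_neg (fun hx => hh (hiff.mp hx))]
  have hcomm : restr (H : Set G) * T = T * restr (H : Set G) := by
    have h := hT
    unfold subVN vN at h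
    rw [Set.mem_centralizer_iff] at h
    exact h _ hc
  have h1 : restr (H : Set G) (dl 1) = dl (1 : G) := by
    ext h
    rw [restr_apply]
    by_cases hh : h ∈ (H : Set G)
    · rw [if_pos hh]
    · rw [if_neg hh, dl_apply, if_neg]
      rintro rfl
      exact hh H.one_mem
  have h2 : T (dl 1) = restr (H : Set G) (T (dl 1)) := by
    have h3 : (restr (H : Set G) * T) (dl 1) = (T * restr (H : Set G)) (dl 1) := by rw [hcomm]
    have h4 : restr (H : Set G) (T (dl 1)) = T (restr (H : Set G) (dl 1)) := h3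
    rw [h4, h1]
  unfold coef
  rw [h2, restr_apply]
  exact if_neg hg
-- END subc

-- BEGIN nrm
/-- The normalizer is a group: closed under products and adjoints, contains `1`. -/
theorem nrm (A : Set (Op G)) : (1 : Op G) ∈ normalizer (groupVN G) A ∧
    (∀ u ∈ normalizer (groupVN G) A, star u ∈ normalizer (groupVN G) A) ∧
    (∀ u ∈ normalizer (groupVN G) A, ∀ v ∈ normalizer (groupVN G) A,
      u * v ∈ normalizer (groupVN G) A) := by
  obtain ⟨gmul, _, gstar, gone, _⟩ := galg (G := G)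
  refine ⟨⟨gone, one_mem _, ?_⟩, ?_, ?_⟩
  · have : (fun x : Op G => 1 * x * star (1 : Op G)) = id := by
      funext x
      simp
    rw [this, Set.image_id]
  · rintro u ⟨hu, huu, hA⟩
    have h1 : star u * u = 1 := Unitary.star_mul_self_of_mem huu
    refine ⟨gstar u hu, Unitary.star_mem huu, ?_⟩
    rw [star_star]
    have h2 : (fun x : Op G => star u * x * u) '' ((fun x : Op G => u * x * star u) '' A) = A := by
      rw [Set.image_image]
      have h3 : (fun x : Op G => star u * (u * x * star u) * u) = id := by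
        funext x
        calc star u * (u * x * star u) * u = (star u * u) * x * (star u * u) := by
              simp only [mul_assoc]
          _ = x := by rw [h1, one_mul, mul_one]
      rw [h3, Set.image_id]
    rw [hA] at h2
    exact h2
  · rintro u ⟨hu, huu, hA⟩ v ⟨hv, hvv, hB⟩
    refine ⟨gmul u hu v hv, mul_mem huu hvv, ?_⟩
    have h3 : (fun x : Op G => u * v * x * star (u * v)) =
        (fun x : Op G => u * x * star u) ∘ (fun x : Op G => v * x * star v) := by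
      funext x
      simp only [Function.comp, star_mul, mul_assoc]
    rw [h3, Set.image_comp, hB, hA]
-- END nrm

-- BEGIN reach
/-- A group `N` of unitaries (closed under `*` and `star`, containing `1`) and `T ∈ N''`: then
`T ξ` lies in the closed span `K` of `N ξ`. (The orthogonal projection on `K` commutes with `N`,
hence with `T`.) -/
theorem reach (N : Set (Op G)) (h1 : (1 : Op G) ∈ N) (hs : ∀ u ∈ N, star u ∈ N)
    (hm : ∀ u ∈ N, ∀ v ∈ N, u * v ∈ N) (T : Op G) (hT : T ∈ vN N) (ξ : L2 G) :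
    T ξ ∈ (Submodule.span ℂ ((fun u : Op G => u ξ) '' N)).topologicalClosure := by
  set K0 : Submodule ℂ (L2 G) := Submodule.span ℂ ((fun u : Op G => u ξ) '' N) with hK0
  set K : Submodule ℂ (L2 G) := K0.topologicalClosure with hK
  have : CompleteSpace K :=
    (Submodule.isClosed_topologicalClosure K0).completeSpace_coe
  have hstab : ∀ u ∈ N, ∀ k ∈ K, u k ∈ K := by
    intro u hu k hk
    have hle : K0 ≤ K.comap (u : L2 G →ₗ[ℂ] L2 G) := by
      rw [hK0, Submodule.span_le]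
      rintro _ ⟨v, hv, rfl⟩
      show u (v ξ) ∈ K
      apply Submodule.le_topologicalClosure
      apply Submodule.subset_span
      exact ⟨u * v, hm u hu v hv, rfl⟩
    have hcl : IsClosed ((K.comap (u : L2 G →ₗ[ℂ] L2 G) : Submodule ℂ (L2 G)) : Set (L2 G)) := by
      have : ((K.comap (u : L2 G →ₗ[ℂ] L2 G) : Submodule ℂ (L2 G)) : Set (L2 G)) =
          u ⁻¹' (K : Set (L2 G)) := rfl
      rw [this]
      exact (Submodule.isClosed_topologicalClosure K0).preimage u.continuous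
    exact Submodule.topologicalClosure_minimal K0 hle hcl hk
  have hadj : ∀ (u : Op G) (x y : L2 G), inner ℂ x (u y) = inner ℂ (star u x) y := by
    intro u x y
    rw [ContinuousLinearMap.star_eq_adjoint, ContinuousLinearMap.adjoint_inner_left]
  have hP : K.starProjection ∈ Set.centralizer N := by
    rw [Set.mem_centralizer_iff]
    intro u hu
    ext1 ζ
    show u (K.starProjection ζ) = K.starProjection (u ζ)
    symm
    apply Submodule.eq_starProjection_of_mem_of_inner_eq_zero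
    · exact hstab u hu _ (Submodule.starProjection_apply_mem K ζ)
    · intro w hw
      have e1 : u ζ - u (K.starProjection ζ) = u (ζ - K.starProjection ζ) := (map_sub u _ _).symm
      rw [e1]
      have e2 : inner ℂ w (u (ζ - K.starProjection ζ)) = 0 := by
        rw [hadj]
        exact Submodule.sub_starProjection_mem_orthogonal ζ _ (hstab _ (hs u hu) w hw)
      rw [← inner_conj_symm, e2, map_zero]
  have hcomm : K.starProjection * T = T * K.starProjection := by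
    have h := hT
    unfold vN at h
    rw [Set.mem_centralizer_iff] at h
    exact h _ hP
  have hξ : ξ ∈ K := by
    apply Submodule.le_topologicalClosure
    apply Submodule.subset_span
    exact ⟨1, h1, rfl⟩
  have hPξ : K.starProjection ξ = ξ := Submodule.starProjection_eq_self_iff.mpr hξ
  have h3 : (K.starProjection * T) ξ = (T * K.starProjection) ξ := by rw [hcomm]
  have h4 : K.starProjection (T ξ) = T (K.starProjection ξ) := h3
  rw [hPξ] at h4
  rw [← h4]
  exact Submodule.starProjection_apply_mem K _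
-- END reach

-- BEGIN exn
/-- If `A` is Cartan in `L(G)`, every `g` is in the support of some normalizing unitary: otherwise
(`reach`, `nrm`, with `ξ = δ_1`) `λ_g δ_1 = δ_g` would lie in the closed subspace `{ξ | ξ(g) = 0}`. -/
theorem exn (A : Set (Op G)) (hA : IsCartan (groupVN G) A) (g : G) :
    ∃ u ∈ normalizer (groupVN G) A, coef u g ≠ 0 := by
  classical
  by_contra hcon
  push Not at hcon
  obtain ⟨n1, n2, n3⟩ := nrm (G := G) A
  have hin : ∀ ξ : L2 G, inner ℂ (dl g) ξ = ξ g := by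
    intro ξ
    unfold dl
    rw [lp.inner_single_left]
    simp
  have hT : lam g ∈ vN (normalizer (groupVN G) A) := by
    rw [hA.regular]
    exact Set.subset_centralizer_centralizer ⟨g, rfl⟩
  have hr := reach (normalizer (groupVN G) A) n1 n2 n3 (lam g) hT (dl 1)
  have hle : Submodule.span ℂ ((fun u : Op G => u (dl 1)) '' normalizer (groupVN G) A) ≤
      LinearMap.ker (innerSL ℂ (dl g : L2 G)).toLinearMap := by
    rw [Submodule.span_le]
    rintro _ ⟨u, hu, rfl⟩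
    show inner ℂ (dl g) (u (dl 1)) = 0
    rw [hin]
    exact hcon u hu
  have hcl : IsClosed (LinearMap.ker (innerSL ℂ (dl g : L2 G)).toLinearMap : Set (L2 G)) :=
    ContinuousLinearMap.isClosed_ker (innerSL ℂ (dl g : L2 G))
  have h1 : inner ℂ (dl g) (lam g (dl 1)) = 0 :=
    Submodule.topologicalClosure_minimal _ hle hcl hr
  rw [hin, lam_apply, inv_mul_cancel, dl_apply, if_pos rfl] at h1
  exact one_ne_zero h1
-- END exn

-- BEGIN cmass
/-- `T ∈ L(G)`: the mass of `T δ_z` on `C g` is the mass of `T δ_1` on `C g z⁻¹` (`rnorm`, `rtr`,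
reindexing by right multiplication). -/
theorem cmass (C : Set G) (T : Op G) (hT : T ∈ groupVN G) (g z : G) :
    ‖restr {h | ∃ c ∈ C, h = c * g} (T (dl z))‖ =
      ‖restr {h | ∃ c ∈ C, h = c * g * z⁻¹} (T (dl 1))‖ := by
  have h1 := rnorm {h | ∃ c ∈ C, h = c * g} (T (dl z))
  have h2 := rnorm {h | ∃ c ∈ C, h = c * g * z⁻¹} (T (dl 1))
  have h3 := (Equiv.hasSum_iff (Equiv.mulRight z⁻¹)).mpr h2
  have h4 : ((fun h => Set.indicator {h | ∃ c ∈ C, h = c * g * z⁻¹} (fun h => ‖T (dl 1) h‖ ^ 2) h) ∘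
      (Equiv.mulRight z⁻¹)) =
      fun h => Set.indicator {h | ∃ c ∈ C, h = c * g} (fun h => ‖T (dl z) h‖ ^ 2) h := by
    funext h
    have h5 : T (dl 1) (h * z⁻¹) = T (dl z) h := (rtr T hT h z).symm
    show Set.indicator {h | ∃ c ∈ C, h = c * g * z⁻¹} (fun h => ‖T (dl 1) h‖ ^ 2) (h * z⁻¹) = _
    by_cases h6 : ∃ c ∈ C, h = c * g
    · have h7 : ∃ c ∈ C, h * z⁻¹ = c * g * z⁻¹ := by
        obtain ⟨c, hc, rfl⟩ := h6
        exact ⟨c, hc, rfl⟩
      rw [Set.indicator_of_mem (show h * z⁻¹ ∈ {h | ∃ c ∈ C, h = c * g * z⁻¹} from h7),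
        Set.indicator_of_mem (show h ∈ {h | ∃ c ∈ C, h = c * g} from h6), h5]
    · have h7 : ¬ ∃ c ∈ C, h * z⁻¹ = c * g * z⁻¹ := by
        rintro ⟨c, hc, h8⟩
        exact h6 ⟨c, hc, mul_right_cancel h8⟩
      rw [Set.indicator_of_notMem (show h * z⁻¹ ∉ {h | ∃ c ∈ C, h = c * g * z⁻¹} from h7),
        Set.indicator_of_notMem (show h ∉ {h | ∃ c ∈ C, h = c * g} from h6)]
  rw [h4] at h3
  have h5 := h1.unique h3
  exact (sq_eq_sq₀ (norm_nonneg _) (norm_nonneg _)).mp h5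
-- END cmass

-- BEGIN wcos
/-- `w ∈ L(G)` unitary with coefficients supported on the subgroup `C`: `w` commutes with the
restriction to `C g` (it maps `δ_h`, `h ∈ Cg`, into `ℓ²(Cg)` and `δ_h`, `h ∉ Cg`, into the
complement, by `rtr`; then `dlsum`). -/
theorem wcos (C : Subgroup G) (w : Op G) (hw : w ∈ groupVN G) (hc : ∀ g, g ∉ C → coef w g = 0)
    (g : G) (ξ : L2 G) :
    w (restr {h | ∃ c ∈ C, h = c * g} ξ) = restr {h | ∃ c ∈ C, h = c * g} (w ξ) := by
  classical
  have key : ∀ h : G, w (restr {h | ∃ c ∈ C, h = c * g} (dl h)) =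
      restr {h | ∃ c ∈ C, h = c * g} (w (dl h)) := by
    intro h
    by_cases hh : h ∈ {h | ∃ c ∈ C, h = c * g}
    · have h1 : restr {h | ∃ c ∈ C, h = c * g} (dl h) = dl h := by
        ext k
        rw [restr_apply, dl_apply]
        by_cases hk : k = h
        · rw [if_pos hk, if_pos (by rw [hk]; exact hh)]
        · rw [if_neg hk, ite_self]
      rw [h1]
      ext k
      rw [restr_apply]
      by_cases hk : k ∈ {h | ∃ c ∈ C, h = c * g}
      · rw [if_pos hk]
      · rw [if_neg hk, rtr w hw]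
        apply hc
        intro hC
        apply hk
        obtain ⟨c, hcC, rfl⟩ := hh
        exact ⟨k * (c * g)⁻¹ * c, C.mul_mem hC hcC, by group⟩
    · have h1 : restr {h | ∃ c ∈ C, h = c * g} (dl h) = 0 := by
        ext k
        rw [restr_apply, dl_apply]
        by_cases hk : k = h
        · rw [if_neg (by rw [hk]; exact hh)]
          rfl
        · rw [if_neg hk, ite_self]
          rfl
      rw [h1, map_zero]
      ext k
      rw [restr_apply]
      by_cases hk : k ∈ {h | ∃ c ∈ C, h = c * g}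
      · rw [if_pos hk, rtr w hw, hc]
        · rfl
        intro hC
        apply hh
        obtain ⟨c, hcC, rfl⟩ := hk
        exact ⟨(c * g * h⁻¹)⁻¹ * c, C.mul_mem (C.inv_mem hC) hcC, by group⟩
      · rw [if_neg hk]
        rfl
  have h1 := (dlsum ξ).1
  have h2 := (w.comp (restr {h | ∃ c ∈ C, h = c * g})).hasSum h1
  have h3 := ((restr {h | ∃ c ∈ C, h = c * g}).comp w).hasSum h1
  have h4 : (fun h => (w.comp (restr {h | ∃ c ∈ C, h = c * g})) (ξ h • dl h)) =
      fun h => ((restr {h | ∃ c ∈ C, h = c * g}).comp w) (ξ h • dl h) := by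
    funext h
    rw [map_smul, map_smul]
    exact congrArg (ξ h • ·) (key h)
  rw [h4] at h2
  exact h2.unique h3
-- END wcos

-- BEGIN tail
theorem tail_bd {G : Type} (ζ : L2 G) (hζ : ‖ζ‖ ≤ 1) (s : Finset G) : ∑ h ∈ s, ‖ζ h‖ ^ 2 ≤ 1 := by
  have h1 := rnorm Set.univ ζ
  have h2 : restr Set.univ ζ = ζ := by
    ext h
    rw [restr_apply, if_pos (Set.mem_univ _)]
  rw [h2] at h1
  have h3 := sum_le_hasSum s (fun i _ => by
    rw [Set.indicator_of_mem (Set.mem_univ _)]; positivity) h1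
  calc ∑ h ∈ s, ‖ζ h‖ ^ 2 = ∑ h ∈ s, (Set.univ : Set G).indicator (fun h => ‖ζ h‖ ^ 2) h :=
        Finset.sum_congr rfl (fun i _ => by rw [Set.indicator_of_mem (Set.mem_univ _)])
    _ ≤ ‖ζ‖ ^ 2 := h3
    _ ≤ 1 := by nlinarith [norm_nonneg ζ]

/-- `S z = C g z⁻¹`, `z ∈ Z`, are pairwise disjoint, so for `ε > 0` there is a finite `F ⊆ Z` with:
for all `ζ ∈ ℓ²(G)` supported on `Z \ F` and `‖ζ‖ ≤ 1` and `ω` supported on `Cg` with `‖ω‖ ≤ 1`:
`|⟨ω, T ζ⟩| ≤ ε`. Proof: `⟨ω, T ζ⟩ = sum ζ(z) ⟨ω, T δ_z⟩`, `|⟨ω, T δ_z⟩| ≤ ‖restr (Cg) (T δ_z)‖`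
(`rinner`), `cmass`, `rsum`: the squares are summable over `z ∈ Z`; Cauchy-Schwarz on the tail. -/
theorem tail (C Z : Subgroup G) (T : Op G) (hT : T ∈ groupVN G) (g : G)
    (hg : ∀ z ∈ Z, g * z * g⁻¹ ∈ C → z = 1) (ε : ℝ) (hε : 0 < ε) :
    ∃ F : Finset G, ∀ ζ ω : L2 G, (∀ h, (h ∉ Z ∨ h ∈ F) → ζ h = 0) → ‖ζ‖ ≤ 1 →
      (∀ h, (¬ ∃ c ∈ C, h = c * g) → ω h = 0) → ‖ω‖ ≤ 1 → ‖inner ℂ ω (T ζ)‖ ≤ ε := by
  classical
  set Sg : Set G := {h | ∃ c ∈ (C : Set G), h = c * g} with hSg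
  set m : G → ℝ := fun z => ‖restr Sg (T (dl z))‖ with hm
  have hm2 : ∀ z, m z = ‖restr {h | ∃ c ∈ (C : Set G), h = c * g * z⁻¹} (T (dl 1))‖ := by
    intro z
    exact cmass (C : Set G) T hT g z
  have hsum : ∀ s : Finset G, (∀ z ∈ s, z ∈ Z) → ∑ z ∈ s, m z ^ 2 ≤ ‖T (dl 1)‖ ^ 2 := by
    intro s hs
    have h1 := rsum s (fun z => {h | ∃ c ∈ (C : Set G), h = c * g * z⁻¹}) (by
      intro i hi j hj hij
      rw [Set.disjoint_left]
      rintro h ⟨c, hc, h1⟩ ⟨c', hc', h2⟩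
      apply hij
      have h3 : c * g * i⁻¹ = c' * g * j⁻¹ := h1.symm.trans h2
      have h4 : i⁻¹ * j ∈ Z := Z.mul_mem (Z.inv_mem (hs i hi)) (hs j hj)
      have h5 : g * (i⁻¹ * j) * g⁻¹ = c⁻¹ * c' := by
        have : g * (i⁻¹ * j) * g⁻¹ = c⁻¹ * (c * g * i⁻¹) * j * g⁻¹ := by group
        rw [this, h3]; group
      have h6 := hg _ h4 (by rw [h5]; exact C.mul_mem (C.inv_mem hc) hc')
      exact (inv_mul_eq_one.mp h6)) (T (dl 1))
    calc ∑ z ∈ s, m z ^ 2 = ∑ z ∈ s, ‖restr {h | ∃ c ∈ (C : Set G), h = c * g * z⁻¹}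
          (T (dl 1))‖ ^ 2 := Finset.sum_congr rfl (fun z _ => by rw [hm2])
      _ ≤ _ := h1
  set φ : G → ℝ := fun z => if z ∈ Z then m z ^ 2 else 0 with hφ
  have hφ0 : ∀ z, 0 ≤ φ z := by
    intro z
    simp only [hφ]
    split_ifs
    · positivity
    · exact le_rfl
  have hφs : Summable φ := by
    apply summable_of_sum_le hφ0 (c := ‖T (dl 1)‖ ^ 2)
    intro s
    rw [hφ]
    simp only
    rw [← Finset.sum_filter]
    exact hsum _ (fun z hz => (Finset.mem_filter.mp hz).2)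
  obtain ⟨F, hF⟩ := (summable_iff_vanishing_norm.mp hφs) (ε ^ 2) (by positivity)
  refine ⟨F, fun ζ ω hζ hζ1 hω hω1 => ?_⟩
  have hin : ∀ h, ‖inner ℂ ω (T (dl h))‖ ≤ m h := by
    intro h
    have h1 : restr Sg ω = ω := by
      ext k
      rw [restr_apply]
      split_ifs with hk
      · rfl
      · exact (hω k hk).symm
    rw [← h1, rinner]
    calc ‖inner ℂ ω (restr Sg (T (dl h)))‖ ≤ ‖ω‖ * ‖restr Sg (T (dl h))‖ := norm_inner_le_norm _ _
      _ ≤ 1 * ‖restr Sg (T (dl h))‖ := by gcongr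
      _ = m h := by rw [one_mul]
  have hs1 : HasSum (fun h => inner ℂ ω (T (ζ h • dl h))) (inner ℂ ω (T ζ)) := by
    have h1 := (dlsum ζ).1
    have h2 := h1.mapL T
    exact h2.mapL (innerSL ℂ ω)
  have hs2 : Tendsto (fun s : Finset G => ‖∑ h ∈ s, inner ℂ ω (T (ζ h • dl h))‖) atTop
      (𝓝 ‖inner ℂ ω (T ζ)‖) := (continuous_norm.tendsto _).comp hs1
  refine le_of_tendsto hs2 (Eventually.of_forall fun s => ?_)
  have h3 : ∑ h ∈ s, inner ℂ ω (T (ζ h • dl h)) =
      ∑ h ∈ s.filter (fun h => h ∈ Z ∧ h ∉ F), inner ℂ ω (T (ζ h • dl h)) := by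
    rw [Finset.sum_filter]
    refine Finset.sum_congr rfl (fun h _ => ?_)
    split_ifs with hh
    · rfl
    · have : ζ h = 0 := by
        apply hζ
        by_contra hcon
        apply hh
        constructor
        · by_contra h'; exact hcon (Or.inl h')
        · intro h'; exact hcon (Or.inr h')
      rw [this, zero_smul, map_zero, inner_zero_right]
  rw [h3]
  set s' := s.filter (fun h => h ∈ Z ∧ h ∉ F) with hs'
  have h4 : ∑ h ∈ s', m h ^ 2 ≤ ε ^ 2 := by
    have h5 := hF s' (by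
      rw [Finset.disjoint_left]
      intro a ha
      exact (Finset.mem_filter.mp ha).2.2)
    have h6 : ∑ h ∈ s', m h ^ 2 = ∑ h ∈ s', φ h := by
      refine Finset.sum_congr rfl (fun h hh => ?_)
      simp only [hφ]
      rw [if_pos (Finset.mem_filter.mp hh).2.1]
    rw [h6]
    rw [Real.norm_eq_abs, abs_lt] at h5
    exact h5.2.le
  calc ‖∑ h ∈ s', inner ℂ ω (T (ζ h • dl h))‖ ≤ ∑ h ∈ s', ‖inner ℂ ω (T (ζ h • dl h))‖ :=
        norm_sum_le _ _
    _ ≤ ∑ h ∈ s', ‖ζ h‖ * m h := by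
        refine Finset.sum_le_sum (fun h _ => ?_)
        rw [map_smul, inner_smul_right, norm_mul]
        exact mul_le_mul_of_nonneg_left (hin h) (norm_nonneg _)
    _ ≤ √(∑ h ∈ s', ‖ζ h‖ ^ 2) * √(∑ h ∈ s', m h ^ 2) :=
        Real.sum_mul_le_sqrt_mul_sqrt _ _ _
    _ ≤ √1 * √(ε ^ 2) := by
        apply mul_le_mul
        · exact Real.sqrt_le_sqrt (tail_bd ζ hζ1 s')
        · exact Real.sqrt_le_sqrt h4
        · exact Real.sqrt_nonneg _
        · exact Real.sqrt_nonneg _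
    _ = ε := by rw [Real.sqrt_one, Real.sqrt_sq hε.le, one_mul]
-- END tail

-- BEGIN hsz
private theorem hsz_fin {G : Type} (F : Finset G) (f : L2 G) :
    restr (F : Set G) f = ∑ h ∈ F, f h • dl h := by
  classical
  ext k
  rw [restr_apply, lp.coeFn_sum, Finset.sum_apply]
  have h1 : ∀ h ∈ F, (f h • dl h : L2 G) k = if k = h then f h else 0 := by
    intro h _
    rw [lp.coeFn_smul, Pi.smul_apply, dl_apply, smul_eq_mul]
    by_cases hk : k = h
    · simp [hk]
    · simp [hk]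
  rw [Finset.sum_congr rfl h1, Finset.sum_ite_eq]
  by_cases hk : k ∈ F
  · simp [hk]
  · simp [hk]

private theorem hsz_norm {G : Type} (S : Set G) (f : L2 G) : ‖restr S f‖ ≤ ‖f‖ := by
  have h := rsum ({()} : Finset Unit) (fun _ => S)
    (fun i _ j _ hij => absurd (Subsingleton.elim i j) hij) f
  rw [Finset.sum_singleton] at h
  exact (sq_le_sq₀ (norm_nonneg _) (norm_nonneg _)).1 h

private theorem hsz_split {G : Type} (S : Set G) (f : L2 G) : restr Sᶜ f + restr S f = f := by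
  classical
  ext k
  rw [lp.coeFn_add, Pi.add_apply, restr_apply, restr_apply]
  by_cases hk : k ∈ S
  · simp [hk]
  · simp [hk]

/-- KEY LEMMA. `coef T g = ⟨δ_g, T δ_1⟩ = ⟨w_n δ_g, w_n T δ_1⟩ = ⟨w_n δ_g, T v_n δ_1⟩`; split
`v_n δ_1 = ζ + ζ'`, `ζ' = restr F (v_n δ_1)` tends to `0` in norm (finitely many coordinates, each
tends to `0`), `ζ` is handled by `tail` (`w_n δ_g` is supported on `C g` by `rtr`, `v_n δ_1` on `Z`). -/
theorem hsz (C Z : Subgroup G) (T : Op G) (hT : T ∈ groupVN G) (v w : ℕ → Op G)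
    (hv : ∀ n, v n ∈ groupVN G ∧ v n ∈ unitary (Op G) ∧ ∀ g, g ∉ Z → coef (v n) g = 0)
    (hw : ∀ n, w n ∈ groupVN G ∧ w n ∈ unitary (Op G) ∧ ∀ g, g ∉ C → coef (w n) g = 0)
    (hc : ∀ n, w n * T = T * v n)
    (hnull : ∀ ξ η : L2 G, Tendsto (fun n => inner ℂ ξ (v n η)) atTop (𝓝 0))
    (g : G) (hg : ∀ z ∈ Z, g * z * g⁻¹ ∈ C → z = 1) : coef T g = 0 := by
  have hdn : ∀ h : G, ‖dl h‖ = 1 := (dlsum (0 : L2 G)).2.1
  have hcoef : ∀ n, coef T g = inner ℂ (w n (dl g)) (T (v n (dl 1))) := by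
    intro n
    have h1 : (w n * T) (dl 1) = (T * v n) (dl 1) := by rw [hc n]
    have h2 : w n (T (dl 1)) = T (v n (dl 1)) := h1
    rw [← h2, ContinuousLinearMap.inner_map_map_of_mem_unitary (hw n).2.1, (dlsum (T (dl 1))).2.2]
    rfl
  have hmain : ∀ ε : ℝ, 0 < ε → ‖coef T g‖ ≤ 2 * ε := by
    intro ε hε
    obtain ⟨F, hF⟩ := tail C Z T hT g hg ε hε
    have hlim : Tendsto (fun n => ‖T‖ * ∑ h ∈ F, ‖inner ℂ (dl h) (v n (dl 1))‖) atTop
        (𝓝 (‖T‖ * ∑ _h ∈ F, (0 : ℝ))) := by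
      refine Tendsto.const_mul _ (tendsto_finsetSum _ fun h _ => ?_)
      have := (hnull (dl h) (dl 1)).norm
      rwa [norm_zero] at this
    rw [Finset.sum_const_zero, mul_zero] at hlim
    obtain ⟨n, hn⟩ := (hlim.eventually (gt_mem_nhds hε)).exists
    have hζ : ‖v n (dl 1)‖ = 1 := by
      rw [ContinuousLinearMap.norm_map_of_mem_unitary (hv n).2.1, hdn]
    have hω : ‖w n (dl g)‖ = 1 := by
      rw [ContinuousLinearMap.norm_map_of_mem_unitary (hw n).2.1, hdn]
    have h1 : ‖inner ℂ (w n (dl g)) (T (restr (F : Set G)ᶜ (v n (dl 1))))‖ ≤ ε := by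
      apply hF
      · intro h hh
        rw [restr_apply]
        rcases hh with hh | hh
        · have h2 : (v n (dl 1)) h = 0 := (hv n).2.2 h hh
          rw [h2]
          split_ifs <;> rfl
        · exact if_neg (fun hk => hk hh)
      · exact (hsz_norm _ _).trans hζ.le
      · intro h hh
        rw [rtr (w n) (hw n).1]
        apply (hw n).2.2
        intro hk
        exact hh ⟨h * g⁻¹, hk, by group⟩
      · exact hω.le
    have h2 : ‖inner ℂ (w n (dl g)) (T (restr (F : Set G) (v n (dl 1))))‖ ≤ ε := by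
      have h3 : ‖restr (F : Set G) (v n (dl 1))‖ ≤ ∑ h ∈ F, ‖inner ℂ (dl h) (v n (dl 1))‖ := by
        rw [hsz_fin]
        refine (norm_sum_le _ _).trans (Finset.sum_le_sum fun h _ => ?_)
        rw [norm_smul, hdn, mul_one, (dlsum (v n (dl 1))).2.2]
      calc ‖inner ℂ (w n (dl g)) (T (restr (F : Set G) (v n (dl 1))))‖
          ≤ ‖w n (dl g)‖ * ‖T (restr (F : Set G) (v n (dl 1)))‖ := norm_inner_le_norm _ _
        _ = ‖T (restr (F : Set G) (v n (dl 1)))‖ := by rw [hω, one_mul]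
        _ ≤ ‖T‖ * ‖restr (F : Set G) (v n (dl 1))‖ := T.le_opNorm _
        _ ≤ ‖T‖ * ∑ h ∈ F, ‖inner ℂ (dl h) (v n (dl 1))‖ :=
            mul_le_mul_of_nonneg_left h3 (norm_nonneg _)
        _ ≤ ε := hn.le
    have h4 : coef T g = inner ℂ (w n (dl g)) (T (restr (F : Set G)ᶜ (v n (dl 1)))) +
        inner ℂ (w n (dl g)) (T (restr (F : Set G) (v n (dl 1)))) := by
      rw [← inner_add_right, ← map_add, hsz_split, ← hcoef n]
    rw [h4]
    calc _ ≤ _ := norm_add_le _ _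
      _ ≤ ε + ε := add_le_add h1 h2
      _ = 2 * ε := by ring
  by_contra hne
  have hpos : 0 < ‖coef T g‖ := norm_pos_iff.2 hne
  have := hmain (‖coef T g‖ / 4) (by positivity)
  linarith
-- END hsz

-- BEGIN orb
/-- MASS LEMMA. For `a ∈ A0` the mass of `T δ_1` on `C g a⁻¹` equals the mass on `C g`: it is
`‖restr (Cg) (T δ_a)‖` (`cmass`), `T δ_a = T λ_a δ_1 = w T δ_1`, `wcos`, `w` isometric. Infinitely
many disjoint `C g a⁻¹` (`rsum`) force mass `0` on `C g ∋ g`. -/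
theorem orb (C : Subgroup G) (T : Op G) (hT : T ∈ groupVN G) (A0 : Set G)
    (hA : ∀ a ∈ A0, ∃ w ∈ groupVN G, w ∈ unitary (Op G) ∧ (∀ g, g ∉ C → coef w g = 0) ∧
      w * T = T * lam a) (g : G)
    (hinf : ∀ n : ℕ, ∃ s : Finset G, (∀ a ∈ s, a ∈ A0) ∧ n ≤ s.card ∧
      ∀ a ∈ s, ∀ b ∈ s, g * a⁻¹ * b * g⁻¹ ∈ C → a = b) : coef T g = 0 := by
  have hmass : ∀ a ∈ A0, ‖restr {h | ∃ c ∈ (C : Set G), h = c * g * a⁻¹} (T (dl 1))‖ =
      ‖restr {h | ∃ c ∈ C, h = c * g} (T (dl 1))‖ := by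
    intro a ha
    obtain ⟨w, hw1, hw2, hw3, hw4⟩ := hA a ha
    have e1 : T (dl a) = w (T (dl 1)) := by
      have h1 : (w * T) (dl 1) = (T * lam a) (dl 1) := by rw [hw4]
      have h2 : lam a (dl 1) = dl a := by rw [lamb.1, mul_one]
      have h3 : w (T (dl 1)) = T (lam a (dl 1)) := h1
      rw [h3, h2]
    have e2 := wcos C w hw1 hw3 g (T (dl 1))
    have e3 := cmass (C : Set G) T hT g a
    rw [← e3, e1]
    have e4 : restr {h | ∃ c ∈ (C : Set G), h = c * g} (w (T (dl 1))) =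
        w (restr {h | ∃ c ∈ C, h = c * g} (T (dl 1))) := e2.symm
    rw [e4, ContinuousLinearMap.norm_map_of_mem_unitary hw2]
  have hz : ‖restr {h | ∃ c ∈ C, h = c * g} (T (dl 1))‖ = 0 := by
    by_contra hne
    have hpos : 0 < ‖restr {h | ∃ c ∈ C, h = c * g} (T (dl 1))‖ ^ 2 := by positivity
    obtain ⟨n, hn⟩ := exists_nat_gt
      (‖T (dl 1)‖ ^ 2 / ‖restr {h | ∃ c ∈ C, h = c * g} (T (dl 1))‖ ^ 2)
    obtain ⟨s, hs1, hs2, hs3⟩ := hinf n
    have hsum := rsum s (fun a => {h | ∃ c ∈ (C : Set G), h = c * g * a⁻¹})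
      (fun a ha b hb hab => by
        rw [Set.disjoint_left]
        rintro h ⟨c, hc, hh⟩ ⟨c', hc', hh'⟩
        apply hab
        apply hs3 a ha b hb
        have h1 : g * a⁻¹ * b * g⁻¹ = c⁻¹ * c' := by
          have h2 : c * g * a⁻¹ = c' * g * b⁻¹ := hh.symm.trans hh'
          calc g * a⁻¹ * b * g⁻¹ = c⁻¹ * (c * g * a⁻¹) * b * g⁻¹ := by group
            _ = c⁻¹ * (c' * g * b⁻¹) * b * g⁻¹ := by rw [h2]
            _ = c⁻¹ * c' := by group
        rw [h1]
        exact C.mul_mem (C.inv_mem hc) hc') (T (dl 1))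
    have hsum2 : ∑ a ∈ s, ‖restr {h | ∃ c ∈ (C : Set G), h = c * g * a⁻¹} (T (dl 1))‖ ^ 2 =
        s.card * ‖restr {h | ∃ c ∈ C, h = c * g} (T (dl 1))‖ ^ 2 := by
      rw [Finset.sum_congr rfl fun a ha => by rw [hmass a (hs1 a ha)], Finset.sum_const,
        nsmul_eq_mul]
    have h3 : (s.card : ℝ) * ‖restr {h | ∃ c ∈ C, h = c * g} (T (dl 1))‖ ^ 2 ≤
        ‖T (dl 1)‖ ^ 2 := by
      rw [← hsum2]
      exact hsum
    have h4 : (n : ℝ) ≤ s.card := by exact_mod_cast hs2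
    have h5 : (s.card : ℝ) ≤
        ‖T (dl 1)‖ ^ 2 / ‖restr {h | ∃ c ∈ C, h = c * g} (T (dl 1))‖ ^ 2 := by
      rw [le_div_iff₀ hpos]
      exact h3
    linarith
  have h0 : restr {h | ∃ c ∈ C, h = c * g} (T (dl 1)) = 0 := norm_eq_zero.1 hz
  have h1 : restr {h | ∃ c ∈ C, h = c * g} (T (dl 1)) g = T (dl 1) g := by
    rw [restr_apply]
    exact if_pos ⟨1, C.one_mem, (one_mul g).symm⟩
  have h2 : restr {h | ∃ c ∈ C, h = c * g} (T (dl 1)) g = 0 := by
    rw [h0]
    rfl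
  show T (dl 1) g = 0
  rw [← h1, h2]
-- END orb

-- BEGIN cgrp
/-- For `x` of infinite order the `h` with `h x^k h⁻¹ = x^m` for some `k, m ≠ 0` form a subgroup
(the commensurator of `⟨x⟩`). -/
theorem cgrp (x : G) (hx : ∀ n : ℕ, 0 < n → x ^ n ≠ 1) : ∃ C : Subgroup G, ∀ h : G,
    h ∈ C ↔ ∃ k m : ℤ, k ≠ 0 ∧ m ≠ 0 ∧ h * x ^ k * h⁻¹ = x ^ m := by
  refine ⟨{ carrier := {h | ∃ k m : ℤ, k ≠ 0 ∧ m ≠ 0 ∧ h * x ^ k * h⁻¹ = x ^ m}
            mul_mem' := ?_
            one_mem' := ?_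
            inv_mem' := ?_ }, fun h => Iff.rfl⟩
  · rintro a b ⟨k1, m1, hk1, hm1, h1⟩ ⟨k2, m2, hk2, hm2, h2⟩
    refine ⟨k2 * k1, m1 * m2, mul_ne_zero hk2 hk1, mul_ne_zero hm1 hm2, ?_⟩
    have e2 : b * x ^ (k2 * k1) * b⁻¹ = x ^ (m2 * k1) := by
      rw [zpow_mul, zpow_mul, ← h2, conj_zpow]
    have e1 : a * x ^ (m2 * k1) * a⁻¹ = x ^ (m1 * m2) := by
      rw [mul_comm m2 k1, zpow_mul, zpow_mul, ← h1, conj_zpow]
    calc a * b * x ^ (k2 * k1) * (a * b)⁻¹ = a * (b * x ^ (k2 * k1) * b⁻¹) * a⁻¹ := by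
          simp only [mul_inv_rev, mul_assoc]
      _ = x ^ (m1 * m2) := by rw [e2, e1]
  · exact ⟨1, 1, one_ne_zero, one_ne_zero, by simp⟩
  · rintro a ⟨k, m, hk, hm, h⟩
    refine ⟨m, k, hm, hk, ?_⟩
    rw [← h]
    simp only [inv_inv, mul_assoc, inv_mul_cancel_left, inv_mul_cancel, mul_one]
-- END cgrp

-- BEGIN comm1
/-- Step 1: a Cartan subalgebra with null unitaries in `A ∩ L(⟨x⟩)` has all its coefficients on the
commensurator `C` of `⟨x⟩`: `hsz` with `C := Z := ⟨x⟩`, `T = a`, `w = v` (`A` is commutative). -/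
theorem comm1 (A : Set (Op G)) (hA : IsCartan (groupVN G) A) (x : G)
    (hx : ∀ n : ℕ, 0 < n → x ^ n ≠ 1)
    (hn : HasNullUnitaries (A ∩ subVN (Subgroup.zpowers x))) (a : Op G) (ha : a ∈ A) (g : G)
    (hg : ¬ ∃ k m : ℤ, k ≠ 0 ∧ m ≠ 0 ∧ g * x ^ k * g⁻¹ = x ^ m) : coef a g = 0 := by
  obtain ⟨v, hv, hnull⟩ := hn
  have hz : ∀ k : ℤ, k ≠ 0 → x ^ k ≠ 1 := by
    intro k hk h1
    refine hx k.natAbs (Int.natAbs_pos.mpr hk) ?_
    rcases Int.natAbs_eq k with h2 | h2
    · rw [h2, zpow_natCast] at h1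
      exact h1
    · rw [h2, zpow_neg, inv_eq_one, zpow_natCast] at h1
      exact h1
  have hv' : ∀ n, v n ∈ groupVN G ∧ v n ∈ unitary (Op G) ∧
      ∀ g, g ∉ Subgroup.zpowers x → coef (v n) g = 0 := fun n =>
    ⟨hA.sub (hv n).1.1, (hv n).2, fun g hg => subc _ _ (hv n).1.2 g hg⟩
  refine hsz (Subgroup.zpowers x) (Subgroup.zpowers x) a (hA.sub ha) v v hv' hv'
    (fun n => hA.comm _ (hv n).1.1 _ ha) hnull g ?_
  rintro z ⟨k, rfl⟩ ⟨m, hm⟩
  have hm' : x ^ m = g * x ^ k * g⁻¹ := hm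
  by_contra hne
  have hk : k ≠ 0 := by
    rintro rfl
    exact hne (zpow_zero x)
  refine hg ⟨k, m, hk, ?_, hm'.symm⟩
  rintro rfl
  rw [zpow_zero] at hm'
  have h1 : g * x ^ k * g⁻¹ = 1 := hm'.symm
  rw [mul_inv_eq_one] at h1
  exact hz k hk (mul_eq_left.mp h1)
-- END comm1

-- BEGIN comm2
/-- Step 2: for every `g` some `g x^n g⁻¹`, `n ≥ 1`, is in the commensurator of `⟨x⟩`: take `u` from
`exn`, `w_n = u v_n u* ∈ A`, and `hsz` with `C` from `cgrp` (supports by `comm1`), `Z = ⟨x⟩`. -/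
theorem comm2 (A : Set (Op G)) (hA : IsCartan (groupVN G) A) (x : G)
    (hx : ∀ n : ℕ, 0 < n → x ^ n ≠ 1)
    (hn : HasNullUnitaries (A ∩ subVN (Subgroup.zpowers x))) (g : G) :
    ∃ n : ℕ, 0 < n ∧ ∃ k m : ℤ, k ≠ 0 ∧ m ≠ 0 ∧
      (g * x ^ n * g⁻¹) * x ^ k * (g * x ^ n * g⁻¹)⁻¹ = x ^ m := by
  by_contra hcon
  obtain ⟨C, hC⟩ := cgrp x hx
  obtain ⟨u, hu, hug⟩ := exn A hA g
  obtain ⟨v, hv, hvn⟩ := id hn
  obtain ⟨huM, huU, huA⟩ := hu
  obtain ⟨gm, _, gs, _, _, gH, _⟩ := galg (G := G)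
  have hu1 : star u * u = 1 := (Unitary.mem_iff.1 huU).1
  have hwA : ∀ n, u * v n * star u ∈ A := by
    intro n
    rw [← huA]
    exact ⟨v n, (hv n).1.1, rfl⟩
  refine hug (hsz C (Subgroup.zpowers x) u huM v (fun n => u * v n * star u) ?_ ?_ ?_ hvn g ?_)
  · intro n
    exact ⟨gH _ (hv n).1.2, (hv n).2, fun g' hg' => subc _ _ (hv n).1.2 g' hg'⟩
  · intro n
    refine ⟨hA.sub (hwA n), ?_, fun g' hg' => ?_⟩
    · exact mul_mem (mul_mem huU (hv n).2) (Unitary.star_mem huU)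
    · exact comm1 A hA x hx hn _ (hwA n) g' (fun h => hg' ((hC g').2 h))
  · intro n
    show u * v n * star u * u = u * v n
    rw [mul_assoc (u * v n), hu1, mul_one]
  · intro z hz hzC
    by_contra hz1
    obtain ⟨j, rfl⟩ := Subgroup.mem_zpowers_iff.1 hz
    have hj : j ≠ 0 := by
      rintro rfl
      exact hz1 (zpow_zero x)
    apply hcon
    refine ⟨j.natAbs, Int.natAbs_pos.2 hj, ?_⟩
    rw [← hC]
    rcases Int.natAbs_eq j with h | h
    · have h2 : x ^ j.natAbs = x ^ j := by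
        conv_rhs => rw [h]
        rw [zpow_natCast]
      rw [h2]
      exact hzC
    · have h2 : x ^ j.natAbs = (x ^ j)⁻¹ := by
        conv_rhs => rw [h]
        rw [zpow_neg, zpow_natCast, inv_inv]
      rw [h2]
      have h3 : g * (x ^ j)⁻¹ * g⁻¹ = (g * x ^ j * g⁻¹)⁻¹ := by group
      rw [h3]
      exact C.inv_mem hzC
-- END comm2

-- BEGIN lamnull
private theorem lamnull_lim {a : ℕ → ℂ} (h : ∀ ε : ℝ, 0 < ε → ∃ b : ℕ → ℂ, Tendsto b atTop (𝓝 0) ∧
    ∀ n, ‖a n - b n‖ ≤ ε) : Tendsto a atTop (𝓝 0) := by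
  rw [Metric.tendsto_atTop]
  intro ε hε
  obtain ⟨b, hb, hab⟩ := h (ε / 2) (half_pos hε)
  obtain ⟨N, hN⟩ := (Metric.tendsto_atTop.mp hb) (ε / 2) (half_pos hε)
  refine ⟨N, fun n hn => ?_⟩
  have h1 := hN n hn
  have h2 := hab n
  rw [dist_zero_right] at h1 ⊢
  calc ‖a n‖ = ‖(a n - b n) + b n‖ := by rw [sub_add_cancel]
    _ ≤ ‖a n - b n‖ + ‖b n‖ := norm_add_le _ _
    _ < ε / 2 + ε / 2 := by linarith
    _ = ε := add_halves ε

private theorem lamnull_norm (g : G) (f : L2 G) : ‖lam g f‖ = ‖f‖ :=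
  ContinuousLinearMap.norm_map_of_mem_unitary ((lamb (G := G)).2.2.2.1 g) f

private theorem lamnull_app (f : L2 G) (ε : ℝ) (hε : 0 < ε) :
    ∃ F : Finset G, ‖f - ∑ h ∈ F, f h • dl h‖ ≤ ε := by
  have h1 := (dlsum f).1
  rw [HasSum, SummationFilter.unconditional_filter] at h1
  obtain ⟨F, h3⟩ := ((Metric.tendsto_nhds.mp h1) ε hε).exists
  refine ⟨F, ?_⟩
  rw [dist_comm, dist_eq_norm] at h3
  exact h3.le

private theorem lamnull_weak (x : G) (hx : ∀ n : ℕ, 0 < n → x ^ n ≠ 1) (ξ η : L2 G) :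
    Tendsto (fun n : ℕ => inner ℂ ξ (lam (x ^ n) η)) atTop (𝓝 0) := by
  have hinj : ∀ m n : ℕ, m < n → x ^ m ≠ x ^ n := by
    intro m n hmn h1
    refine hx (n - m) (Nat.sub_pos_of_lt hmn) ?_
    have h2 : x ^ n = x ^ m * x ^ (n - m) := by
      rw [← pow_add, Nat.add_sub_cancel' hmn.le]
    rw [h2] at h1
    exact (mul_eq_left.mp h1.symm)
  have s1 : ∀ h k : G, Tendsto (fun n : ℕ => inner ℂ (dl h) (lam (x ^ n) (dl k))) atTop (𝓝 0) := by
    intro h k
    have h1 : ∀ n : ℕ, h ≠ x ^ n * k → inner ℂ (dl h) (lam (x ^ n) (dl k)) = 0 := by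
      intro n hn
      rw [(dlsum (lam (x ^ n) (dl k))).2.2 h, (lamb (G := G)).1, dl_apply, if_neg hn]
    by_cases h2 : ∃ n : ℕ, h = x ^ n * k
    · obtain ⟨n0, hn0⟩ := h2
      refine tendsto_const_nhds.congr' ?_
      filter_upwards [eventually_gt_atTop n0] with n hn
      refine (h1 n ?_).symm
      intro h3
      rw [hn0] at h3
      exact hinj n0 n hn (mul_right_cancel h3)
    · refine tendsto_const_nhds.congr ?_
      intro n
      exact (h1 n fun h3 => h2 ⟨n, h3⟩).symm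
  have s2 : ∀ (h : G) (η : L2 G),
      Tendsto (fun n : ℕ => inner ℂ (dl h) (lam (x ^ n) η)) atTop (𝓝 0) := by
    intro h η
    refine lamnull_lim fun ε hε => ?_
    obtain ⟨F, hF⟩ := lamnull_app η ε hε
    refine ⟨fun n => inner ℂ (dl h) (lam (x ^ n) (∑ k ∈ F, η k • dl k)), ?_, fun n => ?_⟩
    · have h1 : ∀ n : ℕ, inner ℂ (dl h) (lam (x ^ n) (∑ k ∈ F, η k • dl k)) =
          ∑ k ∈ F, η k * inner ℂ (dl h) (lam (x ^ n) (dl k)) := by
        intro n
        rw [map_sum, inner_sum]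
        refine Finset.sum_congr rfl fun k _ => ?_
        rw [map_smul, inner_smul_right]
      simp only [h1]
      have h2 : (0 : ℂ) = ∑ k ∈ F, η k * 0 := by simp
      rw [h2]
      exact tendsto_finsetSum _ fun k _ => (s1 h k).const_mul _
    · rw [← inner_sub_right, ← map_sub]
      refine (norm_inner_le_norm _ _).trans ?_
      rw [lamnull_norm, (dlsum η).2.1 h, one_mul]
      exact hF
  refine lamnull_lim fun ε hε => ?_
  have hp : 0 < ε / (‖η‖ + 1) := div_pos hε (by positivity)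
  obtain ⟨F, hF⟩ := lamnull_app ξ _ hp
  refine ⟨fun n => inner ℂ (∑ k ∈ F, ξ k • dl k) (lam (x ^ n) η), ?_, fun n => ?_⟩
  · have h1 : ∀ n : ℕ, inner ℂ (∑ k ∈ F, ξ k • dl k) (lam (x ^ n) η) =
        ∑ k ∈ F, (starRingEnd ℂ) (ξ k) * inner ℂ (dl k) (lam (x ^ n) η) := by
      intro n
      rw [sum_inner]
      refine Finset.sum_congr rfl fun k _ => ?_
      rw [inner_smul_left]
    simp only [h1]
    have h2 : (0 : ℂ) = ∑ k ∈ F, (starRingEnd ℂ) (ξ k) * 0 := by simp
    rw [h2]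
    exact tendsto_finsetSum _ fun k _ => (s2 k η).const_mul _
  · rw [← inner_sub_left]
    refine (norm_inner_le_norm _ _).trans ?_
    rw [lamnull_norm]
    have h1 : ‖ξ - ∑ k ∈ F, ξ k • dl k‖ * ‖η‖ ≤ ε / (‖η‖ + 1) * (‖η‖ + 1) :=
      mul_le_mul hF (by linarith) (norm_nonneg _) hp.le
    rwa [div_mul_cancel₀ _ (by positivity : ‖η‖ + 1 ≠ 0)] at h1

/-- For `x` of infinite order `λ_{x^n}` tends weakly to `0` (coordinates; density of finitely
supported vectors / `dlsum`), so `λ_x ∈ A` gives null unitaries in `A ∩ L(⟨x⟩)`. (`A` Cartan is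
closed under products: `A = A' ∩ L(G)`.) -/
theorem lamnull (A : Set (Op G)) (hA : IsCartan (groupVN G) A) (x : G)
    (hx : ∀ n : ℕ, 0 < n → x ^ n ≠ 1) (hl : lam x ∈ A) :
    HasNullUnitaries (A ∩ subVN (Subgroup.zpowers x)) := by
  obtain ⟨hd, hm, _, hu, hgm, _, _, ho⟩ := lamb (G := G)
  obtain ⟨hgmul, _, _, _, _, _, hsub⟩ := galg (G := G)
  have hA1 : ∀ n : ℕ, lam (x ^ n) ∈ A := by
    intro n
    induction n with
    | zero =>
      rw [pow_zero, ho]
      refine hA.maximal 1 ?_ fun a _ => by rw [mul_one, one_mul]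
      rw [← ho]
      exact hgm 1
    | succ n ih =>
      rw [pow_succ, ← hm]
      refine hA.maximal _ (hgmul _ (hA.sub ih) _ (hA.sub hl)) fun a ha => ?_
      rw [← mul_assoc, hA.comm a ha _ ih, mul_assoc, hA.comm a ha _ hl, mul_assoc]
  exact ⟨fun n => lam (x ^ n), fun n => ⟨⟨hA1 n, hsub _ _ ⟨n, zpow_natCast x n⟩⟩, hu _⟩,
    fun ξ η => lamnull_weak x hx ξ η⟩
-- END lamnull

-- BEGIN hcomm
/-- If `L(H)` is Cartan in `L(G)`, then `H` is commutative (`lamb`: `λ` is injective and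
multiplicative). -/
theorem hcomm (H : Subgroup G) (hA : IsCartan (groupVN G) (subVN H)) :
    ∀ a ∈ H, ∀ b ∈ H, a * b = b * a := by
  intro a ha b hb
  obtain ⟨_, hm, _, _, _, h1, h0, _⟩ := lamb (G := G)
  have hs := (galg (G := G)).2.2.2.2.2.2 H
  have h2 := hA.comm _ (hs a ha) _ (hs b hb)
  rw [hm, hm] at h2
  by_contra hne
  have h3 := h0 (b * a) (a * b) hne
  rw [← h2, h1] at h3
  exact one_ne_zero h3
-- END hcomm

-- BEGIN hinf
/-- If `L(H)` is Cartan in `L(G)` and `G` is infinite, `H` is infinite: if `H` is finite and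
`g ∉ H`, then `b = sum over a ∈ H of λ_{a g a⁻¹}` is in `L(G)`, commutes with `λ_a`, `a ∈ H`, hence
with `L(H)`, so is in `L(H)`, but `coef b g ≠ 0` (`subc`). -/
theorem hinf [Infinite G] (H : Subgroup G) (hA : IsCartan (groupVN G) (subVN H)) :
    Infinite H := by
  classical
  by_contra hfin
  have hF : Finite H := not_infinite_iff_finite.1 hfin
  have := Fintype.ofFinite H
  obtain ⟨g, hg⟩ : ∃ g : G, g ∉ H := by
    by_contra h
    push Not at h
    have h1 : Function.Surjective (Subtype.val : H → G) := fun g => ⟨⟨g, h g⟩, rfl⟩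
    exact not_finite_iff_infinite.2 ‹Infinite G› (Finite.of_surjective _ h1)
  obtain ⟨l1, l2, l3, l4, l5, l6, l7, l8⟩ := lamb (G := G)
  obtain ⟨gm, ga, gs, g1, g0, gH, gl⟩ := galg (G := G)
  set b : Op G := ∑ a : H, lam ((a : G) * g * (a : G)⁻¹) with hb
  have hbM : b ∈ groupVN G := by
    rw [hb]
    exact Finset.sum_induction _ (fun T => T ∈ groupVN G) (fun p q hp hq => ga p hp q hq) g0
      (fun a _ => l5 _)
  have hbc : ∀ c ∈ H, lam c * b = b * lam c := by
    intro c hc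
    rw [hb, Finset.mul_sum, Finset.sum_mul]
    apply Fintype.sum_equiv (Equiv.mulLeft (⟨c, hc⟩ : H))
    intro a
    show lam c * lam ((a : G) * g * (a : G)⁻¹) = lam ((c * (a : G)) * g * (c * (a : G))⁻¹) * lam c
    rw [l2, l2]
    congr 1
    group
  have hbA : b ∈ subVN H := by
    apply hA.maximal b hbM
    intro a ha
    have h1 : b ∈ Set.centralizer ((lam : G → Op G) '' (H : Set G)) := by
      rw [Set.mem_centralizer_iff]
      rintro _ ⟨c, hc, rfl⟩
      exact hbc c hc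
    exact (Set.mem_centralizer_iff.1 ha b h1).symm
  have h0 := subc H b hbA g hg
  have h1 : coef b g = ∑ a : H, coef (lam ((a : G) * g * (a : G)⁻¹)) g := by
    unfold coef
    rw [hb, sum_apply, lp.coeFn_sum, Finset.sum_apply]
  have h2 : ∀ a : H, coef (lam ((a : G) * g * (a : G)⁻¹)) g =
      ((if (a : G) * g * (a : G)⁻¹ = g then 1 else 0 : ℕ) : ℂ) := by
    intro a
    by_cases h : (a : G) * g * (a : G)⁻¹ = g
    · rw [if_pos h, h, l6, Nat.cast_one]
    · rw [if_neg h, l7 _ _ (Ne.symm h), Nat.cast_zero]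
  rw [h1, Finset.sum_congr rfl fun a _ => h2 a, ← Nat.cast_sum, Nat.cast_eq_zero,
    Finset.sum_eq_zero_iff] at h0
  have h3 := h0 1 (Finset.mem_univ _)
  simp at h3
-- END hinf

-- BEGIN hrel
/-- If `L(H)` is Cartan in `L(G)`, `H ∩ g H g⁻¹` has finite index in `H` for all `g`: `exn` for
`g⁻¹`, `orb` with `C = H`, `A0 = H` (for `a ∈ H`, `w = u λ_a u* ∈ L(H)`, supports by `subc`). -/
theorem hrel (H : Subgroup G) (hA : IsCartan (groupVN G) (subVN H)) (g : G) :
    (H.map (MulAut.conj g).toMonoidHom).relIndex H ≠ 0 := by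
  classical
  intro h0
  obtain ⟨u, hu, hug⟩ := exn (subVN H) hA g⁻¹
  obtain ⟨huM, huU, huA⟩ := hu
  obtain ⟨l1, l2, l3, l4, l5, l6, l7, l8⟩ := lamb (G := G)
  obtain ⟨gm, ga, gs, g1, g0, gH, gl⟩ := galg (G := G)
  have hu1 : star u * u = 1 := (Unitary.mem_iff.1 huU).1
  refine hug (orb H u huM (H : Set G) ?_ g⁻¹ ?_)
  · intro a ha
    have hw : u * lam a * star u ∈ subVN H := by
      rw [← huA]
      exact ⟨lam a, gl H a ha, rfl⟩
    refine ⟨u * lam a * star u, gH H hw, mul_mem (mul_mem huU (l4 a)) (Unitary.star_mem huU),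
      fun g' hg' => subc H _ hw g' hg', ?_⟩
    rw [mul_assoc (u * lam a), hu1, mul_one]
  · intro n
    unfold Subgroup.relIndex at h0
    have hinf : Infinite (H ⧸ (H.map (MulAut.conj g).toMonoidHom).subgroupOf H) :=
      Subgroup.index_eq_zero_iff_infinite.1 h0
    obtain ⟨t, ht⟩ := Infinite.exists_subset_card_eq
      (H ⧸ (H.map (MulAut.conj g).toMonoidHom).subgroupOf H) n
    have hinj : Function.Injective
        (fun q : H ⧸ (H.map (MulAut.conj g).toMonoidHom).subgroupOf H => ((Quotient.out q : H) : G)) := by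
      intro q q' hq
      have h1 : (Quotient.out q : H) = Quotient.out q' := Subtype.ext hq
      rw [← Quotient.out_eq q, h1, Quotient.out_eq q']
    refine ⟨t.image fun q => ((Quotient.out q : H) : G), ?_, ?_, ?_⟩
    · intro a ha
      obtain ⟨q, _, rfl⟩ := Finset.mem_image.1 ha
      exact (Quotient.out q : H).2
    · exact ht.symm.le.trans (Finset.card_image_of_injective t hinj).symm.le
    · intro a ha b hb hab
      obtain ⟨q, _, rfl⟩ := Finset.mem_image.1 ha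
      obtain ⟨q', _, rfl⟩ := Finset.mem_image.1 hb
      have h1 : (Quotient.out q : H)⁻¹ * (Quotient.out q' : H) ∈
          (H.map (MulAut.conj g).toMonoidHom).subgroupOf H := by
        rw [Subgroup.mem_subgroupOf, Subgroup.mem_map]
        refine ⟨_, hab, ?_⟩
        show g * (g⁻¹ * ((Quotient.out q : H) : G)⁻¹ * ((Quotient.out q' : H) : G) * g⁻¹⁻¹) * g⁻¹ =
          (((Quotient.out q : H)⁻¹ * (Quotient.out q' : H) : H) : G)
        rw [Subgroup.coe_mul, Subgroup.coe_inv]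
        group
      have h2 : q = q' := by
        rw [← QuotientGroup.out_eq' q, ← QuotientGroup.out_eq' q']
        exact QuotientGroup.eq.2 h1
      rw [h2]
-- END hrel

end

end CarT
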