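import Pool.Agent.CarT.Defs

/-! Operators: coefficients, restrictions, translations. -/

open Filter Topology

namespace CarT

noncomputable section

open Classical in
/-- The basis vector `δ_g`. -/
def dl {G : Type} (g : G) : L2 G := lp.single 2 g (1 : ℂ)

open Classical in
theorem dl_apply {G : Type} (g h : G) : dl g h = if h = g then 1 else 0 := by
  unfold dl
  rw [lp.single_apply]
  by_cases hh : h = g
  · subst hh; simp
  · rw [Pi.single_eq_of_ne hh, if_neg hh]

open Classical in
theorem memlp_restr {G : Type} (S : Set G) (f : L2 G) :
    Memℓp (fun h => if h ∈ S then f h else 0) 2 := by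
  have h := lp.memℓp f
  rw [memℓp_gen_iff (by norm_num)] at h ⊢
  refine Summable.of_nonneg_of_le (fun i => by positivity) (fun i => ?_) h
  split_ifs with hi
  · exact le_rfl
  · simp only [norm_zero]
    rw [Real.zero_rpow (by norm_num)]
    positivity

open Classical in
/-- Restriction of vectors of `ℓ²(G)` to a subset of `G`. -/
def restr {G : Type} (S : Set G) : Op G :=
  LinearMap.mkContinuous
    { toFun := fun f => ⟨fun h => if h ∈ S then f h else 0, memlp_restr S f⟩
      map_add' := fun f g => by
        ext h
        show (if h ∈ S then (f + g) h else 0) = (if h ∈ S then f h else 0) +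
          (if h ∈ S then g h else 0)
        split_ifs
        · rfl
        · simp
      map_smul' := fun c f => by
        ext h
        show (if h ∈ S then (c • f) h else 0) = c • (if h ∈ S then f h else 0)
        split_ifs
        · rfl
        · simp } 1 (fun f => by
      rw [one_mul]
      have h2 : (0 : ℝ) < (2 : ENNReal).toReal := by norm_num
      refine (Real.rpow_le_rpow_iff (norm_nonneg _) (norm_nonneg _) h2).mp ?_
      rw [lp.norm_rpow_eq_tsum h2, lp.norm_rpow_eq_tsum h2]
      refine Summable.tsum_le_tsum (fun i => ?_)
        ((memℓp_gen_iff h2).mp (memlp_restr S f)) ((memℓp_gen_iff h2).mp (lp.memℓp f))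
      show ‖(if i ∈ S then f i else 0)‖ ^ _ ≤ _
      split_ifs with hi
      · exact le_rfl
      · rw [norm_zero, Real.zero_rpow h2.ne']
        positivity)

open Classical in
@[simp] theorem restr_apply {G : Type} (S : Set G) (f : L2 G) (h : G) :
    restr S f h = if h ∈ S then f h else 0 := rfl

/-- Coefficient of an operator at a group element. -/
def coef {G : Type} [Group G] (T : Op G) (g : G) : ℂ := T (dl 1) g

end

end CarT
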