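import Pool.Agent.CarT.Opr

/-! The group elements contained in a Cartan subalgebra (rows). -/

open Filter Topology

namespace CarT

noncomputable section

variable {G : Type} [Group G]

-- BEGIN azero
/-- The `g` with `λ_g ∈ A` form an abelian subgroup (`A = A' ∩ L(G)` is closed under products,
adjoints, contains `1`; `lamb`). -/
theorem azero (A : Set (Op G)) (hA : IsCartan (groupVN G) A) : ∃ A0 : Subgroup G,
    (∀ g, g ∈ A0 ↔ lam g ∈ A) ∧ ∀ a ∈ A0, ∀ b ∈ A0, a * b = b * a := by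
  obtain ⟨-, l2, l3, -, l5, l6, l7, l8⟩ := lamb (G := G)
  obtain ⟨g1, -, -, g4, -⟩ := galg (G := G)
  have hmul : ∀ a ∈ A, ∀ b ∈ A, a * b ∈ A := by
    intro a ha b hb
    refine hA.maximal _ (g1 a (hA.sub ha) b (hA.sub hb)) fun c hc => ?_
    rw [← mul_assoc, hA.comm c hc a ha, mul_assoc, hA.comm c hc b hb, mul_assoc]
  refine ⟨{ carrier := {g | lam g ∈ A}
            mul_mem' := ?_
            one_mem' := ?_
            inv_mem' := ?_ }, fun g => Iff.rfl, ?_⟩
  · intro a b ha hb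
    show lam (a * b) ∈ A
    rw [← l2]
    exact hmul _ ha _ hb
  · show lam 1 ∈ A
    rw [l8]
    exact hA.maximal _ g4 fun c _ => by rw [mul_one, one_mul]
  · intro a ha
    show lam a⁻¹ ∈ A
    rw [← l3]
    exact hA.star_mem _ ha
  · intro a ha b hb
    by_contra hab
    have h1 : lam (a * b) = lam (b * a) := by
      rw [← l2, ← l2]
      exact hA.comm _ ha _ hb
    have h2 := l7 (b * a) (a * b) hab
    rw [← h1, l6] at h2
    exact one_ne_zero h2
-- END azero

-- BEGIN cfin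
/-- If `a ∈ A` and `coef a g ≠ 0`, then `g` has finitely many conjugates under `A0`: `a` commutes
with `λ_b`, so `coef a (b g b⁻¹) = coef a g` (`lamb`, `rtr`), and `a δ_1` is in `ℓ²`. -/
theorem cfin (A : Set (Op G)) (hA : IsCartan (groupVN G) A) (A0 : Subgroup G)
    (h0 : ∀ g, g ∈ A0 ↔ lam g ∈ A) (a : Op G) (ha : a ∈ A) (g : G) (hg : coef a g ≠ 0) :
    Set.Finite {k : G | ∃ b ∈ A0, k = b * g * b⁻¹} := by
  have hM : a ∈ groupVN G := hA.sub ha
  have h2 : (0 : ℝ) < (2 : ENNReal).toReal := by norm_num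
  have hs : Summable (fun h : G => ‖(a (dl 1)) h‖ ^ (2 : ENNReal).toReal) :=
    (memℓp_gen_iff h2).mp (lp.memℓp (a (dl 1)))
  have hpos : (0 : ℝ) < ‖coef a g‖ ^ (2 : ENNReal).toReal :=
    Real.rpow_pos_of_pos (norm_pos_iff.mpr hg) _
  have hev := (hs.tendsto_cofinite_zero).eventually_lt_const hpos
  rw [Filter.eventually_cofinite] at hev
  refine hev.subset ?_
  rintro k ⟨b, hb, rfl⟩
  rw [Set.mem_ofPred_eq, not_lt]
  have hc : a * lam b = lam b * a := hA.comm a ha (lam b) ((h0 b).mp hb)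
  have h1 : lam b (dl (1 : G)) = dl b := by
    have h := (lamb (G := G)).1 b 1
    rw [mul_one] at h
    exact h
  have h3 : a (dl b) = lam b (a (dl 1)) := by
    have h := congrArg (fun T : Op G => T (dl (1 : G))) hc
    have h4 : (a * lam b) (dl (1 : G)) = a (lam b (dl 1)) := rfl
    have h5 : (lam b * a) (dl (1 : G)) = lam b (a (dl 1)) := rfl
    rw [← h1, ← h4, ← h5, hc]
  have h6 : coef a (b * g * b⁻¹) = coef a g := by
    have h7 := rtr a hM (b * g) b
    rw [h3, lam_apply, inv_mul_cancel_left] at h7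
    rw [← h7]
    rfl
  have h8 : (a (dl (1 : G))) (b * g * b⁻¹) = coef a g := h6
  rw [h8]
-- END cfin

-- BEGIN hsub
/-- The `h` with finitely many conjugates under `A0` form a subgroup. -/
theorem hsub (A0 : Subgroup G) : ∃ H : Subgroup G, ∀ h, h ∈ H ↔
    Set.Finite {k : G | ∃ b ∈ A0, k = b * h * b⁻¹} := by
  refine ⟨{ carrier := {h : G | Set.Finite {k : G | ∃ b ∈ A0, k = b * h * b⁻¹}}
            mul_mem' := ?_
            one_mem' := ?_
            inv_mem' := ?_ }, fun h => Iff.rfl⟩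
  · intro x y hx hy
    refine (Set.Finite.image2 (fun p q : G => p * q) hx hy).subset ?_
    rintro k ⟨b, hb, rfl⟩
    refine ⟨b * x * b⁻¹, ⟨b, hb, rfl⟩, b * y * b⁻¹, ⟨b, hb, rfl⟩, ?_⟩
    show b * x * b⁻¹ * (b * y * b⁻¹) = b * (x * y) * b⁻¹
    group
  · refine (Set.finite_singleton (1 : G)).subset ?_
    rintro k ⟨b, hb, rfl⟩
    rw [mul_one, mul_inv_cancel]
    exact Set.mem_singleton 1
  · intro x hx
    refine (Set.Finite.image (fun p : G => p⁻¹) hx).subset ?_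
    rintro k ⟨b, hb, rfl⟩
    refine ⟨b * x * b⁻¹, ⟨b, hb, rfl⟩, ?_⟩
    show (b * x * b⁻¹)⁻¹ = b * x⁻¹ * b⁻¹
    group
-- END hsub

-- BEGIN cent
/-- If `h` has finitely many conjugates under `A0`, a finite index subgroup of `A0` commutes with
`h`. -/
theorem cent (A0 : Subgroup G) (h : G) (hf : Set.Finite {k : G | ∃ b ∈ A0, k = b * h * b⁻¹}) :
    ∃ A1 : Subgroup G, A1 ≤ A0 ∧ A1.relIndex A0 ≠ 0 ∧ ∀ a ∈ A1, a * h = h * a := by
  have hfin : Finite (A0 ⧸ (A0 ⊓ Subgroup.centralizer {h}).subgroupOf A0) := by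
    have h1 : Finite ↥{k : G | ∃ b ∈ A0, k = b * h * b⁻¹} := hf.to_subtype
    let F : A0 → ↥{k : G | ∃ b ∈ A0, k = b * h * b⁻¹} := fun b => ⟨b * h * (b : G)⁻¹, b, b.2, rfl⟩
    have hF : ∀ a b : A0, F a = F b → a⁻¹ * b ∈ (A0 ⊓ Subgroup.centralizer {h}).subgroupOf A0 := by
      intro a b hab
      have h2 : (a : G) * h * (a : G)⁻¹ = (b : G) * h * (b : G)⁻¹ := congrArg Subtype.val hab
      rw [Subgroup.mem_subgroupOf, Subgroup.mem_inf]
      refine ⟨(a⁻¹ * b).2, ?_⟩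
      rw [Subgroup.mem_centralizer_singleton_iff]
      show (a : G)⁻¹ * (b : G) * h = h * ((a : G)⁻¹ * (b : G))
      calc (a : G)⁻¹ * (b : G) * h = (a : G)⁻¹ * ((b : G) * h * (b : G)⁻¹) * b := by group
        _ = (a : G)⁻¹ * ((a : G) * h * (a : G)⁻¹) * b := by rw [h2]
        _ = h * ((a : G)⁻¹ * (b : G)) := by group
    refine Finite.of_injective (fun x : A0 ⧸ (A0 ⊓ Subgroup.centralizer {h}).subgroupOf A0 => F (Quotient.out x)) ?_
    intro x y hxy
    have h3 := hF _ _ hxy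
    have h4 := (QuotientGroup.eq (s := (A0 ⊓ Subgroup.centralizer {h}).subgroupOf A0)).2 h3
    rwa [QuotientGroup.out_eq', QuotientGroup.out_eq'] at h4
  refine ⟨A0 ⊓ Subgroup.centralizer {h}, inf_le_left, ?_, ?_⟩
  · exact Subgroup.index_ne_zero_of_finite (H := (A0 ⊓ Subgroup.centralizer {h}).subgroupOf A0)
  · intro a ha
    exact Subgroup.mem_centralizer_singleton_iff.1 (Subgroup.mem_inf.1 ha).2
-- END cent

-- BEGIN cosf
/-- Cosets: if the subgroup `{a ∈ A0 : g a g⁻¹ ∈ H}` has infinite index in `A0`, there are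
arbitrarily large finite `s ⊆ A0` with `g a⁻¹ b g⁻¹ ∈ H` only for `a = b` in `s`. -/
theorem cosf (A0 H : Subgroup G) (g : G)
    (hi : (A0 ⊓ H.comap (MulAut.conj g).toMonoidHom).relIndex A0 = 0) (n : ℕ) :
    ∃ s : Finset G, (∀ a ∈ s, a ∈ A0) ∧ n ≤ s.card ∧
      ∀ a ∈ s, ∀ b ∈ s, g * a⁻¹ * b * g⁻¹ ∈ H → a = b := by
  classical
  set K : Subgroup A0 := (A0 ⊓ H.comap (MulAut.conj g).toMonoidHom).subgroupOf A0 with hK
  have hinf : Infinite (A0 ⧸ K) := Subgroup.index_eq_zero_iff_infinite.mp hi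
  obtain ⟨t, ht⟩ := Infinite.exists_subset_card_eq (A0 ⧸ K) n
  have hinj : Function.Injective (fun q : A0 ⧸ K => ((Quotient.out q : A0) : G)) := by
    intro q q' h
    have h1 : Quotient.out q = Quotient.out q' := Subtype.ext h
    rw [← Quotient.out_eq' q, ← Quotient.out_eq' q']
    exact congrArg _ h1
  refine ⟨t.image (fun q : A0 ⧸ K => ((Quotient.out q : A0) : G)), ?_, ?_, ?_⟩
  · intro a ha
    obtain ⟨q, _, rfl⟩ := Finset.mem_image.mp ha
    exact (Quotient.out q).2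
  · rw [Finset.card_image_of_injective _ hinj, ht]
  · intro a ha b hb h
    obtain ⟨q, _, rfl⟩ := Finset.mem_image.mp ha
    obtain ⟨q', _, rfl⟩ := Finset.mem_image.mp hb
    have h1 : (Quotient.out q)⁻¹ * Quotient.out q' ∈ K := by
      show (((Quotient.out q)⁻¹ * Quotient.out q' : A0) : G) ∈
        A0 ⊓ H.comap (MulAut.conj g).toMonoidHom
      refine Subgroup.mem_inf.mpr ⟨((Quotient.out q)⁻¹ * Quotient.out q').2, ?_⟩
      rw [Subgroup.mem_comap]
      have e : (MulAut.conj g).toMonoidHom (((Quotient.out q)⁻¹ * Quotient.out q' : A0) : G) =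
          g * ((Quotient.out q : A0) : G)⁻¹ * ((Quotient.out q' : A0) : G) * g⁻¹ := by
        show g * (((Quotient.out q)⁻¹ * Quotient.out q' : A0) : G) * g⁻¹ = _
        simp [mul_assoc]
      rw [e]
      exact h
    have h2 : q = q' := by
      rw [← QuotientGroup.out_eq' q, ← QuotientGroup.out_eq' q']
      exact QuotientGroup.eq.mpr h1
    rw [h2]
-- END cosf

-- BEGIN finone
/-- Main operator statement: for every `g` a finite index subgroup `B` of `A0` has: each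
`g b g⁻¹`, `b ∈ B`, commutes with a finite index subgroup of `A0`. Proof: `H` from `hsub`;
`A` is supported on `H` (`cfin`); `u` from `exn` with `coef u g ≠ 0`; for `a ∈ A0`,
`w = u λ_a u* ∈ A`, `w u = u λ_a`; `orb` with `C = H` and `cosf`: `B = {a ∈ A0 : g a g⁻¹ ∈ H}` has
finite index; `cent`. -/
theorem finone (A : Set (Op G)) (hA : IsCartan (groupVN G) A) (A0 : Subgroup G)
    (h0 : ∀ g, g ∈ A0 ↔ lam g ∈ A) (g : G) : ∃ B : Subgroup G, B ≤ A0 ∧ B.relIndex A0 ≠ 0 ∧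
      ∀ b ∈ B, ∃ A1 : Subgroup G, A1 ≤ A0 ∧ A1.relIndex A0 ≠ 0 ∧
        ∀ a ∈ A1, a * (g * b * g⁻¹) = (g * b * g⁻¹) * a := by
  obtain ⟨H, hH⟩ := hsub A0
  obtain ⟨u, ⟨huM, huU, huA⟩, hug⟩ := exn A hA g
  have hu1 : star u * u = 1 := (Unitary.mem_iff.1 huU).1
  have hfin : (A0 ⊓ H.comap (MulAut.conj g).toMonoidHom).relIndex A0 ≠ 0 := by
    intro hi
    refine hug (orb H u huM (A0 : Set G) ?_ g (fun n => cosf A0 H g hi n))
    intro a ha
    have hla : lam a ∈ A := (h0 a).1 ha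
    have hwA : u * lam a * star u ∈ A := by
      rw [← huA]
      exact ⟨lam a, hla, rfl⟩
    refine ⟨u * lam a * star u, hA.sub hwA,
      mul_mem (mul_mem huU (lamb.2.2.2.1 a)) (Unitary.star_mem huU), fun g' hg' => ?_, ?_⟩
    · by_contra hne
      exact hg' ((hH g').2 (cfin A hA A0 h0 _ hwA g' hne))
    · rw [mul_assoc (u * lam a), hu1, mul_one]
  refine ⟨A0 ⊓ H.comap (MulAut.conj g).toMonoidHom, inf_le_left, hfin, fun b hb => ?_⟩
  have hbH : g * b * g⁻¹ ∈ H := (Subgroup.mem_inf.1 hb).2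
  exact cent A0 _ ((hH _).1 hbH)
-- END finone

end

end CarT
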