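import Pool.Agent.CarT.Act

/-! Commensurated abelian torsion subgroups (rows). -/

open Filter Topology

namespace CarT

-- BEGIN hact
/-- `h = (g a g⁻¹) a⁻¹` is `g` on `J`, `a g⁻¹ a⁻¹` on `a J`, the identity elsewhere (`g` supported
on `J`, `a J ∩ J = ∅`). -/
theorem hact {Y : Type} (g a : Equiv.Perm Y) (J : Set Y) (hg : ∀ s, s ∉ J → g s = s)
    (ha : ∀ s ∈ J, a s ∉ J) :
    (∀ s ∈ J, (g * a * g⁻¹ * a⁻¹) s = g s) ∧
    (∀ s ∈ J, (g * a * g⁻¹ * a⁻¹) (a s) = a (g⁻¹ s)) ∧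
    (∀ s, s ∉ J → a⁻¹ s ∉ J → (g * a * g⁻¹ * a⁻¹) s = s) := by
  have ai : ∀ s, a (a⁻¹ s) = s := fun s => a.apply_symm_apply s
  have ia : ∀ s, a⁻¹ (a s) = s := fun s => a.symm_apply_apply s
  have gi : ∀ s, g (g⁻¹ s) = s := fun s => g.apply_symm_apply s
  have hgi : ∀ s, s ∉ J → g⁻¹ s = s := by
    intro s hs
    rw [Equiv.Perm.inv_eq_iff_eq]
    exact (hg s hs).symm
  have hgJ : ∀ s ∈ J, g⁻¹ s ∈ J := by
    intro s hs
    by_contra h
    have h1 := hg _ h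
    rw [gi] at h1
    rw [← h1] at h
    exact h hs
  refine ⟨?_, ?_, ?_⟩
  · intro s hs
    have h1 : a⁻¹ s ∉ J := by
      intro h2
      have := ha _ h2
      rw [ai] at this
      exact this hs
    rw [Equiv.Perm.mul_apply, Equiv.Perm.mul_apply, Equiv.Perm.mul_apply, hgi _ h1, ai]
  · intro s hs
    rw [Equiv.Perm.mul_apply, Equiv.Perm.mul_apply, Equiv.Perm.mul_apply, ia]
    exact hg _ (ha _ (hgJ s hs))
  · intro s hs h1
    rw [Equiv.Perm.mul_apply, Equiv.Perm.mul_apply, Equiv.Perm.mul_apply, hgi _ h1, ai]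
    exact hg s hs
-- END hact

-- BEGIN rgerm
/-- Left germ at the right end of a cone: `x ∈ V_d` maps some cone with the same right end
`(b+1)/d^m` affinely onto a cone. -/
theorem rgerm (d m b : ℕ) (hd : 2 ≤ d) (hb : b < d ^ m) (x : Equiv.Perm X) (hx : IsVd d x) :
    ∃ m1 m2 a2 : ℕ, m ≤ m1 ∧ CM d x m1 ((b + 1) * d ^ (m1 - m) - 1) m2 a2 := by
  obtain ⟨M, hM⟩ := vlev d hd x hx
  have hlt : (b + 1) * d ^ (max M m - m) - 1 < d ^ (max M m) := by
    have h1 : d ^ (max M m) = d ^ m * d ^ (max M m - m) := by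
      rw [← pow_add]
      congr 1
      have := le_max_right M m
      omega
    have h2 : 0 < d ^ (max M m - m) := Nat.pow_pos (by omega)
    have h3 : (b + 1) * d ^ (max M m - m) ≤ d ^ m * d ^ (max M m - m) := Nat.mul_le_mul_right _ hb
    have h4 : 0 < (b + 1) * d ^ (max M m - m) := Nat.mul_pos (Nat.succ_pos _) h2
    omega
  obtain ⟨m', a', h, _⟩ := vup d hd x M hM (max M m) (le_max_left _ _) _ hlt
  exact ⟨max M m, m', a', le_max_right _ _, h⟩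
-- END rgerm

-- BEGIN stay
theorem stay_ai {Y : Type} (g : Equiv.Perm Y) (s : Y) : g (g⁻¹ s) = s := g.apply_symm_apply s

theorem stay_up (d m b : ℕ) (g : Equiv.Perm X) (hg : IsPush d m b g) (s : X)
    (h0 : (b : ℝ) ≤ (d : ℝ) ^ m * s) (h1 : (d : ℝ) ^ m * s < b + 1) : s ≤ g s := by
  rcases h0.eq_or_lt with h | h
  · rw [hg.left s h.symm]
  · exact (hg.up s h h1).1.le

theorem stay_int (d m b : ℕ) (hd : 2 ≤ d) (g : Equiv.Perm X) (hg : IsPush d m b g) (s : X)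
    (h0 : (b : ℝ) < (d : ℝ) ^ m * s) (h1 : (d : ℝ) ^ m * s < b + 1) :
    (b : ℝ) < (d : ℝ) ^ m * (g s : ℝ) ∧ (d : ℝ) ^ m * (g s : ℝ) < b + 1 := by
  have h2 := hg.up s h0 h1
  have h3 : (s : ℝ) < (g s : ℝ) := h2.1
  have hd0 : (0 : ℝ) < (d : ℝ) ^ m := by positivity
  exact ⟨by nlinarith, h2.2.2⟩

theorem stay_pow (d m b : ℕ) (hd : 2 ≤ d) (g h : Equiv.Perm X) (hg : IsPush d m b g)
    (hh : ∀ s ∈ cone d m b, h s = g s) (s : X)
    (h0 : (b : ℝ) < (d : ℝ) ^ m * s) (h1 : (d : ℝ) ^ m * s < b + 1) (n : ℕ) :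
    ((b : ℝ) < (d : ℝ) ^ m * ((g ^ n) s : ℝ) ∧ (d : ℝ) ^ m * ((g ^ n) s : ℝ) < b + 1) ∧
      (h ^ n) s = (g ^ n) s := by
  induction n with
  | zero => exact ⟨by simpa using ⟨h0, h1⟩, by simp⟩
  | succ n ih =>
    have e1 : (g ^ (n + 1)) s = g ((g ^ n) s) := by rw [pow_succ', Equiv.Perm.mul_apply]
    have e2 : (h ^ (n + 1)) s = h ((h ^ n) s) := by rw [pow_succ', Equiv.Perm.mul_apply]
    refine ⟨?_, ?_⟩
    · rw [e1]
      exact stay_int d m b hd g hg _ ih.1.1 ih.1.2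
    · rw [e1, e2, ih.2]
      exact hh _ ⟨ih.1.1.le, ih.1.2⟩

/-- An `x ∈ V_d` commuting with `h = g a g⁻¹ a⁻¹` (`g` a push on `J = cone (m,b)`, `a` maps `J`
affinely onto a cone disjoint from `J`) maps the interior of `J` into itself. Proof: for `t` in the
interior, `t_j = g^j t` increases to the right end, `x` is increasing near it (`rgerm`), so
`x(t_j) = h^j (x t)` is strictly increasing for large `j`; but `h^j s` is constant for
`s ∉ J ∪ a J` and at the left end of `J`, and (weakly) decreasing for `s ∈ a J` (`hact`). -/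
theorem stay (d m b : ℕ) (hd : 2 ≤ d) (hb : b < d ^ m) (g a x : Equiv.Perm X)
    (hg : IsPush d m b g) (m' b' : ℕ) (ha : CM d a m b m' b')
    (haJ : ∀ s ∈ cone d m b, a s ∉ cone d m b) (hx : IsVd d x)
    (hc : x * (g * a * g⁻¹ * a⁻¹) = (g * a * g⁻¹ * a⁻¹) * x) (t : X)
    (h0 : (b : ℝ) < (d : ℝ) ^ m * t) (h1 : (d : ℝ) ^ m * t < b + 1) :
    (b : ℝ) < (d : ℝ) ^ m * (x t : ℝ) ∧ (d : ℝ) ^ m * (x t : ℝ) < b + 1 := by
  obtain ⟨hJ, haJ', hoff⟩ := hact g a (cone d m b) hg.off haJ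
  set h : Equiv.Perm X := g * a * g⁻¹ * a⁻¹ with hdef
  obtain ⟨m1, m2, a2, hm1, hcm⟩ := rgerm d m b hd hb x hx
  have hd1 : (1 : ℝ) < (d : ℝ) := by exact_mod_cast hd
  have hd0 : ∀ k : ℕ, (0 : ℝ) < (d : ℝ) ^ k := fun k => by positivity
  have hpow : (d : ℝ) ^ m1 = (d : ℝ) ^ m * (d : ℝ) ^ (m1 - m) := by
    rw [← pow_add]; congr 1; omega
  have hcast : (((b + 1) * d ^ (m1 - m) - 1 : ℕ) : ℝ) = (b + 1) * (d : ℝ) ^ (m1 - m) - 1 := by
    rw [Nat.cast_sub]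
    · push_cast; ring
    · exact Nat.one_le_iff_ne_zero.mpr (by positivity)
  -- the points `t_n` are eventually in the germ cone
  obtain ⟨N, hN⟩ := hg.lim t h0 h1 (1 / (d : ℝ) ^ (m1 - m)) (by positivity)
  have hgerm : ∀ n ≥ N, (g ^ n) t ∈ cone d m1 ((b + 1) * d ^ (m1 - m) - 1) := by
    intro n hn
    have e1 := hN n hn
    have e2 := (stay_pow d m b hd g h hg hJ t h0 h1 n).1.2
    have hp := hd0 (m1 - m)
    refine ⟨?_, ?_⟩
    · rw [hcast, hpow]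
      have : ((b : ℝ) + 1 - 1 / (d : ℝ) ^ (m1 - m)) * (d : ℝ) ^ (m1 - m) ≤
          (d : ℝ) ^ m * ((g ^ n) t : ℝ) * (d : ℝ) ^ (m1 - m) :=
        mul_le_mul_of_nonneg_right e1.le hp.le
      have h3 : ((b : ℝ) + 1 - 1 / (d : ℝ) ^ (m1 - m)) * (d : ℝ) ^ (m1 - m) =
          ((b : ℝ) + 1) * (d : ℝ) ^ (m1 - m) - 1 := by field_simp
      rw [h3] at this
      linarith
    · rw [hcast, hpow]
      have : (d : ℝ) ^ m * ((g ^ n) t : ℝ) * (d : ℝ) ^ (m1 - m) <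
          ((b : ℝ) + 1) * (d : ℝ) ^ (m1 - m) := mul_lt_mul_of_pos_right e2 hp
      linarith
  have hcomm : ∀ n : ℕ, x ((h ^ n) t) = (h ^ n) (x t) := by
    intro n
    have hcc : Commute x (h ^ n) := Commute.pow_right hc n
    have := congrArg (fun f : Equiv.Perm X => f t) hcc.eq
    simpa [Equiv.Perm.mul_apply] using this
  -- `y_n = h^n (x t)` is strictly increasing for `n ≥ N`
  have hinc : (h ^ N) (x t) < (h ^ (N + 1)) (x t) := by
    rw [← hcomm, ← hcomm, (stay_pow d m b hd g h hg hJ t h0 h1 N).2,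
      (stay_pow d m b hd g h hg hJ t h0 h1 (N + 1)).2]
    have e1 := hcm _ (hgerm N le_rfl)
    have e2 := hcm _ (hgerm (N + 1) (Nat.le_succ N))
    have e3 : (((g ^ N) t : X) : ℝ) < ((g ^ (N + 1)) t : X) := by
      rw [pow_succ', Equiv.Perm.mul_apply]
      have e4 := (stay_pow d m b hd g h hg hJ t h0 h1 N).1
      exact (hg.up _ e4.1 e4.2).1
    have e5 : (d : ℝ) ^ m1 * ((g ^ N) t : ℝ) < (d : ℝ) ^ m1 * ((g ^ (N + 1)) t : ℝ) :=
      mul_lt_mul_of_pos_left e3 (hd0 m1)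
    have e6 : (d : ℝ) ^ m2 * (x ((g ^ N) t) : ℝ) < (d : ℝ) ^ m2 * (x ((g ^ (N + 1)) t) : ℝ) := by
      rw [e1, e2]; linarith
    have e7 : (x ((g ^ N) t) : ℝ) < (x ((g ^ (N + 1)) t) : ℝ) :=
      lt_of_mul_lt_mul_left e6 (hd0 m2).le
    exact e7
  -- fixed points of `h` are excluded
  have hfix : h (x t) ≠ x t := by
    intro hf
    have : ∀ n : ℕ, (h ^ n) (x t) = x t := by
      intro n
      induction n with
      | zero => simp
      | succ n ih => rw [pow_succ', Equiv.Perm.mul_apply, ih, hf]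
    rw [this, this] at hinc
    exact lt_irrefl _ hinc
  by_cases hy : x t ∈ cone d m b
  · refine ⟨lt_of_le_of_ne hy.1 ?_, hy.2⟩
    intro hne
    exact hfix (by rw [hJ _ hy, hg.left _ hne.symm])
  · exfalso
    by_cases hy' : a⁻¹ (x t) ∈ cone d m b
    · -- `h^n y = a (g^(-n) (a⁻¹ y))`
      have hgJ : ∀ s ∈ cone d m b, g⁻¹ s ∈ cone d m b := by
        intro s hs
        by_contra hcon
        have := hg.off _ hcon
        rw [stay_ai] at this
        rw [← this] at hcon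
        exact hcon hs
      have hit : ∀ n : ℕ, (g⁻¹ ^ n) (a⁻¹ (x t)) ∈ cone d m b ∧
          (h ^ n) (x t) = a ((g⁻¹ ^ n) (a⁻¹ (x t))) := by
        intro n
        induction n with
        | zero => exact ⟨by simpa using hy', by simp⟩
        | succ n ih =>
          have e1 : (g⁻¹ ^ (n + 1)) (a⁻¹ (x t)) = g⁻¹ ((g⁻¹ ^ n) (a⁻¹ (x t))) := by
            rw [pow_succ', Equiv.Perm.mul_apply]
          have e2 : (h ^ (n + 1)) (x t) = h ((h ^ n) (x t)) := by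
            rw [pow_succ', Equiv.Perm.mul_apply]
          refine ⟨by rw [e1]; exact hgJ _ ih.1, ?_⟩
          rw [e1, e2, ih.2, haJ' _ ih.1]
      obtain ⟨hz1, hz2⟩ := hit N
      obtain ⟨hw1, hw2⟩ := hit (N + 1)
      have e1 := ha _ hz1
      have e2 := ha _ hw1
      rw [hz2, hw2] at hinc
      have e3 : (a ((g⁻¹ ^ N) (a⁻¹ (x t))) : ℝ) < (a ((g⁻¹ ^ (N + 1)) (a⁻¹ (x t))) : ℝ) := hinc
      have e4 := mul_lt_mul_of_pos_left e3 (hd0 m')
      rw [e1, e2] at e4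
      have e5 : (d : ℝ) ^ m * ((g⁻¹ ^ N) (a⁻¹ (x t)) : ℝ) <
          (d : ℝ) ^ m * ((g⁻¹ ^ (N + 1)) (a⁻¹ (x t)) : ℝ) := by linarith
      have e6 : ((g⁻¹ ^ N) (a⁻¹ (x t)) : ℝ) < ((g⁻¹ ^ (N + 1)) (a⁻¹ (x t)) : ℝ) :=
        lt_of_mul_lt_mul_left e5 (hd0 m).le
      have e7 : (g⁻¹ ^ (N + 1)) (a⁻¹ (x t)) ≤ g ((g⁻¹ ^ (N + 1)) (a⁻¹ (x t))) :=
        stay_up d m b g hg _ hw1.1 hw1.2
      have e8 : g ((g⁻¹ ^ (N + 1)) (a⁻¹ (x t))) = (g⁻¹ ^ N) (a⁻¹ (x t)) := by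
        rw [pow_succ', Equiv.Perm.mul_apply, stay_ai]
      rw [e8] at e7
      exact absurd e6 (not_lt.mpr e7)
    · exact hfix (hoff _ hy hy')
-- END stay

-- BEGIN germid
/-- Iterates of a push stay in the interior of the cone. -/
private theorem germid_int (d m b : ℕ) (g : Equiv.Perm X) (hg : IsPush d m b g) (t : X)
    (h0 : (b : ℝ) < (d : ℝ) ^ m * t) (h1 : (d : ℝ) ^ m * t < b + 1) (n : ℕ) :
    (b : ℝ) < (d : ℝ) ^ m * ((g ^ n) t : ℝ) ∧ (d : ℝ) ^ m * ((g ^ n) t : ℝ) < b + 1 := by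
  induction n with
  | zero => exact ⟨h0, h1⟩
  | succ n ih =>
    have h2 := hg.up ((g ^ n) t) ih.1 ih.2
    have h3 : (g ^ (n + 1)) t = g ((g ^ n) t) := by
      rw [pow_succ']
      rfl
    rw [h3]
    refine ⟨lt_of_lt_of_le ih.1 ?_, h2.2.2⟩
    exact mul_le_mul_of_nonneg_left (le_of_lt h2.1) (by positivity)

/-- If moreover `x^N = 1`, `N ≥ 1`, then `x` is the identity near the right end of `J`: by `stay`
and `IsPush.lim` the target cone of `rgerm` has the same right end, so near it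
`β - x(τ) = ρ (β - τ)`, and `x^N = 1` forces `ρ^N = 1`, `ρ = 1`. -/
theorem germid (d m b : ℕ) (hd : 2 ≤ d) (hb : b < d ^ m) (g a x : Equiv.Perm X)
    (hg : IsPush d m b g) (m' b' : ℕ) (ha : CM d a m b m' b')
    (haJ : ∀ s ∈ cone d m b, a s ∉ cone d m b) (hx : IsVd d x)
    (hc : x * (g * a * g⁻¹ * a⁻¹) = (g * a * g⁻¹ * a⁻¹) * x) (N : ℕ) (hN : 0 < N)
    (hxN : x ^ N = 1) : ∃ ε : ℝ, 0 < ε ∧ ∀ s : X, (b : ℝ) + 1 - ε < (d : ℝ) ^ m * s →
      (d : ℝ) ^ m * s < b + 1 → x s = s := by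
  obtain ⟨m1, m2, a2, hm, hcm⟩ := rgerm d m b hd hb x hx
  have hd0 : (0 : ℝ) < d := by
    have : 0 < d := by omega
    exact_mod_cast this
  have hD : (0 : ℝ) < (d : ℝ) ^ m := pow_pos hd0 _
  have hE : (0 : ℝ) < (d : ℝ) ^ (m1 - m) := pow_pos hd0 _
  have hD1 : (0 : ℝ) < (d : ℝ) ^ m1 := pow_pos hd0 _
  have hD2 : (0 : ℝ) < (d : ℝ) ^ m2 := pow_pos hd0 _
  have hDE : (d : ℝ) ^ m1 = (d : ℝ) ^ m * (d : ℝ) ^ (m1 - m) := by
    rw [← pow_add]
    congr 1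
    omega
  have hE1 : (1 : ℝ) ≤ (d : ℝ) ^ (m1 - m) := by
    apply one_le_pow₀
    have : 1 ≤ d := by omega
    exact_mod_cast this
  set D : ℝ := (d : ℝ) ^ m with hDdef
  set E : ℝ := (d : ℝ) ^ (m1 - m) with hEdef
  set D1 : ℝ := (d : ℝ) ^ m1 with hD1def
  set D2 : ℝ := (d : ℝ) ^ m2 with hD2def
  have hcc : ((((b + 1) * d ^ (m1 - m) - 1 : ℕ) : ℝ)) = (b + 1) * E - 1 := by
    have h4 : 1 ≤ (b + 1) * d ^ (m1 - m) := Nat.mul_pos (Nat.succ_pos _) (Nat.pow_pos (by omega))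
    rw [Nat.cast_sub h4]
    push_cast
    rfl
  -- the germ in terms of `u = b + 1 - D s`
  have hgerm : ∀ s : X, 0 < (b : ℝ) + 1 - D * s → (b : ℝ) + 1 - D * s ≤ 1 / E →
      D2 * ((x s : ℝ)) = a2 + 1 - E * ((b : ℝ) + 1 - D * s) := by
    intro s h1 h2
    have h3 : E * ((b : ℝ) + 1 - D * s) ≤ 1 := by
      calc E * ((b : ℝ) + 1 - D * s) ≤ E * (1 / E) := mul_le_mul_of_nonneg_left h2 hE.le
        _ = 1 := by field_simp
    have h4 : 0 < E * ((b : ℝ) + 1 - D * s) := mul_pos hE h1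
    have h5 := hcm s ⟨by rw [hcc, ← hD1def, hDE]; nlinarith, by rw [hcc, ← hD1def, hDE]; nlinarith⟩
    rw [hcc, ← hD1def, ← hD2def, hDE] at h5
    rw [h5]
    ring
  -- an interior point
  obtain ⟨t, _, ht⟩ := cpt d m b hd hb (1 / 2) (by norm_num) (by norm_num)
  rw [← hDdef] at ht
  have ht0 : (b : ℝ) < D * t := by rw [ht]; linarith
  have ht1 : D * t < b + 1 := by rw [ht]; linarith
  have hy := stay d m b hd hb g a x hg m' b' ha haJ hx hc t ht0 ht1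
  rw [← hDdef] at hy
  have hact1 := (hact g a (cone d m b) hg.off haJ).1
  have hpow : ∀ s : X, (b : ℝ) < D * s → D * s < b + 1 → ∀ n : ℕ,
      ((g * a * g⁻¹ * a⁻¹) ^ n) s = (g ^ n) s := by
    intro s h0 h1 n
    induction n with
    | zero => rfl
    | succ n ih =>
      have h2 := germid_int d m b g hg s h0 h1 n
      rw [pow_succ', pow_succ', Equiv.Perm.mul_apply, Equiv.Perm.mul_apply, ih]
      exact hact1 _ ⟨h2.1.le, h2.2⟩
  have hxg : ∀ n : ℕ, x ((g ^ n) t) = (g ^ n) (x t) := by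
    intro n
    have hcn : x * (g * a * g⁻¹ * a⁻¹) ^ n = (g * a * g⁻¹ * a⁻¹) ^ n * x :=
      (Commute.pow_right (show Commute x (g * a * g⁻¹ * a⁻¹) from hc) n).eq
    rw [← hpow t ht0 ht1 n, ← hpow (x t) hy.1 hy.2 n, ← Equiv.Perm.mul_apply, hcn, Equiv.Perm.mul_apply]
  -- the right end of the target
  have hend : D * ((a2 : ℝ) + 1) = D2 * ((b : ℝ) + 1) := by
    apply eq_of_abs_sub_le_all
    intro ε hε
    have hS : 0 < D * E + D2 := by positivity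
    have hδ : 0 < min (ε / (D * E + D2)) (1 / E) := lt_min (by positivity) (by positivity)
    obtain ⟨N1, hN1⟩ := hg.lim t ht0 ht1 _ hδ
    obtain ⟨N2, hN2⟩ := hg.lim (x t) hy.1 hy.2 _ hδ
    have e1 := hN1 (max N1 N2) (le_max_left _ _)
    have e2 := hN2 (max N1 N2) (le_max_right _ _)
    have i1 := germid_int d m b g hg t ht0 ht1 (max N1 N2)
    have i2 := germid_int d m b g hg (x t) hy.1 hy.2 (max N1 N2)
    rw [← hDdef] at e1 e2 i1 i2
    have f1 := hgerm ((g ^ (max N1 N2)) t) (by linarith [i1.2]) (by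
      have := min_le_right (ε / (D * E + D2)) (1 / E)
      linarith)
    rw [hxg] at f1
    set p : ℝ := (((g ^ (max N1 N2)) t : X) : ℝ) with hp
    set q : ℝ := (((g ^ (max N1 N2)) (x t) : X) : ℝ) with hq
    have g1 : (b : ℝ) + 1 - D * p < ε / (D * E + D2) := by
      have := min_le_left (ε / (D * E + D2)) (1 / E)
      linarith
    have g2 : (b : ℝ) + 1 - D * q < ε / (D * E + D2) := by
      have := min_le_left (ε / (D * E + D2)) (1 / E)
      linarith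
    have key : D * ((a2 : ℝ) + 1) - D2 * ((b : ℝ) + 1) =
        D * E * ((b : ℝ) + 1 - D * p) - D2 * ((b : ℝ) + 1 - D * q) := by
      have : D * (D2 * q) = D * (a2 + 1 - E * ((b : ℝ) + 1 - D * p)) := by rw [f1]
      linarith
    rw [key]
    have hDEp : 0 < D * E := mul_pos hD hE
    have k1 : D * E * ((b : ℝ) + 1 - D * p) ≤ D * E * (ε / (D * E + D2)) :=
      mul_le_mul_of_nonneg_left g1.le hDEp.le
    have k2 : D2 * ((b : ℝ) + 1 - D * q) ≤ D2 * (ε / (D * E + D2)) :=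
      mul_le_mul_of_nonneg_left g2.le hD2.le
    have k3 : 0 ≤ D * E * ((b : ℝ) + 1 - D * p) := mul_nonneg hDEp.le (by linarith [i1.2])
    have k4 : 0 ≤ D2 * ((b : ℝ) + 1 - D * q) := mul_nonneg hD2.le (by linarith [i2.2])
    have k5 : D * E * (ε / (D * E + D2)) + D2 * (ε / (D * E + D2)) = ε := by
      field_simp
    have k6 : 0 ≤ D * E * (ε / (D * E + D2)) := by positivity
    have k7 : 0 ≤ D2 * (ε / (D * E + D2)) := by positivity
    rw [abs_le]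
    constructor
    · linarith
    · linarith
  -- the ratio
  have hrat : ∀ s : X, 0 < (b : ℝ) + 1 - D * s → (b : ℝ) + 1 - D * s ≤ 1 / E →
      (b : ℝ) + 1 - D * (x s : ℝ) = (D1 / D2) * ((b : ℝ) + 1 - D * s) := by
    intro s h1 h2
    have h3 := hgerm s h1 h2
    have h4 : D2 * ((b : ℝ) + 1 - D * (x s : ℝ)) = D1 * ((b : ℝ) + 1 - D * s) := by
      have : D * (D2 * (x s : ℝ)) = D * (a2 + 1 - E * ((b : ℝ) + 1 - D * s)) := by rw [h3]
      rw [hDE]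
      linarith
    rw [div_mul_eq_mul_div, eq_div_iff hD2.ne']
    linarith
  have hρ : 0 < D1 / D2 := div_pos hD1 hD2
  set ρ : ℝ := D1 / D2 with hρdef
  have hK1 : (1 : ℝ) ≤ max 1 ρ := le_max_left _ _
  have hKN : (0 : ℝ) < (max 1 ρ) ^ N := pow_pos (lt_of_lt_of_le one_pos hK1) _
  have hKN1 : (1 : ℝ) ≤ (max 1 ρ) ^ N := one_le_pow₀ hK1
  have hu0 : 0 < 1 / (E * (max 1 ρ) ^ N) := by positivity
  have hu1 : 1 / (E * (max 1 ρ) ^ N) ≤ 1 := by
    rw [div_le_one (by positivity)]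
    nlinarith
  obtain ⟨s0, _, hs0⟩ := cpt d m b hd hb (1 - 1 / (E * (max 1 ρ) ^ N)) (by linarith) (by linarith)
  rw [← hDdef] at hs0
  have hu : (b : ℝ) + 1 - D * s0 = 1 / (E * (max 1 ρ) ^ N) := by rw [hs0]; ring
  have hiter : ∀ j : ℕ, j ≤ N → (b : ℝ) + 1 - D * (((x ^ j) s0 : X) : ℝ) =
      ρ ^ j * (1 / (E * (max 1 ρ) ^ N)) := by
    intro j
    induction j with
    | zero =>
      intro _
      rw [pow_zero, pow_zero, one_mul]
      exact hu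
    | succ j ih =>
      intro hj
      have h1 := ih (by omega)
      have h2 : ρ ^ j ≤ (max 1 ρ) ^ N :=
        le_trans (pow_le_pow_left₀ hρ.le (le_max_right _ _) j) (pow_le_pow_right₀ hK1 (by omega))
      have h3 : ρ ^ j * (1 / (E * (max 1 ρ) ^ N)) ≤ 1 / E := by
        have : (max 1 ρ) ^ N * (1 / (E * (max 1 ρ) ^ N)) = 1 / E := by field_simp
        rw [← this]
        exact mul_le_mul_of_nonneg_right h2 hu0.le
      have h4 : 0 < ρ ^ j * (1 / (E * (max 1 ρ) ^ N)) := mul_pos (pow_pos hρ _) hu0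
      have h5 := hrat ((x ^ j) s0) (by rw [h1]; exact h4) (by rw [h1]; exact h3)
      rw [pow_succ', Equiv.Perm.mul_apply, h5, h1, pow_succ']
      ring
  have hfin := hiter N le_rfl
  rw [hxN, Equiv.Perm.one_apply, hu] at hfin
  have hρN : ρ ^ N = 1 := by
    have h6 : (ρ ^ N - 1) * (1 / (E * (max 1 ρ) ^ N)) = 0 := by linarith
    rcases mul_eq_zero.1 h6 with h7 | h7
    · linarith
    · exact absurd h7 hu0.ne'
  have hρ1 : ρ = 1 := (pow_eq_one_iff_of_nonneg hρ.le hN.ne').1 hρN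
  refine ⟨1 / E, by positivity, fun s h1 h2 => ?_⟩
  have h3 := hrat s (by linarith) (by linarith)
  rw [hρ1, one_mul] at h3
  apply Subtype.ext
  have h4 : D * (x s : ℝ) = D * s := by linarith
  exact mul_left_cancel₀ hD.ne' h4
-- END germid

-- BEGIN torid
/-- So `x` is the identity on the interior of `J`: for large `j`, `x h^j t = h^j t`. -/
theorem torid (d m b : ℕ) (hd : 2 ≤ d) (hb : b < d ^ m) (g a x : Equiv.Perm X)
    (hg : IsPush d m b g) (m' b' : ℕ) (ha : CM d a m b m' b')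
    (haJ : ∀ s ∈ cone d m b, a s ∉ cone d m b) (hx : IsVd d x)
    (hc : x * (g * a * g⁻¹ * a⁻¹) = (g * a * g⁻¹ * a⁻¹) * x) (N : ℕ) (hN : 0 < N)
    (hxN : x ^ N = 1) (s : X) (h0 : (b : ℝ) < (d : ℝ) ^ m * s) (h1 : (d : ℝ) ^ m * s < b + 1) :
    x s = s := by
  have hJ := (hact g a (cone d m b) hg.off haJ).1
  obtain ⟨ε, hε, hgerm⟩ := germid d m b hd hb g a x hg m' b' ha haJ hx hc N hN hxN
  have hdm : (0 : ℝ) < (d : ℝ) ^ m := by
    have : (0 : ℝ) < (d : ℝ) := by exact_mod_cast (by omega : 0 < d)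
    positivity
  have key : ∀ n : ℕ, (b : ℝ) < (d : ℝ) ^ m * ((g ^ n) s : ℝ) ∧
      (d : ℝ) ^ m * ((g ^ n) s : ℝ) < b + 1 ∧
      ((g * a * g⁻¹ * a⁻¹) ^ n) s = (g ^ n) s := by
    intro n
    induction n with
    | zero => exact ⟨by simpa using h0, by simpa using h1, by simp⟩
    | succ n ih =>
      obtain ⟨i1, i2, i3⟩ := ih
      obtain ⟨u1, u2⟩ := hg.up ((g ^ n) s) i1 i2
      have e1 : (g ^ (n + 1)) s = g ((g ^ n) s) := by
        rw [pow_succ', Equiv.Perm.mul_apply]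
      have e2 : ((g * a * g⁻¹ * a⁻¹) ^ (n + 1)) s = g ((g ^ n) s) := by
        rw [pow_succ', Equiv.Perm.mul_apply, i3]
        exact hJ ((g ^ n) s) ⟨i1.le, i2⟩
      refine ⟨?_, ?_, ?_⟩
      · rw [e1]
        have u1' : (((g ^ n) s : X) : ℝ) < ((g ((g ^ n) s) : X) : ℝ) := u1
        exact lt_trans i1 (mul_lt_mul_of_pos_left u1' hdm)
      · rw [e1]
        exact u2.2
      · rw [e1, e2]
  obtain ⟨K, hK⟩ := hg.lim s h0 h1 ε hε
  obtain ⟨k1, k2, k3⟩ := key K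
  have e3 : x ((g ^ K) s) = (g ^ K) s := hgerm _ (hK K le_rfl) k2
  have e4 : x * (g * a * g⁻¹ * a⁻¹) ^ K = (g * a * g⁻¹ * a⁻¹) ^ K * x := by
    have : Commute x (g * a * g⁻¹ * a⁻¹) := hc
    exact (this.pow_right K).eq
  have e5 : ((g * a * g⁻¹ * a⁻¹) ^ K) (x s) = ((g * a * g⁻¹ * a⁻¹) ^ K) s := by
    have e6 := Equiv.congr_fun e4 s
    rw [Equiv.Perm.mul_apply, Equiv.Perm.mul_apply, k3, e3] at e6
    rw [← e6, k3]
  exact ((g * a * g⁻¹ * a⁻¹) ^ K).injective e5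
-- END torid

-- BEGIN rcov
/-- Rotations of a cone interior cover: every point `s` is `r u` for a rotation `r` by `j/d^(m+2)`
(as in `exrot`) and a point `u` of the interior of the cone `(m,b)`. -/
theorem rcov (d m b : ℕ) (hd : 2 ≤ d) (hb : b < d ^ m) (s : X) : ∃ (j : ℕ) (u : X),
    j < d ^ (m + 2) ∧ (b : ℝ) < (d : ℝ) ^ m * u ∧ (d : ℝ) ^ m * u < b + 1 ∧
      (s : ℝ) = if (u : ℝ) + j / d ^ (m + 2) < 1 then (u : ℝ) + j / d ^ (m + 2)
        else (u : ℝ) + j / d ^ (m + 2) - 1 := by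
  have hd' : (2 : ℝ) ≤ d := by exact_mod_cast hd
  have hd0 : (0 : ℝ) < d := by linarith
  have hD : (0 : ℝ) < (d : ℝ) ^ m := by positivity
  have hL : (0 : ℝ) < (d : ℝ) ^ (m + 2) := by positivity
  have hLD : (d : ℝ) ^ (m + 2) = (d : ℝ) ^ m * (d : ℝ) ^ 2 := pow_add _ _ _
  have hd2 : (4 : ℝ) ≤ (d : ℝ) ^ 2 := by nlinarith
  have hs0 : (0 : ℝ) ≤ (s : ℝ) := s.2.1
  have hs1 : (s : ℝ) < 1 := s.2.2
  have hLs : (0 : ℝ) ≤ (d : ℝ) ^ (m + 2) * (s : ℝ) := by positivity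
  obtain ⟨k, hk⟩ : ∃ k : ℕ, k = ⌊(d : ℝ) ^ (m + 2) * (s : ℝ)⌋₊ := ⟨_, rfl⟩
  have hk1 : (k : ℝ) ≤ (d : ℝ) ^ (m + 2) * (s : ℝ) := by
    rw [hk]
    exact Nat.floor_le hLs
  have hk2 : (d : ℝ) ^ (m + 2) * (s : ℝ) < k + 1 := by
    rw [hk]
    exact Nat.lt_floor_add_one _
  have hkL : k < d ^ (m + 2) := by
    have h1 : (k : ℝ) < (d : ℝ) ^ (m + 2) := by
      refine lt_of_le_of_lt hk1 ?_
      have h2 := mul_lt_mul_of_pos_left hs1 hL
      rwa [mul_one] at h2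
    exact_mod_cast h1
  have hbL : b * d ^ 2 + 1 ≤ d ^ (m + 2) := by
    have h1 : (b + 1) * d ^ 2 ≤ d ^ m * d ^ 2 := Nat.mul_le_mul_right _ hb
    have h2 : 1 ≤ d ^ 2 := Nat.one_le_pow _ _ (by omega)
    rw [pow_add]
    rw [add_mul, one_mul] at h1
    omega
  have hbD : (b : ℝ) + 1 ≤ (d : ℝ) ^ m := by exact_mod_cast hb
  -- the point `u`
  have hu0 : (0 : ℝ) ≤ (b * (d : ℝ) ^ 2 + 1 + ((d : ℝ) ^ (m + 2) * (s : ℝ) - k)) / (d : ℝ) ^ (m + 2) := by
    apply div_nonneg _ hL.le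
    have h1 : (0 : ℝ) ≤ b * (d : ℝ) ^ 2 := by positivity
    linarith
  have hu2 : (b * (d : ℝ) ^ 2 + 1 + ((d : ℝ) ^ (m + 2) * (s : ℝ) - k)) < (b + 1) * (d : ℝ) ^ 2 := by
    rw [add_mul, one_mul]
    linarith
  have hu1 : (b * (d : ℝ) ^ 2 + 1 + ((d : ℝ) ^ (m + 2) * (s : ℝ) - k)) / (d : ℝ) ^ (m + 2) < 1 := by
    rw [div_lt_one hL, hLD]
    rw [hLD] at hu2
    exact lt_of_lt_of_le hu2 (mul_le_mul_of_nonneg_right hbD (by positivity))
  have hDu : (d : ℝ) ^ m * ((b * (d : ℝ) ^ 2 + 1 + ((d : ℝ) ^ (m + 2) * (s : ℝ) - k)) / (d : ℝ) ^ (m + 2)) =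
      (b * (d : ℝ) ^ 2 + 1 + ((d : ℝ) ^ (m + 2) * (s : ℝ) - k)) / (d : ℝ) ^ 2 := by
    rw [hLD]
    field_simp
  have hpos2 : (0 : ℝ) < (d : ℝ) ^ 2 := by positivity
  by_cases hkb : b * d ^ 2 + 1 ≤ k
  · refine ⟨k - (b * d ^ 2 + 1), ⟨_, hu0, hu1⟩, by omega, ?_, ?_, ?_⟩
    · show (b : ℝ) < (d : ℝ) ^ m * ((b * (d : ℝ) ^ 2 + 1 + ((d : ℝ) ^ (m + 2) * (s : ℝ) - k)) / (d : ℝ) ^ (m + 2))
      rw [hDu, lt_div_iff₀ hpos2]
      linarith
    · show (d : ℝ) ^ m * ((b * (d : ℝ) ^ 2 + 1 + ((d : ℝ) ^ (m + 2) * (s : ℝ) - k)) / (d : ℝ) ^ (m + 2)) < b + 1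
      rw [hDu, div_lt_iff₀ hpos2]
      linarith
    · have h1 : (b * (d : ℝ) ^ 2 + 1 + ((d : ℝ) ^ (m + 2) * (s : ℝ) - k)) / (d : ℝ) ^ (m + 2) +
          ((k - (b * d ^ 2 + 1) : ℕ) : ℝ) / (d : ℝ) ^ (m + 2) = s := by
        rw [Nat.cast_sub hkb]
        push_cast
        field_simp
        ring
      show (s : ℝ) = if (b * (d : ℝ) ^ 2 + 1 + ((d : ℝ) ^ (m + 2) * (s : ℝ) - k)) / (d : ℝ) ^ (m + 2) +
          ((k - (b * d ^ 2 + 1) : ℕ) : ℝ) / (d : ℝ) ^ (m + 2) < 1 then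
        (b * (d : ℝ) ^ 2 + 1 + ((d : ℝ) ^ (m + 2) * (s : ℝ) - k)) / (d : ℝ) ^ (m + 2) +
          ((k - (b * d ^ 2 + 1) : ℕ) : ℝ) / (d : ℝ) ^ (m + 2) else
        (b * (d : ℝ) ^ 2 + 1 + ((d : ℝ) ^ (m + 2) * (s : ℝ) - k)) / (d : ℝ) ^ (m + 2) +
          ((k - (b * d ^ 2 + 1) : ℕ) : ℝ) / (d : ℝ) ^ (m + 2) - 1
      rw [h1, if_pos hs1]
  · refine ⟨k + d ^ (m + 2) - (b * d ^ 2 + 1), ⟨_, hu0, hu1⟩, by omega, ?_, ?_, ?_⟩
    · show (b : ℝ) < (d : ℝ) ^ m * ((b * (d : ℝ) ^ 2 + 1 + ((d : ℝ) ^ (m + 2) * (s : ℝ) - k)) / (d : ℝ) ^ (m + 2))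
      rw [hDu, lt_div_iff₀ hpos2]
      linarith
    · show (d : ℝ) ^ m * ((b * (d : ℝ) ^ 2 + 1 + ((d : ℝ) ^ (m + 2) * (s : ℝ) - k)) / (d : ℝ) ^ (m + 2)) < b + 1
      rw [hDu, div_lt_iff₀ hpos2]
      linarith
    · have h1 : (b * (d : ℝ) ^ 2 + 1 + ((d : ℝ) ^ (m + 2) * (s : ℝ) - k)) / (d : ℝ) ^ (m + 2) +
          ((k + d ^ (m + 2) - (b * d ^ 2 + 1) : ℕ) : ℝ) / (d : ℝ) ^ (m + 2) = s + 1 := by
        rw [Nat.cast_sub (by omega)]
        push_cast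
        field_simp
        ring
      show (s : ℝ) = if (b * (d : ℝ) ^ 2 + 1 + ((d : ℝ) ^ (m + 2) * (s : ℝ) - k)) / (d : ℝ) ^ (m + 2) +
          ((k + d ^ (m + 2) - (b * d ^ 2 + 1) : ℕ) : ℝ) / (d : ℝ) ^ (m + 2) < 1 then
        (b * (d : ℝ) ^ 2 + 1 + ((d : ℝ) ^ (m + 2) * (s : ℝ) - k)) / (d : ℝ) ^ (m + 2) +
          ((k + d ^ (m + 2) - (b * d ^ 2 + 1) : ℕ) : ℝ) / (d : ℝ) ^ (m + 2) else
        (b * (d : ℝ) ^ 2 + 1 + ((d : ℝ) ^ (m + 2) * (s : ℝ) - k)) / (d : ℝ) ^ (m + 2) +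
          ((k + d ^ (m + 2) - (b * d ^ 2 + 1) : ℕ) : ℝ) / (d : ℝ) ^ (m + 2) - 1
      rw [h1, if_neg (by linarith), add_sub_cancel_right]
-- END rcov

-- BEGIN relinf
/-- Group theory: `A' ≤ A` of finite index, `r A r⁻¹ ∩ A` of finite index in `A` for the finitely
many `r ∈ R`; then the intersection over `r ∈ R` of `r A' r⁻¹ ∩ A` has finite index in `A`.
(`Subgroup.relIndex_ne_zero_trans`, conjugation invariance, `Subgroup.relIndex_iInf_ne_zero`.) -/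
theorem relinf {G : Type} [Group G] (A A' : Subgroup G) (hle : A' ≤ A) (hfi : A'.relIndex A ≠ 0)
    (R : Finset G) (hR : ∀ r ∈ R, (A.map (MulAut.conj r).toMonoidHom).relIndex A ≠ 0) :
    (⨅ r ∈ R, A'.map (MulAut.conj r).toMonoidHom).relIndex A ≠ 0 := by
  classical
  induction R using Finset.induction_on with
  | empty => simp [Subgroup.relIndex]
  | insert r R hr ih =>
    rw [Finset.iInf_insert]
    refine Subgroup.relIndex_inf_ne_zero ?_ (ih fun s hs => hR s (Finset.mem_insert_of_mem hs))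
    refine Subgroup.relIndex_ne_zero_trans (K := A.map (MulAut.conj r).toMonoidHom) ?_
      (hR r (Finset.mem_insert_self _ _))
    have : (A'.map (MulAut.conj r).toMonoidHom).relIndex (A.map (MulAut.conj r).toMonoidHom)
        = A'.relIndex A := by
      exact Subgroup.relIndex_map_map_of_injective _ _ (MulAut.conj r).injective
    rw [this]; exact hfi
-- END relinf

-- BEGIN finA
/-- Main group theoretical statement for (2): `T_d ≤ G ≤ V_d`, `A ≤ G` abelian, torsion,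
commensurated by all elements of `G`: then `A` is finite. Proof: if `A ≠ ⊥` take `a ≠ 1` in `A`,
`vmoved`, a push `g` (`expush`, `fdtd`); `A' = A ∩ g A g⁻¹` commutes with `a` and `g a g⁻¹`, so is
trivial on the interior of `J` (`torid`); `relinf` with the rotations: a finite index subgroup of
`A` is trivial on all of `X` (`rcov`), i.e. `⊥` has finite index in `A`. -/
theorem finA (d : ℕ) (hd : 2 ≤ d) (G : Subgroup (Equiv.Perm X)) (hT : ∀ f, IsTd d f → f ∈ G)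
    (hV : ∀ f ∈ G, IsVd d f) (A : Subgroup G) (hc : ∀ a ∈ A, ∀ b ∈ A, a * b = b * a)
    (ht : ∀ a ∈ A, ∃ N : ℕ, 0 < N ∧ a ^ N = 1)
    (hrel : ∀ g : G, (A.map (MulAut.conj g).toMonoidHom).relIndex A ≠ 0) : Finite A := by
  classical
  by_cases hbot : A = ⊥
  · rw [hbot]; infer_instance
  obtain ⟨⟨a, haA⟩, ha0⟩ := (Subgroup.ne_bot_iff_exists_ne_one).mp hbot
  have ha1 : a ≠ 1 := fun h => ha0 (Subtype.ext h)
  have ha1' : (a : Equiv.Perm X) ≠ 1 := fun h => ha1 (Subtype.ext h)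
  obtain ⟨m, b, m', b', hb, hCM, hoff⟩ := vmoved d hd (a : Equiv.Perm X) (hV _ a.2) ha1'
  obtain ⟨g, hg⟩ := expush d m b hd hb
  set gG : G := ⟨g, hT g (fdtd d hd g hg.fd)⟩ with hgG
  set A' : Subgroup G := A ⊓ A.map (MulAut.conj gG).toMonoidHom with hA'
  have hfi : A'.relIndex A ≠ 0 := by
    rw [hA', Subgroup.inf_relIndex_left]
    exact hrel gG
  choose r hrT hr using fun j : Fin (d ^ (m + 2)) => exrot d (m + 2) j hd j.2
  set R : Finset G := Finset.univ.image fun j => (⟨r j, hT _ (hrT j)⟩ : G) with hR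
  have h1 := relinf A A' inf_le_left hfi R fun r _ => hrel r
  have h2 : (⨅ r ∈ R, A'.map (MulAut.conj r).toMonoidHom) = ⊥ := by
    rw [eq_bot_iff]
    intro x hx
    rw [Subgroup.mem_bot]
    apply Subtype.ext
    apply Equiv.ext
    intro s
    obtain ⟨j, u, hj, hu0, hu1, hsu⟩ := rcov d m b hd hb s
    have hs : s = r ⟨j, hj⟩ u := by
      apply Subtype.ext
      rw [hr, hsu]
    have hx' := (Subgroup.mem_iInf.mp (Subgroup.mem_iInf.mp hx ⟨r ⟨j, hj⟩, hT _ (hrT _)⟩))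
      (Finset.mem_image_of_mem _ (Finset.mem_univ (⟨j, hj⟩ : Fin (d ^ (m + 2)))))
    obtain ⟨z, hz, rfl⟩ := Subgroup.mem_map.mp hx'
    obtain ⟨hzA, hzg⟩ := Subgroup.mem_inf.mp hz
    obtain ⟨w, hw, hwz⟩ := Subgroup.mem_map.mp hzg
    obtain ⟨N, hN, hzN⟩ := ht z hzA
    have e1 : z * a = a * z := hc z hzA a haA
    have e2 : z * (gG * a * gG⁻¹) = (gG * a * gG⁻¹) * z := by
      rw [← hwz]
      have e3 : w * a = a * w := hc w hw a haA
      simp only [MulEquiv.toMonoidHom_eq_coe, MonoidHom.coe_coe, MulAut.conj_apply]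
      calc gG * w * gG⁻¹ * (gG * a * gG⁻¹) = gG * (w * a) * gG⁻¹ := by group
        _ = gG * (a * w) * gG⁻¹ := by rw [e3]
        _ = _ := by group
    have e3 : z * (gG * a * gG⁻¹ * a⁻¹) = (gG * a * gG⁻¹ * a⁻¹) * z := by
      have e4 : z * a⁻¹ = a⁻¹ * z := by
        rw [eq_inv_mul_iff_mul_eq, ← mul_assoc, ← e1, mul_assoc, mul_inv_cancel, mul_one]
      rw [← mul_assoc, e2, mul_assoc, e4, ← mul_assoc]
    have e4 : (z : Equiv.Perm X) * (g * a * g⁻¹ * (a : Equiv.Perm X)⁻¹)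
        = (g * a * g⁻¹ * (a : Equiv.Perm X)⁻¹) * z := congrArg Subtype.val e3
    have e5 : (z : Equiv.Perm X) ^ N = 1 := congrArg Subtype.val hzN
    have e6 := torid d m b hd hb g a z hg m' b' hCM hoff (hV _ z.2) e4 N hN e5 u hu0 hu1
    rw [hs]
    change (r ⟨j, hj⟩ * (z : Equiv.Perm X) * (r ⟨j, hj⟩)⁻¹) (r ⟨j, hj⟩ u) = r ⟨j, hj⟩ u
    rw [Equiv.Perm.mul_apply, Equiv.Perm.mul_apply, ← Equiv.Perm.mul_apply _⁻¹, inv_mul_cancel]
    change r ⟨j, hj⟩ ((z : Equiv.Perm X) u) = _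
    rw [e6]
  rw [h2, Subgroup.relIndex_bot_left] at h1
  exact Nat.finite_of_card_ne_zero h1
-- END finA

-- BEGIN ginf
/-- A group of permutations containing `F_d` is infinite (a push has infinite order). -/
theorem ginf (d : ℕ) (hd : 2 ≤ d) (G : Subgroup (Equiv.Perm X)) (hF : ∀ f, IsFd d f → f ∈ G) :
    Infinite G := by
  obtain ⟨g, hg⟩ := expush d 0 0 hd (by norm_num)
  have hmem : ∀ n : ℕ, g ^ n ∈ G := fun n => G.pow_mem (hF g hg.fd) n
  let s : X := ⟨1 / 2, by norm_num, by norm_num⟩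
  have hs : ∀ n : ℕ, 0 < (((g ^ n) s : X) : ℝ) ∧ ∀ m < n, (g ^ m) s < (g ^ n) s := by
    intro n
    induction n with
    | zero =>
      refine ⟨?_, fun m hm => absurd hm (Nat.not_lt_zero m)⟩
      rw [pow_zero]
      change (0 : ℝ) < 1 / 2
      norm_num
    | succ n ih =>
      have h1 := hg.up ((g ^ n) s) (by
        have := ih.1
        simpa using this) (by
        have := ((g ^ n) s).2.2
        simpa using this)
      have h2 : (g ^ (n + 1)) s = g ((g ^ n) s) := by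
        rw [pow_succ', Equiv.Perm.mul_apply]
      rw [h2]
      refine ⟨lt_trans ih.1 (Subtype.coe_lt_coe.2 h1.1), ?_⟩
      intro m hm
      rcases Nat.lt_succ_iff_lt_or_eq.1 hm with h3 | h3
      · exact (ih.2 m h3).trans h1.1
      · rw [h3]; exact h1.1
  apply Infinite.of_injective (fun n : ℕ => (⟨g ^ n, hmem n⟩ : G))
  intro m n h
  have h1 : g ^ m = g ^ n := congrArg Subtype.val h
  rcases lt_trichotomy m n with h2 | h2 | h2
  · have := (hs n).2 m h2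
    rw [h1] at this
    exact absurd this (lt_irrefl _)
  · exact h2
  · have := (hs m).2 n h2
    rw [h1] at this
    exact absurd this (lt_irrefl _)
-- END ginf

-- BEGIN fdtf
/-- `F_d` is torsion free (an increasing permutation of finite order is trivial). -/
theorem fdtf (d : ℕ) (f : Equiv.Perm X) (hf : IsFd d f) (N : ℕ) (hN : 0 < N) (h : f ^ N = 1) :
    f = 1 := by
  have hm : StrictMono f := hf.2
  have hiter : ∀ k : ℕ, ∀ s : X, (f ^ k) s = (f^[k]) s := by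
    intro k s
    rw [Equiv.Perm.iterate_eq_pow]
  apply Equiv.ext
  intro s
  show f s = s
  have hNs : (f^[N]) s = s := by
    rw [← hiter, h]; rfl
  rcases lt_trichotomy (f s) s with h1 | h1 | h1
  · exfalso
    have h2 : StrictAnti fun n => (f^[n]) s := hm.strictAnti_iterate_of_map_lt h1
    have h3 := h2 hN
    simp only [Function.iterate_zero, id_eq] at h3
    rw [hNs] at h3
    exact lt_irrefl _ h3
  · exact h1
  · exfalso
    have h2 : StrictMono fun n => (f^[n]) s := hm.strictMono_iterate_of_lt_map h1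
    have h3 := h2 hN
    simp only [Function.iterate_zero, id_eq] at h3
    rw [hNs] at h3
    exact lt_irrefl _ h3
-- END fdtf

end CarT
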