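import Pool.Agent.CarT.Tor

/-! Versions of `stay`, `germid`, `torid` with `a ∈ V_d` arbitrary (rows). -/

open Filter Topology

namespace CarT

-- BEGIN stayv
theorem stayv_ai {Y : Type} (g : Equiv.Perm Y) (s : Y) : g (g⁻¹ s) = s := g.apply_symm_apply s

theorem stayv_ia {Y : Type} (g : Equiv.Perm Y) (s : Y) : g⁻¹ (g s) = s := g.symm_apply_apply s

theorem stayv_up (d m b : ℕ) (g : Equiv.Perm X) (hg : IsPush d m b g) (s : X)
    (h0 : (b : ℝ) ≤ (d : ℝ) ^ m * s) (h1 : (d : ℝ) ^ m * s < b + 1) : s ≤ g s := by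
  rcases h0.eq_or_lt with h | h
  · rw [hg.left s h.symm]
  · exact (hg.up s h h1).1.le

theorem stayv_int (d m b : ℕ) (hd : 2 ≤ d) (g : Equiv.Perm X) (hg : IsPush d m b g) (s : X)
    (h0 : (b : ℝ) < (d : ℝ) ^ m * s) (h1 : (d : ℝ) ^ m * s < b + 1) :
    (b : ℝ) < (d : ℝ) ^ m * (g s : ℝ) ∧ (d : ℝ) ^ m * (g s : ℝ) < b + 1 := by
  have h2 := hg.up s h0 h1
  have h3 : (s : ℝ) < (g s : ℝ) := h2.1
  have hd0 : (0 : ℝ) < (d : ℝ) ^ m := by positivity
  exact ⟨by nlinarith, h2.2.2⟩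

theorem stayv_pow (d m b : ℕ) (hd : 2 ≤ d) (g h : Equiv.Perm X) (hg : IsPush d m b g)
    (hh : ∀ s ∈ cone d m b, h s = g s) (s : X)
    (h0 : (b : ℝ) < (d : ℝ) ^ m * s) (h1 : (d : ℝ) ^ m * s < b + 1) (n : ℕ) :
    ((b : ℝ) < (d : ℝ) ^ m * ((g ^ n) s : ℝ) ∧ (d : ℝ) ^ m * ((g ^ n) s : ℝ) < b + 1) ∧
      (h ^ n) s = (g ^ n) s := by
  induction n with
  | zero => exact ⟨by simpa using ⟨h0, h1⟩, by simp⟩
  | succ n ih =>
    have e1 : (g ^ (n + 1)) s = g ((g ^ n) s) := by rw [pow_succ', Equiv.Perm.mul_apply]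
    have e2 : (h ^ (n + 1)) s = h ((h ^ n) s) := by rw [pow_succ', Equiv.Perm.mul_apply]
    refine ⟨?_, ?_⟩
    · rw [e1]
      exact stayv_int d m b hd g hg _ ih.1.1 ih.1.2
    · rw [e1, e2, ih.2]
      exact hh _ ⟨ih.1.1.le, ih.1.2⟩

/-- As `stay`, but `a ∈ V_d` need not be affine on `J`: for `s = a r`, `r ∈ J`,
`h^j s = a (g^{-j} r)`, and `g^{-j} r` decreases to the left end of `J` (or is constant); `a` is
affine increasing on some sub-cone at the left end (`vlev`, `vup`), so `h^j s` is eventually weakly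
decreasing, while `x (t_j)` is eventually strictly increasing. -/
theorem stayv (d m b : ℕ) (hd : 2 ≤ d) (hb : b < d ^ m) (g a x : Equiv.Perm X)
    (hg : IsPush d m b g) (ha : IsVd d a)
    (haJ : ∀ s ∈ cone d m b, a s ∉ cone d m b) (hx : IsVd d x)
    (hc : x * (g * a * g⁻¹ * a⁻¹) = (g * a * g⁻¹ * a⁻¹) * x) (t : X)
    (h0 : (b : ℝ) < (d : ℝ) ^ m * t) (h1 : (d : ℝ) ^ m * t < b + 1) :
    (b : ℝ) < (d : ℝ) ^ m * (x t : ℝ) ∧ (d : ℝ) ^ m * (x t : ℝ) < b + 1 := by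
  obtain ⟨hJ, haJ', hoff⟩ := hact g a (cone d m b) hg.off haJ
  set h : Equiv.Perm X := g * a * g⁻¹ * a⁻¹ with hdef
  obtain ⟨m1, m2, a2, hm1, hcm⟩ := rgerm d m b hd hb x hx
  have hd1 : (1 : ℝ) < (d : ℝ) := by exact_mod_cast hd
  have hd0 : ∀ k : ℕ, (0 : ℝ) < (d : ℝ) ^ k := fun k => by positivity
  have hpow : (d : ℝ) ^ m1 = (d : ℝ) ^ m * (d : ℝ) ^ (m1 - m) := by
    rw [← pow_add]; congr 1; omega
  have hcast : (((b + 1) * d ^ (m1 - m) - 1 : ℕ) : ℝ) = (b + 1) * (d : ℝ) ^ (m1 - m) - 1 := by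
    rw [Nat.cast_sub]
    · push_cast; ring
    · exact Nat.one_le_iff_ne_zero.mpr (by positivity)
  -- the points `t_n` are eventually in the germ cone
  obtain ⟨N, hN⟩ := hg.lim t h0 h1 (1 / (d : ℝ) ^ (m1 - m)) (by positivity)
  have hgerm : ∀ n ≥ N, (g ^ n) t ∈ cone d m1 ((b + 1) * d ^ (m1 - m) - 1) := by
    intro n hn
    have e1 := hN n hn
    have e2 := (stayv_pow d m b hd g h hg hJ t h0 h1 n).1.2
    have hp := hd0 (m1 - m)
    refine ⟨?_, ?_⟩
    · rw [hcast, hpow]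
      have : ((b : ℝ) + 1 - 1 / (d : ℝ) ^ (m1 - m)) * (d : ℝ) ^ (m1 - m) ≤
          (d : ℝ) ^ m * ((g ^ n) t : ℝ) * (d : ℝ) ^ (m1 - m) :=
        mul_le_mul_of_nonneg_right e1.le hp.le
      have h3 : ((b : ℝ) + 1 - 1 / (d : ℝ) ^ (m1 - m)) * (d : ℝ) ^ (m1 - m) =
          ((b : ℝ) + 1) * (d : ℝ) ^ (m1 - m) - 1 := by field_simp
      rw [h3] at this
      linarith
    · rw [hcast, hpow]
      have : (d : ℝ) ^ m * ((g ^ n) t : ℝ) * (d : ℝ) ^ (m1 - m) <
          ((b : ℝ) + 1) * (d : ℝ) ^ (m1 - m) := mul_lt_mul_of_pos_right e2 hp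
      linarith
  have hcomm : ∀ n : ℕ, x ((h ^ n) t) = (h ^ n) (x t) := by
    intro n
    have hcc : Commute x (h ^ n) := Commute.pow_right hc n
    have := congrArg (fun f : Equiv.Perm X => f t) hcc.eq
    simpa [Equiv.Perm.mul_apply] using this
  -- `y_n = h^n (x t)` is strictly increasing for `n ≥ N`
  have hinc : ∀ n ≥ N, (h ^ n) (x t) < (h ^ (n + 1)) (x t) := by
    intro n hn
    rw [← hcomm, ← hcomm, (stayv_pow d m b hd g h hg hJ t h0 h1 n).2,
      (stayv_pow d m b hd g h hg hJ t h0 h1 (n + 1)).2]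
    have e1 := hcm _ (hgerm n hn)
    have e2 := hcm _ (hgerm (n + 1) (by omega))
    have e3 : (((g ^ n) t : X) : ℝ) < ((g ^ (n + 1)) t : X) := by
      rw [pow_succ', Equiv.Perm.mul_apply]
      have e4 := (stayv_pow d m b hd g h hg hJ t h0 h1 n).1
      exact (hg.up _ e4.1 e4.2).1
    have e5 : (d : ℝ) ^ m1 * ((g ^ n) t : ℝ) < (d : ℝ) ^ m1 * ((g ^ (n + 1)) t : ℝ) :=
      mul_lt_mul_of_pos_left e3 (hd0 m1)
    have e6 : (d : ℝ) ^ m2 * (x ((g ^ n) t) : ℝ) < (d : ℝ) ^ m2 * (x ((g ^ (n + 1)) t) : ℝ) := by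
      rw [e1, e2]; linarith
    have e7 : (x ((g ^ n) t) : ℝ) < (x ((g ^ (n + 1)) t) : ℝ) :=
      lt_of_mul_lt_mul_left e6 (hd0 m2).le
    exact e7
  -- fixed points of `h` are excluded
  have hfix : h (x t) ≠ x t := by
    intro hf
    have : ∀ n : ℕ, (h ^ n) (x t) = x t := by
      intro n
      induction n with
      | zero => simp
      | succ n ih => rw [pow_succ', Equiv.Perm.mul_apply, ih, hf]
    have hN' := hinc N le_rfl
    rw [this, this] at hN'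
    exact lt_irrefl _ hN'
  by_cases hy : x t ∈ cone d m b
  · refine ⟨lt_of_le_of_ne hy.1 ?_, hy.2⟩
    intro hne
    exact hfix (by rw [hJ _ hy, hg.left _ hne.symm])
  · exfalso
    by_cases hy' : a⁻¹ (x t) ∈ cone d m b
    · -- `h^n y = a (g^(-n) (a⁻¹ y))`
      have hgJ : ∀ s ∈ cone d m b, g⁻¹ s ∈ cone d m b := by
        intro s hs
        by_contra hcon
        have := hg.off _ hcon
        rw [stayv_ai] at this
        rw [← this] at hcon
        exact hcon hs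
      have hit : ∀ n : ℕ, (g⁻¹ ^ n) (a⁻¹ (x t)) ∈ cone d m b ∧
          (h ^ n) (x t) = a ((g⁻¹ ^ n) (a⁻¹ (x t))) := by
        intro n
        induction n with
        | zero => exact ⟨by simpa using hy', by simp⟩
        | succ n ih =>
          have e1 : (g⁻¹ ^ (n + 1)) (a⁻¹ (x t)) = g⁻¹ ((g⁻¹ ^ n) (a⁻¹ (x t))) := by
            rw [pow_succ', Equiv.Perm.mul_apply]
          have e2 : (h ^ (n + 1)) (x t) = h ((h ^ n) (x t)) := by
            rw [pow_succ', Equiv.Perm.mul_apply]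
          refine ⟨by rw [e1]; exact hgJ _ ih.1, ?_⟩
          rw [e1, e2, ih.2, haJ' _ ih.1]
      rcases hy'.1.eq_or_lt with hze | hzl
      · -- `a⁻¹ (x t)` is the left end
        apply hfix
        have e1 : g (a⁻¹ (x t)) = a⁻¹ (x t) := hg.left _ hze.symm
        have e2 : g⁻¹ (a⁻¹ (x t)) = a⁻¹ (x t) := by
          have e3 := stayv_ia g (a⁻¹ (x t))
          rw [e1] at e3
          exact e3
        have e3 := haJ' _ hy'
        rw [e2, stayv_ai] at e3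
        exact e3
      · obtain ⟨M, hM⟩ := vlev d hd a ha
        obtain ⟨m', a', hcl, -⟩ := vup d hd a M hM (m + M) (by omega) (b * d ^ M)
          (by rw [pow_add]; exact Nat.mul_lt_mul_of_pos_right hb (by positivity))
        have hpM := hd0 M
        have hpM1 : (1 : ℝ) ≤ (d : ℝ) ^ M := one_le_pow₀ hd1.le
        obtain ⟨s0, -, hs0⟩ := cpt d m b hd hb (1 / (2 * (d : ℝ) ^ M)) (by positivity) (by
          rw [div_lt_one (by positivity)]
          linarith)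
        have hs0l : (b : ℝ) < (d : ℝ) ^ m * s0 := by
          rw [hs0]
          have : 0 < 1 / (2 * (d : ℝ) ^ M) := by positivity
          linarith
        have hs0r : (d : ℝ) ^ m * s0 < b + 1 := by
          rw [hs0]
          have : 1 / (2 * (d : ℝ) ^ M) < 1 := by
            rw [div_lt_one (by positivity)]
            linarith
          linarith
        obtain ⟨N', hN'⟩ := hg.lim s0 hs0l hs0r ((b : ℝ) + 1 - (d : ℝ) ^ m * (a⁻¹ (x t) : X))
          (by linarith [hy'.2])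
        set n := max N N' with hn
        have e1 := hN' n (le_max_right _ _)
        have e2 : (a⁻¹ (x t) : X) < (g ^ n) s0 := by
          have e3 : (d : ℝ) ^ m * ((a⁻¹ (x t) : X) : ℝ) < (d : ℝ) ^ m * ((g ^ n) s0 : ℝ) := by
            linarith
          have e3' : ((a⁻¹ (x t) : X) : ℝ) < ((g ^ n) s0 : ℝ) :=
            lt_of_mul_lt_mul_left e3 (hd0 m).le
          exact e3'
        have hmono : StrictMono (g ^ n : Equiv.Perm X) := by
          have := hg.fd.2.iterate n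
          rwa [Equiv.Perm.iterate_eq_pow] at this
        have e4 : (g ^ n) ((g⁻¹ ^ n) (a⁻¹ (x t))) = a⁻¹ (x t) := by
          rw [inv_pow]
          exact stayv_ai (g ^ n) _
        have e5 : (g⁻¹ ^ n) (a⁻¹ (x t)) < s0 := by
          rw [← hmono.lt_iff_lt, e4]
          exact e2
        obtain ⟨hz1, hz2⟩ := hit n
        obtain ⟨hw1, hw2⟩ := hit (n + 1)
        have e7 : (g⁻¹ ^ (n + 1)) (a⁻¹ (x t)) ≤ g ((g⁻¹ ^ (n + 1)) (a⁻¹ (x t))) :=
          stayv_up d m b g hg _ hw1.1 hw1.2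
        have e8 : g ((g⁻¹ ^ (n + 1)) (a⁻¹ (x t))) = (g⁻¹ ^ n) (a⁻¹ (x t)) := by
          rw [pow_succ', Equiv.Perm.mul_apply, stayv_ai]
        rw [e8] at e7
        have hsub : ∀ w : X, w ∈ cone d m b → w < s0 → w ∈ cone d (m + M) (b * d ^ M) := by
          intro w hw hw0
          have f1 : (d : ℝ) ^ m * (w : ℝ) < b + 1 / (2 * (d : ℝ) ^ M) := by
            rw [← hs0]
            exact mul_lt_mul_of_pos_left hw0 (hd0 m)
          have f2 : (d : ℝ) ^ (m + M) * (w : ℝ) = (d : ℝ) ^ m * (w : ℝ) * (d : ℝ) ^ M := by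
            rw [pow_add]; ring
          refine ⟨?_, ?_⟩
          · rw [f2]
            push_cast
            exact mul_le_mul_of_nonneg_right hw.1 hpM.le
          · rw [f2]
            push_cast
            have f3 : (d : ℝ) ^ m * (w : ℝ) * (d : ℝ) ^ M <
                (b + 1 / (2 * (d : ℝ) ^ M)) * (d : ℝ) ^ M := mul_lt_mul_of_pos_right f1 hpM
            have f4 : (b + 1 / (2 * (d : ℝ) ^ M)) * (d : ℝ) ^ M = b * (d : ℝ) ^ M + 1 / 2 := by
              field_simp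
            rw [f4] at f3
            linarith
        have g1 := hcl _ (hsub _ hz1 e5)
        have g2 := hcl _ (hsub _ hw1 (lt_of_le_of_lt e7 e5))
        have e9 := hinc n (le_max_left _ _)
        rw [hz2, hw2] at e9
        have e10 : (a ((g⁻¹ ^ n) (a⁻¹ (x t))) : ℝ) < (a ((g⁻¹ ^ (n + 1)) (a⁻¹ (x t))) : ℝ) := e9
        have e11 := mul_lt_mul_of_pos_left e10 (hd0 m')
        rw [g1, g2] at e11
        have e12 : (d : ℝ) ^ (m + M) * ((g⁻¹ ^ n) (a⁻¹ (x t)) : ℝ) <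
            (d : ℝ) ^ (m + M) * ((g⁻¹ ^ (n + 1)) (a⁻¹ (x t)) : ℝ) := by linarith
        have e13 : ((g⁻¹ ^ n) (a⁻¹ (x t)) : ℝ) < ((g⁻¹ ^ (n + 1)) (a⁻¹ (x t)) : ℝ) :=
          lt_of_mul_lt_mul_left e12 (hd0 (m + M)).le
        exact absurd e13 (not_lt.mpr e7)
    · exact hfix (hoff _ hy hy')
-- END stayv

-- BEGIN toridv
/-- Iterates of a push stay in the interior of the cone. -/
private theorem toridv_int (d m b : ℕ) (g : Equiv.Perm X) (hg : IsPush d m b g) (t : X)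
    (h0 : (b : ℝ) < (d : ℝ) ^ m * t) (h1 : (d : ℝ) ^ m * t < b + 1) (n : ℕ) :
    (b : ℝ) < (d : ℝ) ^ m * ((g ^ n) t : ℝ) ∧ (d : ℝ) ^ m * ((g ^ n) t : ℝ) < b + 1 := by
  induction n with
  | zero => exact ⟨h0, h1⟩
  | succ n ih =>
    have h2 := hg.up ((g ^ n) t) ih.1 ih.2
    have h3 : (g ^ (n + 1)) t = g ((g ^ n) t) := by
      rw [pow_succ']
      rfl
    rw [h3]
    refine ⟨lt_of_lt_of_le ih.1 ?_, h2.2.2⟩
    exact mul_le_mul_of_nonneg_left (le_of_lt h2.1) (by positivity)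

/-- If moreover `x^N = 1`, `N ≥ 1`, then `x` is the identity near the right end of `J`: by `stay`
and `IsPush.lim` the target cone of `rgerm` has the same right end, so near it
`β - x(τ) = ρ (β - τ)`, and `x^N = 1` forces `ρ^N = 1`, `ρ = 1`. -/
theorem toridv_germ (d m b : ℕ) (hd : 2 ≤ d) (hb : b < d ^ m) (g a x : Equiv.Perm X)
    (hg : IsPush d m b g) (ha : IsVd d a)
    (haJ : ∀ s ∈ cone d m b, a s ∉ cone d m b) (hx : IsVd d x)
    (hc : x * (g * a * g⁻¹ * a⁻¹) = (g * a * g⁻¹ * a⁻¹) * x) (N : ℕ) (hN : 0 < N)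
    (hxN : x ^ N = 1) : ∃ ε : ℝ, 0 < ε ∧ ∀ s : X, (b : ℝ) + 1 - ε < (d : ℝ) ^ m * s →
      (d : ℝ) ^ m * s < b + 1 → x s = s := by
  obtain ⟨m1, m2, a2, hm, hcm⟩ := rgerm d m b hd hb x hx
  have hd0 : (0 : ℝ) < d := by
    have : 0 < d := by omega
    exact_mod_cast this
  have hD : (0 : ℝ) < (d : ℝ) ^ m := pow_pos hd0 _
  have hE : (0 : ℝ) < (d : ℝ) ^ (m1 - m) := pow_pos hd0 _
  have hD1 : (0 : ℝ) < (d : ℝ) ^ m1 := pow_pos hd0 _
  have hD2 : (0 : ℝ) < (d : ℝ) ^ m2 := pow_pos hd0 _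
  have hDE : (d : ℝ) ^ m1 = (d : ℝ) ^ m * (d : ℝ) ^ (m1 - m) := by
    rw [← pow_add]
    congr 1
    omega
  have hE1 : (1 : ℝ) ≤ (d : ℝ) ^ (m1 - m) := by
    apply one_le_pow₀
    have : 1 ≤ d := by omega
    exact_mod_cast this
  set D : ℝ := (d : ℝ) ^ m with hDdef
  set E : ℝ := (d : ℝ) ^ (m1 - m) with hEdef
  set D1 : ℝ := (d : ℝ) ^ m1 with hD1def
  set D2 : ℝ := (d : ℝ) ^ m2 with hD2def
  have hcc : ((((b + 1) * d ^ (m1 - m) - 1 : ℕ) : ℝ)) = (b + 1) * E - 1 := by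
    have h4 : 1 ≤ (b + 1) * d ^ (m1 - m) := Nat.mul_pos (Nat.succ_pos _) (Nat.pow_pos (by omega))
    rw [Nat.cast_sub h4]
    push_cast
    rfl
  -- the germ in terms of `u = b + 1 - D s`
  have hgerm : ∀ s : X, 0 < (b : ℝ) + 1 - D * s → (b : ℝ) + 1 - D * s ≤ 1 / E →
      D2 * ((x s : ℝ)) = a2 + 1 - E * ((b : ℝ) + 1 - D * s) := by
    intro s h1 h2
    have h3 : E * ((b : ℝ) + 1 - D * s) ≤ 1 := by
      calc E * ((b : ℝ) + 1 - D * s) ≤ E * (1 / E) := mul_le_mul_of_nonneg_left h2 hE.le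
        _ = 1 := by field_simp
    have h4 : 0 < E * ((b : ℝ) + 1 - D * s) := mul_pos hE h1
    have h5 := hcm s ⟨by rw [hcc, ← hD1def, hDE]; nlinarith, by rw [hcc, ← hD1def, hDE]; nlinarith⟩
    rw [hcc, ← hD1def, ← hD2def, hDE] at h5
    rw [h5]
    ring
  -- an interior point
  obtain ⟨t, _, ht⟩ := cpt d m b hd hb (1 / 2) (by norm_num) (by norm_num)
  rw [← hDdef] at ht
  have ht0 : (b : ℝ) < D * t := by rw [ht]; linarith
  have ht1 : D * t < b + 1 := by rw [ht]; linarith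
  have hy := stayv d m b hd hb g a x hg ha haJ hx hc t ht0 ht1
  rw [← hDdef] at hy
  have hact1 := (hact g a (cone d m b) hg.off haJ).1
  have hpow : ∀ s : X, (b : ℝ) < D * s → D * s < b + 1 → ∀ n : ℕ,
      ((g * a * g⁻¹ * a⁻¹) ^ n) s = (g ^ n) s := by
    intro s h0 h1 n
    induction n with
    | zero => rfl
    | succ n ih =>
      have h2 := toridv_int d m b g hg s h0 h1 n
      rw [pow_succ', pow_succ', Equiv.Perm.mul_apply, Equiv.Perm.mul_apply, ih]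
      exact hact1 _ ⟨h2.1.le, h2.2⟩
  have hxg : ∀ n : ℕ, x ((g ^ n) t) = (g ^ n) (x t) := by
    intro n
    have hcn : x * (g * a * g⁻¹ * a⁻¹) ^ n = (g * a * g⁻¹ * a⁻¹) ^ n * x :=
      (Commute.pow_right (show Commute x (g * a * g⁻¹ * a⁻¹) from hc) n).eq
    rw [← hpow t ht0 ht1 n, ← hpow (x t) hy.1 hy.2 n, ← Equiv.Perm.mul_apply, hcn, Equiv.Perm.mul_apply]
  -- the right end of the target
  have hend : D * ((a2 : ℝ) + 1) = D2 * ((b : ℝ) + 1) := by
    apply eq_of_abs_sub_le_all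
    intro ε hε
    have hS : 0 < D * E + D2 := by positivity
    have hδ : 0 < min (ε / (D * E + D2)) (1 / E) := lt_min (by positivity) (by positivity)
    obtain ⟨N1, hN1⟩ := hg.lim t ht0 ht1 _ hδ
    obtain ⟨N2, hN2⟩ := hg.lim (x t) hy.1 hy.2 _ hδ
    have e1 := hN1 (max N1 N2) (le_max_left _ _)
    have e2 := hN2 (max N1 N2) (le_max_right _ _)
    have i1 := toridv_int d m b g hg t ht0 ht1 (max N1 N2)
    have i2 := toridv_int d m b g hg (x t) hy.1 hy.2 (max N1 N2)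
    rw [← hDdef] at e1 e2 i1 i2
    have f1 := hgerm ((g ^ (max N1 N2)) t) (by linarith [i1.2]) (by
      have := min_le_right (ε / (D * E + D2)) (1 / E)
      linarith)
    rw [hxg] at f1
    set p : ℝ := (((g ^ (max N1 N2)) t : X) : ℝ) with hp
    set q : ℝ := (((g ^ (max N1 N2)) (x t) : X) : ℝ) with hq
    have g1 : (b : ℝ) + 1 - D * p < ε / (D * E + D2) := by
      have := min_le_left (ε / (D * E + D2)) (1 / E)
      linarith
    have g2 : (b : ℝ) + 1 - D * q < ε / (D * E + D2) := by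
      have := min_le_left (ε / (D * E + D2)) (1 / E)
      linarith
    have key : D * ((a2 : ℝ) + 1) - D2 * ((b : ℝ) + 1) =
        D * E * ((b : ℝ) + 1 - D * p) - D2 * ((b : ℝ) + 1 - D * q) := by
      have : D * (D2 * q) = D * (a2 + 1 - E * ((b : ℝ) + 1 - D * p)) := by rw [f1]
      linarith
    rw [key]
    have hDEp : 0 < D * E := mul_pos hD hE
    have k1 : D * E * ((b : ℝ) + 1 - D * p) ≤ D * E * (ε / (D * E + D2)) :=
      mul_le_mul_of_nonneg_left g1.le hDEp.le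
    have k2 : D2 * ((b : ℝ) + 1 - D * q) ≤ D2 * (ε / (D * E + D2)) :=
      mul_le_mul_of_nonneg_left g2.le hD2.le
    have k3 : 0 ≤ D * E * ((b : ℝ) + 1 - D * p) := mul_nonneg hDEp.le (by linarith [i1.2])
    have k4 : 0 ≤ D2 * ((b : ℝ) + 1 - D * q) := mul_nonneg hD2.le (by linarith [i2.2])
    have k5 : D * E * (ε / (D * E + D2)) + D2 * (ε / (D * E + D2)) = ε := by
      field_simp
    have k6 : 0 ≤ D * E * (ε / (D * E + D2)) := by positivity
    have k7 : 0 ≤ D2 * (ε / (D * E + D2)) := by positivity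
    rw [abs_le]
    constructor
    · linarith
    · linarith
  -- the ratio
  have hrat : ∀ s : X, 0 < (b : ℝ) + 1 - D * s → (b : ℝ) + 1 - D * s ≤ 1 / E →
      (b : ℝ) + 1 - D * (x s : ℝ) = (D1 / D2) * ((b : ℝ) + 1 - D * s) := by
    intro s h1 h2
    have h3 := hgerm s h1 h2
    have h4 : D2 * ((b : ℝ) + 1 - D * (x s : ℝ)) = D1 * ((b : ℝ) + 1 - D * s) := by
      have : D * (D2 * (x s : ℝ)) = D * (a2 + 1 - E * ((b : ℝ) + 1 - D * s)) := by rw [h3]
      rw [hDE]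
      linarith
    rw [div_mul_eq_mul_div, eq_div_iff hD2.ne']
    linarith
  have hρ : 0 < D1 / D2 := div_pos hD1 hD2
  set ρ : ℝ := D1 / D2 with hρdef
  have hK1 : (1 : ℝ) ≤ max 1 ρ := le_max_left _ _
  have hKN : (0 : ℝ) < (max 1 ρ) ^ N := pow_pos (lt_of_lt_of_le one_pos hK1) _
  have hKN1 : (1 : ℝ) ≤ (max 1 ρ) ^ N := one_le_pow₀ hK1
  have hu0 : 0 < 1 / (E * (max 1 ρ) ^ N) := by positivity
  have hu1 : 1 / (E * (max 1 ρ) ^ N) ≤ 1 := by
    rw [div_le_one (by positivity)]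
    nlinarith
  obtain ⟨s0, _, hs0⟩ := cpt d m b hd hb (1 - 1 / (E * (max 1 ρ) ^ N)) (by linarith) (by linarith)
  rw [← hDdef] at hs0
  have hu : (b : ℝ) + 1 - D * s0 = 1 / (E * (max 1 ρ) ^ N) := by rw [hs0]; ring
  have hiter : ∀ j : ℕ, j ≤ N → (b : ℝ) + 1 - D * (((x ^ j) s0 : X) : ℝ) =
      ρ ^ j * (1 / (E * (max 1 ρ) ^ N)) := by
    intro j
    induction j with
    | zero =>
      intro _
      rw [pow_zero, pow_zero, one_mul]
      exact hu
    | succ j ih =>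
      intro hj
      have h1 := ih (by omega)
      have h2 : ρ ^ j ≤ (max 1 ρ) ^ N :=
        le_trans (pow_le_pow_left₀ hρ.le (le_max_right _ _) j) (pow_le_pow_right₀ hK1 (by omega))
      have h3 : ρ ^ j * (1 / (E * (max 1 ρ) ^ N)) ≤ 1 / E := by
        have : (max 1 ρ) ^ N * (1 / (E * (max 1 ρ) ^ N)) = 1 / E := by field_simp
        rw [← this]
        exact mul_le_mul_of_nonneg_right h2 hu0.le
      have h4 : 0 < ρ ^ j * (1 / (E * (max 1 ρ) ^ N)) := mul_pos (pow_pos hρ _) hu0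
      have h5 := hrat ((x ^ j) s0) (by rw [h1]; exact h4) (by rw [h1]; exact h3)
      rw [pow_succ', Equiv.Perm.mul_apply, h5, h1, pow_succ']
      ring
  have hfin := hiter N le_rfl
  rw [hxN, Equiv.Perm.one_apply, hu] at hfin
  have hρN : ρ ^ N = 1 := by
    have h6 : (ρ ^ N - 1) * (1 / (E * (max 1 ρ) ^ N)) = 0 := by linarith
    rcases mul_eq_zero.1 h6 with h7 | h7
    · linarith
    · exact absurd h7 hu0.ne'
  have hρ1 : ρ = 1 := (pow_eq_one_iff_of_nonneg hρ.le hN.ne').1 hρN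
  refine ⟨1 / E, by positivity, fun s h1 h2 => ?_⟩
  have h3 := hrat s (by linarith) (by linarith)
  rw [hρ1, one_mul] at h3
  apply Subtype.ext
  have h4 : D * (x s : ℝ) = D * s := by linarith
  exact mul_left_cancel₀ hD.ne' h4

/-- As `torid` (through the analogue of `germid`; only `stayv` in place of `stay`). -/
theorem toridv (d m b : ℕ) (hd : 2 ≤ d) (hb : b < d ^ m) (g a x : Equiv.Perm X)
    (hg : IsPush d m b g) (ha : IsVd d a)
    (haJ : ∀ s ∈ cone d m b, a s ∉ cone d m b) (hx : IsVd d x)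
    (hc : x * (g * a * g⁻¹ * a⁻¹) = (g * a * g⁻¹ * a⁻¹) * x) (N : ℕ) (hN : 0 < N)
    (hxN : x ^ N = 1) (s : X) (h0 : (b : ℝ) < (d : ℝ) ^ m * s) (h1 : (d : ℝ) ^ m * s < b + 1) :
    x s = s := by
  have hJ := (hact g a (cone d m b) hg.off haJ).1
  obtain ⟨ε, hε, hgerm⟩ := toridv_germ d m b hd hb g a x hg ha haJ hx hc N hN hxN
  have hdm : (0 : ℝ) < (d : ℝ) ^ m := by
    have : (0 : ℝ) < (d : ℝ) := by exact_mod_cast (by omega : 0 < d)
    positivity
  have key : ∀ n : ℕ, (b : ℝ) < (d : ℝ) ^ m * ((g ^ n) s : ℝ) ∧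
      (d : ℝ) ^ m * ((g ^ n) s : ℝ) < b + 1 ∧
      ((g * a * g⁻¹ * a⁻¹) ^ n) s = (g ^ n) s := by
    intro n
    induction n with
    | zero => exact ⟨by simpa using h0, by simpa using h1, by simp⟩
    | succ n ih =>
      obtain ⟨i1, i2, i3⟩ := ih
      obtain ⟨u1, u2⟩ := hg.up ((g ^ n) s) i1 i2
      have e1 : (g ^ (n + 1)) s = g ((g ^ n) s) := by
        rw [pow_succ', Equiv.Perm.mul_apply]
      have e2 : ((g * a * g⁻¹ * a⁻¹) ^ (n + 1)) s = g ((g ^ n) s) := by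
        rw [pow_succ', Equiv.Perm.mul_apply, i3]
        exact hJ ((g ^ n) s) ⟨i1.le, i2⟩
      refine ⟨?_, ?_, ?_⟩
      · rw [e1]
        have u1' : (((g ^ n) s : X) : ℝ) < ((g ((g ^ n) s) : X) : ℝ) := u1
        exact lt_trans i1 (mul_lt_mul_of_pos_left u1' hdm)
      · rw [e1]
        exact u2.2
      · rw [e1, e2]
  obtain ⟨K, hK⟩ := hg.lim s h0 h1 ε hε
  obtain ⟨k1, k2, k3⟩ := key K
  have e3 : x ((g ^ K) s) = (g ^ K) s := hgerm _ (hK K le_rfl) k2
  have e4 : x * (g * a * g⁻¹ * a⁻¹) ^ K = (g * a * g⁻¹ * a⁻¹) ^ K * x := by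
    have : Commute x (g * a * g⁻¹ * a⁻¹) := hc
    exact (this.pow_right K).eq
  have e5 : ((g * a * g⁻¹ * a⁻¹) ^ K) (x s) = ((g * a * g⁻¹ * a⁻¹) ^ K) s := by
    have e6 := Equiv.congr_fun e4 s
    rw [Equiv.Perm.mul_apply, Equiv.Perm.mul_apply, k3, e3] at e6
    rw [← e6, k3]
  exact ((g * a * g⁻¹ * a⁻¹) ^ K).injective e5
-- END toridv

end CarT
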